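import Pool.Agent.Q207.HG.Tra

/-!
# Project HG: the minors at all points of the torsor, with a constant block
-/

set_option autoImplicit false

open Matrix Finset

namespace Q207.HG

open Q207.HM (Vb pb TP Yx QA)

variable {k : ℕ} {r : Fin k → ℕ} {n : ∀ i, Fin (r i) → ℕ} {J : Type} [Fintype J] [DecidableEq J]

/-- the block matrix with a constant block -/
noncomputable abbrev ex (J : Type) [Fintype J] [DecidableEq J] {I : Type} (X : Matrix I I ℂ) : Matrix (I ⊕ J) (I ⊕ J) ℂ :=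
  fromBlocks X 0 0 1

/-- the generic block matrix -/
noncomputable def GxR (n : ∀ i, Fin (r i) → ℕ) (J : Type) [Fintype J] [DecidableEq J] :
    Matrix (Ix n ⊕ J) (Ix n ⊕ J) (MvPolynomial (Vb n) ℂ) := fromBlocks (Gx n) 0 0 1

lemma GxR_eval (l : Fin k → ℂ) (g : ∀ i j, Matrix (Fin (n i j)) (Fin (n i j)) ℂ) :
    (GxR n J).map (MvPolynomial.aeval (pb l g) : MvPolynomial (Vb n) ℂ →ₐ[ℂ] ℂ).toRingHom = ex J (tot g) := by
  unfold GxR
  rw [fromBlocks_map]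
  have h1 : (Gx n).map (MvPolynomial.aeval (pb l g) : MvPolynomial (Vb n) ℂ →ₐ[ℂ] ℂ).toRingHom = tot g := Gx_eval l g
  rw [h1, Matrix.map_zero _ (map_zero _), Matrix.map_zero _ (map_zero _), Matrix.map_one _ (map_zero _) (map_one _)]

lemma GxR_PQ (a b : Ix n ⊕ J) : PQ 1 1 (GxR n J a b) := by
  unfold GxR
  rcases a with a | a <;> rcases b with b | b
  · exact Gx_PQ a b
  · exact PQ.zero
  · exact PQ.zero
  · rw [fromBlocks_apply₂₂, Matrix.one_apply]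
    split_ifs
    · rw [← MvPolynomial.C_1]
      exact (PQ.C one_mem1).mono le_rfl (Nat.zero_le _)
    · exact PQ.zero

/-- the generic conjugate -/
noncomputable def MxR (C : Matrix (Ix n ⊕ J) (Ix n ⊕ J) ℂ) (X : Matrix (Ix n ⊕ J) (Ix n ⊕ J) ℚ) :
    Matrix (Ix n ⊕ J) (Ix n ⊕ J) (MvPolynomial (Vb n) ℂ) :=
  GxR n J * (C * X.map (algebraMap ℚ ℂ) * C⁻¹).map (MvPolynomial.C : ℂ →+* MvPolynomial (Vb n) ℂ) * (GxR n J).adjugate

/-- the polynomial of a minor -/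
noncomputable def PxR (C : Matrix (Ix n ⊕ J) (Ix n ⊕ J) ℂ) {s : ℕ} (X : Fin s → Matrix (Ix n ⊕ J) (Ix n ⊕ J) ℚ)
    (p : Fin s → (Ix n ⊕ J) × (Ix n ⊕ J)) : MvPolynomial (Vb n) ℂ := (Matrix.of fun u l => MxR C (X u) (p l).1 (p l).2).det

lemma PxR_PQ (C : Matrix (Ix n ⊕ J) (Ix n ⊕ J) ℂ) {s : ℕ} (X : Fin s → Matrix (Ix n ⊕ J) (Ix n ⊕ J) ℚ)
    (p : Fin s → (Ix n ⊕ J) × (Ix n ⊕ J)) :
    PQ (W1 C ^ (2 * s)) (s * (1 + Fintype.card (Ix n ⊕ J))) (PxR C X p) := by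
  unfold PxR
  have h1 : ∀ u l, PQ (W1 C ^ 2) (1 + Fintype.card (Ix n ⊕ J)) ((Matrix.of fun u l => MxR C (X u) (p l).1 (p l).2 :
      Matrix (Fin s) (Fin s) (MvPolynomial (Vb n) ℂ)) u l) := by
    intro u l
    have h2 := PQ.mulM (W := 1 * W1 C ^ 2) (W' := 1) (d := 1 + 0) (d' := Fintype.card (Ix n ⊕ J))
      (PQ.mulM (fun a b => GxR_PQ (n := n) (J := J) a b) (M' := (C * (X u).map (algebraMap ℚ ℂ) * C⁻¹).map (MvPolynomial.C : ℂ →+* MvPolynomial (Vb n) ℂ)) (W' := W1 C ^ 2) (d' := 0)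
        fun a b => PQ.C (conj_mem C (X u) a b)) (fun a b => PQ.adj (fun a b => GxR_PQ (n := n) (J := J) a b) a b) (p l).1 (p l).2
    rw [one_mul, mul_one, Nat.add_zero] at h2
    exact h2
  have h2 := PQ.det h1
  rw [Fintype.card_fin, ← pow_mul] at h2
  exact h2

lemma PxR_eval (C : Matrix (Ix n ⊕ J) (Ix n ⊕ J) ℂ) {s : ℕ} (X : Fin s → Matrix (Ix n ⊕ J) (Ix n ⊕ J) ℚ)
    (p : Fin s → (Ix n ⊕ J) × (Ix n ⊕ J)) (l : Fin k → ℂ)
    {g : ∀ i j, Matrix (Fin (n i j)) (Fin (n i j)) ℂ} (hg : IsUnit (ex J (tot g)).det) :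
    MvPolynomial.aeval (pb l g) (PxR C X p) =
      (ex J (tot g)).det ^ s * Dt (fun u => un (ex J (tot g) * (C * (X u).map (algebraMap ℚ ℂ) * C⁻¹) * (ex J (tot g))⁻¹)) p := by
  set φ : MvPolynomial (Vb n) ℂ →+* ℂ := (MvPolynomial.aeval (pb l g) : MvPolynomial (Vb n) ℂ →ₐ[ℂ] ℂ).toRingHom with hφ
  have hmap : ∀ {a : Type} [Fintype a] [DecidableEq a] (M M' : Matrix a a (MvPolynomial (Vb n) ℂ)),
      (M * M').map φ = M.map φ * M'.map φ := fun M M' => Matrix.map_mul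
  have hC : ∀ M : Matrix (Ix n ⊕ J) (Ix n ⊕ J) ℂ, (M.map (MvPolynomial.C : ℂ →+* MvPolynomial (Vb n) ℂ)).map φ = M := by
    intro M
    ext a b
    rw [Matrix.map_apply, Matrix.map_apply, hφ]
    simp
  have hG : (GxR n J).map φ = ex J (tot g) := GxR_eval l g
  have hA : ((GxR n J).adjugate).map φ = (ex J (tot g)).det • (ex J (tot g))⁻¹ := by
    have h1 := RingHom.map_adjugate φ (GxR n J)
    rw [RingHom.mapMatrix_apply, RingHom.mapMatrix_apply, hG, adj_eqI hg] at h1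
    exact h1
  show φ (PxR C X p) = _
  unfold PxR
  rw [RingHom.map_det]
  have h1 : φ.mapMatrix (Matrix.of fun u l => MxR C (X u) (p l).1 (p l).2 : Matrix (Fin s) (Fin s) (MvPolynomial (Vb n) ℂ)) =
      (ex J (tot g)).det • (Matrix.of fun u l => un (ex J (tot g) * (C * (X u).map (algebraMap ℚ ℂ) * C⁻¹) * (ex J (tot g))⁻¹) (p l)) := by
    ext u l
    rw [RingHom.mapMatrix_apply, Matrix.map_apply, Matrix.of_apply, Matrix.smul_apply, Matrix.of_apply, un_apply]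
    have h2 : φ (MxR C (X u) (p l).1 (p l).2) = ((MxR C (X u)).map φ) (p l).1 (p l).2 := rfl
    rw [h2]
    unfold MxR
    rw [hmap, hmap, hC, hG, hA, Matrix.mul_smul, Matrix.smul_apply]
  rw [h1, Matrix.det_smul, Fintype.card_fin]
  rfl

/-- the degree -/
def dlR (n : ∀ i, Fin (r i) → ℕ) (J : Type) [Fintype J] : ℕ := Fintype.card (Ix n ⊕ J) ^ 2 * (1 + Fintype.card (Ix n ⊕ J))

/-- the space -/
noncomputable def VsR (C : Matrix (Ix n ⊕ J) (Ix n ⊕ J) ℂ) : Submodule ℚ ℂ := W1 C ^ (2 * Fintype.card (Ix n ⊕ J) ^ 2)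

lemma TP_unit {α : ∀ i j, Fin (n i j) → ℚ} {t : Fin k → ℕ} {g : ∀ i j, Matrix (Fin (n i j)) (Fin (n i j)) ℂ}
    (hg : ∀ i, g i ∈ TP (α i) (t i)) : IsUnit (tot g).det := by
  refine (Matrix.isUnit_iff_isUnit_det _).1 ⟨⟨tot g, tot fun i j => (g i j)⁻¹, ?_, ?_⟩, rfl⟩
  · rw [← blockDiagonal'_mul]
    refine Eq.trans (congrArg blockDiagonal' (funext fun x => ?_)) (blockDiagonal'_one)
    exact Matrix.mul_nonsing_inv _ (Ne.isUnit (by rw [(hg x.1).2 x.2]; exact Complex.exp_ne_zero _))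
  · rw [← blockDiagonal'_mul]
    refine Eq.trans (congrArg blockDiagonal' (funext fun x => ?_)) (blockDiagonal'_one)
    exact Matrix.nonsing_inv_mul _ (Ne.isUnit (by rw [(hg x.1).2 x.2]; exact Complex.exp_ne_zero _))

lemma ex_det {I : Type} [Fintype I] [DecidableEq I] (X : Matrix I I ℂ) : (ex J X).det = X.det := by
  rw [Matrix.det_fromBlocks_zero₂₁, Matrix.det_one, mul_one]

/-- **Transfer of the vanishing of minors.** -/
theorem transferR {α : ∀ i j, Fin (n i j) → ℚ} {t : Fin k → ℕ} {C : Matrix (Ix n ⊕ J) (Ix n ⊕ J) ℂ}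
    (hG : GoodP (dlR n J) (VsR C) α t)
    (hY : ∀ i, (fun j => Yx (n i j) (QA (α i j)) (1 / (t i : ℝ))) ∈ TP (α i) (t i)) {s : ℕ} (hs : s ≤ Fintype.card (Ix n ⊕ J) ^ 2)
    (X : Fin s → Matrix (Ix n ⊕ J) (Ix n ⊕ J) ℚ) (p : Fin s → (Ix n ⊕ J) × (Ix n ⊕ J))
    (h0 : Dt (fun u => un (ex J (tot (fun i j => Yx (n i j) (QA (α i j)) (1 / (t i : ℝ)))) * (C * (X u).map (algebraMap ℚ ℂ) * C⁻¹) *
      (ex J (tot fun i j => Yx (n i j) (QA (α i j)) (1 / (t i : ℝ))))⁻¹)) p = 0)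
    {g : ∀ i j, Matrix (Fin (n i j)) (Fin (n i j)) ℂ} (hg : ∀ i, g i ∈ TP (α i) (t i)) :
    Dt (fun u => un (ex J (tot g) * (C * (X u).map (algebraMap ℚ ℂ) * C⁻¹) * (ex J (tot g))⁻¹)) p = 0 := by
  have hu : ∀ g : ∀ i j, Matrix (Fin (n i j)) (Fin (n i j)) ℂ, (∀ i, g i ∈ TP (α i) (t i)) → IsUnit (ex J (tot g)).det := by
    intro g hg
    rw [ex_det]
    exact TP_unit hg
  have hmono : W1 C ^ (2 * s) ≤ VsR C := W1_pow_mono C (Nat.mul_le_mul_left 2 hs)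
  have h1 := hG (PxR C X p) ((PxR_PQ C X p).mono hmono (Nat.mul_le_mul_right _ hs)) (by
    rw [PxR_eval C X p _ (hu _ hY), h0, mul_zero]) g hg
  rw [PxR_eval C X p _ (hu g hg)] at h1
  exact (mul_eq_zero.1 h1).resolve_left (pow_ne_zero _ (hu g hg).ne_zero)

end Q207.HG
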