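import Pool.Agent.Q207.HG.Stm

/-!
# Project HG: the normaliser of the algebra
-/

set_option autoImplicit false

open Matrix Finset

namespace Q207.HG

section tau

variable {I : Type} [Fintype I] [DecidableEq I]

/-- a matrix as a function on pairs -/
def un : Matrix I I ℂ ≃ₗ[ℂ] (I × I → ℂ) where
  toFun A := fun x => A x.1 x.2
  invFun f := Matrix.of fun a b => f (a, b)
  left_inv A := rfl
  right_inv f := rfl
  map_add' A B := rfl
  map_smul' c A := rfl

omit [Fintype I] [DecidableEq I] in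
lemma un_apply (A : Matrix I I ℂ) (x : I × I) : un A x = A x.1 x.2 := rfl

lemma tau_un (X A : Matrix I I ℂ) : tau X *ᵥ un A = un (X * A - A * X) := by
  funext ⟨a, b⟩
  rw [un_apply, Matrix.mulVec, dotProduct, Fintype.sum_prod_type, Matrix.sub_apply, Matrix.mul_apply, Matrix.mul_apply]
  simp only [tau, Matrix.of_apply, un_apply, sub_mul, ite_mul, zero_mul, Finset.sum_sub_distrib]
  congr 1
  · refine Finset.sum_congr rfl fun c _ => ?_
    rw [Finset.sum_ite_eq]
    simp
  · rw [Finset.sum_eq_single a]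
    · simp only [if_true]
      exact Finset.sum_congr rfl fun c _ => mul_comm _ _
    · intro c _ hc
      exact Finset.sum_eq_zero fun d _ => by rw [if_neg (Ne.symm hc)]
    · intro h
      exact absurd (Finset.mem_univ _) h

/-- a matrix is determined by the products with the matrices `un A` -/
lemma ext_un {M N : Matrix (I × I) (I × I) ℂ} (h : ∀ A : Matrix I I ℂ, M *ᵥ un A = N *ᵥ un A) : M = N := by
  refine Matrix.mulVec_injective (funext fun f => ?_)
  have := h (un.symm f)
  rwa [LinearEquiv.apply_symm_apply] at this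

lemma tau_br (X Y : Matrix I I ℂ) : tau (X * Y - Y * X) = tau X * tau Y - tau Y * tau X := by
  refine ext_un fun A => ?_
  rw [Matrix.sub_mulVec, ← Matrix.mulVec_mulVec, ← Matrix.mulVec_mulVec, tau_un, tau_un, tau_un, tau_un, tau_un, ← map_sub]
  congr 1
  noncomm_ring

/-- `tau` as a linear map -/
noncomputable def tauL : Matrix I I ℂ →ₗ[ℂ] Matrix (I × I) (I × I) ℂ where
  toFun := tau
  map_add' X Y := by
    refine ext_un fun A => ?_
    rw [Matrix.add_mulVec, tau_un, tau_un, tau_un, ← map_add]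
    congr 1
    noncomm_ring
  map_smul' c X := by
    refine ext_un fun A => ?_
    rw [RingHom.id_apply, Matrix.smul_mulVec, tau_un, tau_un, ← map_smul]
    congr 1
    rw [Matrix.smul_mul, Matrix.mul_smul, smul_sub]

lemma grd_low {lev : I → ℤ} {T : Matrix I I ℂ} (hT : Grd lev T) : Low (fun x : I × I => lev x.2 - lev x.1) (-tau T) := by
  rintro ⟨a, b⟩ ⟨c, d⟩ h
  simp only at h
  rw [Matrix.neg_apply]
  unfold tau
  rw [Matrix.of_apply]
  simp only
  by_cases hac : a = c
  · subst hac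
    by_cases hbd : b = d
    · subst hbd
      rw [if_pos rfl, if_pos rfl, if_pos rfl, hT a a le_rfl, hT b b le_rfl, if_pos rfl, if_pos rfl]
      push_cast
      ring
    · rw [if_neg hbd, if_pos rfl, if_neg (fun h => hbd (Prod.mk.inj h).2)]
      have h1 : lev b ≤ lev d := by omega
      rw [hT d b h1, if_neg (Ne.symm hbd)]
      ring
  · rw [if_neg hac, if_neg (fun h => hac (Prod.mk.inj h).1)]
    by_cases hbd : b = d
    · subst hbd
      rw [if_pos rfl]
      have h1 : lev c ≤ lev a := by omega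
      rw [hT a c h1, if_neg hac]
      ring
    · rw [if_neg hbd]
      ring

end tau

section exp

variable {I : Type} [Fintype I] [DecidableEq I]

attribute [local instance] Matrix.linftyOpNormedRing Matrix.linftyOpNormedAlgebra

lemma deriv_expI (X : Matrix I I ℂ) (t : ℂ) :
    HasDerivAt (fun t : ℂ => NormedSpace.exp (t • X)) (NormedSpace.exp (t • X) * X) t :=
  hasDerivAt_exp_smul_const (𝕂 := ℂ) X t

lemma conj_derivI (N X : Matrix I I ℂ) :
    HasDerivAt (fun t : ℂ => NormedSpace.exp (t • N) * X * NormedSpace.exp ((-t) • N)) (N * X - X * N) 0 := by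
  have h1 := (deriv_expI N 0).mul_const X
  have h2 : HasDerivAt (fun t : ℂ => NormedSpace.exp ((-t) • N)) (-N) 0 := by
    have h3 : HasDerivAt (fun t : ℂ => NormedSpace.exp (t • N)) (NormedSpace.exp ((-(0 : ℂ)) • N) * N) (-(0 : ℂ)) := deriv_expI N _
    have h4 := h3.scomp (0 : ℂ) (hasDerivAt_neg (0 : ℂ))
    simp only [neg_zero, zero_smul, NormedSpace.exp_zero, one_mul, neg_smul, one_smul] at h4
    refine h4.congr_of_eventuallyEq (Filter.Eventually.of_forall fun t => ?_)
    simp [Function.comp]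
  have h3 := h1.mul h2
  simp only [zero_smul, NormedSpace.exp_zero, one_mul, mul_one, neg_zero] at h3
  refine h3.congr_deriv ?_
  rw [mul_neg]
  abel

lemma entry_deriv {f : ℂ → Matrix I I ℂ} {f' : Matrix I I ℂ} {z : ℂ} (hf : HasDerivAt f f' z) (a b : I) :
    HasDerivAt (fun w => f w a b) (f' a b) z := by
  have hc : Continuous fun A : Matrix I I ℂ => A a b := (Matrix.entryLinearMap ℂ ℂ a b).continuous_of_finiteDimensional
  exact (LinearMap.toContinuousLinearMap (Matrix.entryLinearMap ℂ ℂ a b)).hasFDerivAt.comp_hasDerivAt z hf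

lemma exp_neg_mul (X : Matrix I I ℂ) (z : ℂ) : NormedSpace.exp (z • X) * NormedSpace.exp ((-z) • X) = 1 := by
  rw [← Matrix.exp_add_of_commute _ _ (((Commute.refl X).smul_left z).smul_right _), ← add_smul, add_neg_cancel, zero_smul,
    NormedSpace.exp_zero]

/-- the conjugates of a matrix along a one-parameter group: entries -/
lemma conj_entry (X A : Matrix I I ℂ) (a b : I) :
    HasDerivAt (fun z : ℂ => (NormedSpace.exp (z • X) * A * NormedSpace.exp ((-z) • X)) a b) ((X * A - A * X) a b) 0 :=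
  entry_deriv (conj_derivI X A) a b

end exp

/-- the derivative of a curve of functions in a subspace -/
lemma deriv_memW {κ : Type} [Finite κ] (U : Submodule ℂ (κ → ℂ)) {f : ℂ → κ → ℂ} {f' : κ → ℂ}
    (hf : ∀ p, HasDerivAt (fun z => f z p) (f' p) 0) (hU : ∀ z, f z ∈ U) : f' ∈ U := by
  have := Fintype.ofFinite κ
  have hd : HasDerivAt f f' 0 := hasDerivAt_pi.2 hf
  have hc : IsClosed (U : Set (κ → ℂ)) := U.closed_of_finiteDimensional
  have h1 := hd.tendsto_slope_zero
  refine hc.mem_of_tendsto h1 (Filter.Eventually.of_forall fun t => ?_)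
  exact U.smul_mem _ (U.sub_mem (hU _) (hU _))

section main

variable {I : Type} [Fintype I] [DecidableEq I] {lev : I → ℤ} {T : Matrix I I ℂ}

/-- **The conjugates of the algebra are normalised by the grading element.** -/
theorem stab_main (hHom : S_Hom) (hDer : S_Der) (hSpan : S_Span) (hZero : S_Zero) (hT : Grd lev T) {S L : Set (Matrix I I ℂ)}
    (hSu : ∀ g ∈ S, IsUnit g) (hSL : ∀ X ∈ L, ∀ z : ℂ, ∀ g ∈ S, NormedSpace.exp (z • X) * g ∈ S)
    (hTL : T ∈ Submodule.span ℂ {Z | ∃ X ∈ L, ∃ Y ∈ L, Z = X * Y - Y * X}) {r : ℕ} {A : Fin r → Matrix I I ℂ}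
    (hA : LinearIndependent ℂ A)
    (hlow : ∀ g ∈ S, ∀ p : Fin r → I × I, ∑ l, (lev (p l).2 - lev (p l).1) < 0 → Dt (fun s => un (g * A s * g⁻¹)) p = 0) :
    ∀ g ∈ S, ∀ s, T * (g * A s * g⁻¹) - (g * A s * g⁻¹) * T ∈ Submodule.span ℂ (Set.range fun s => g * A s * g⁻¹) := by
  set U : Submodule ℂ ((Fin r → I × I) → ℂ) := Submodule.span ℂ {u | ∃ g ∈ S, u = Dt fun s => un (g * A s * g⁻¹)} with hU
  have hUlow : ∀ u ∈ U, ∀ p : Fin r → I × I, ∑ l, ((fun x : I × I => lev x.2 - lev x.1) (p l)) < 0 → u p = 0 := by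
    intro u hu p hp
    induction hu using Submodule.span_induction with
    | mem u hu =>
      obtain ⟨g, hg, rfl⟩ := hu
      exact hlow g hg p hp
    | zero => rfl
    | add u v _ _ h1 h2 => rw [Pi.add_apply, h1, h2, add_zero]
    | smul c u _ h1 => rw [Pi.smul_apply, h1, smul_zero]
  have hstab : ∀ X ∈ L, ∀ u ∈ U, rho (r := r) (tau X) u ∈ U := by
    intro X hX u hu
    induction hu using Submodule.span_induction with
    | mem u hu =>
      obtain ⟨g, hg, rfl⟩ := hu
      set B : ℂ → Fin r → I × I → ℂ := fun z s => un (NormedSpace.exp (z • X) * (g * A s * g⁻¹) * NormedSpace.exp ((-z) • X)) with hB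
      have hB0 : B 0 = fun s => un (g * A s * g⁻¹) := by
        funext s
        rw [hB]
        simp only [neg_zero, zero_smul, NormedSpace.exp_zero, Matrix.one_mul, Matrix.mul_one]
      have h1 := hDer (I × I) r (tau X) B (fun s x => by
        have h2 := conj_entry X (g * A s * g⁻¹) x.1 x.2
        rw [hB0, tau_un]
        exact h2)
      rw [hB0] at h1
      refine deriv_memW U h1 fun z => Submodule.subset_span ⟨_, hSL X hX z g hg, ?_⟩
      congr 1
      funext s
      rw [hB]
      simp only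
      congr 1
      have h3 : (NormedSpace.exp (z • X))⁻¹ = NormedSpace.exp ((-z) • X) := Matrix.inv_eq_right_inv (exp_neg_mul X z)
      rw [Matrix.mul_inv_rev, h3]
      simp only [Matrix.mul_assoc]
    | zero => rw [map_zero]; exact U.zero_mem
    | add u v _ _ h1 h2 => rw [map_add]; exact U.add_mem h1 h2
    | smul c u _ h1 => rw [map_smul]; exact U.smul_mem c h1
  have hM : -tau T ∈ Submodule.span ℂ {Z | ∃ X ∈ tau '' L, ∃ Y ∈ tau '' L, Z = X * Y - Y * X} := by
    refine Submodule.neg_mem _ ?_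
    have h1 : tauL T ∈ (Submodule.span ℂ {Z | ∃ X ∈ L, ∃ Y ∈ L, Z = X * Y - Y * X}).map tauL := Submodule.mem_map_of_mem hTL
    rw [Submodule.map_span] at h1
    refine (Submodule.span_mono ?_) h1
    rintro _ ⟨_, ⟨X, hX, Y, hY, rfl⟩, rfl⟩
    exact ⟨_, ⟨X, hX, rfl⟩, _, ⟨Y, hY, rfl⟩, tau_br X Y⟩
  have hkill := hZero (I × I) r (fun x => lev x.2 - lev x.1) (-tau T) (grd_low hT) U hUlow (tau '' L) (by
    rintro _ ⟨X, hX, rfl⟩ u hu
    exact hstab X hX u hu) hM
  intro g hg s
  have hgu := (Matrix.isUnit_iff_isUnit_det _).1 (hSu g hg)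
  have hAg : LinearIndependent ℂ fun s => un (g * A s * g⁻¹) := by
    rw [Fintype.linearIndependent_iff]
    intro c hc i
    rw [Fintype.linearIndependent_iff] at hA
    refine hA c ?_ i
    have h1 : un (g * (∑ i, c i • A i) * g⁻¹) = 0 := by
      rw [← hc, Matrix.mul_sum, Matrix.sum_mul, map_sum]
      refine Finset.sum_congr rfl fun i _ => ?_
      rw [Matrix.mul_smul, Matrix.smul_mul, map_smul]
    have h2 : g * (∑ i, c i • A i) * g⁻¹ = 0 := (LinearEquiv.map_eq_zero_iff un).1 h1
    calc ∑ i, c i • A i = g⁻¹ * (g * (∑ i, c i • A i) * g⁻¹) * g := by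
          have e1 : g⁻¹ * g = 1 := Matrix.nonsing_inv_mul _ hgu
          calc ∑ i, c i • A i = (g⁻¹ * g) * (∑ i, c i • A i) * (g⁻¹ * g) := by rw [e1, Matrix.one_mul, Matrix.mul_one]
            _ = _ := by simp only [Matrix.mul_assoc]
      _ = 0 := by rw [h2, Matrix.mul_zero, Matrix.zero_mul]
  have h1 := hSpan (I × I) r (-tau T) _ 0 hAg (by
    rw [zero_smul]
    exact hkill _ (Submodule.subset_span ⟨g, hg, rfl⟩)) s
  rw [Matrix.neg_mulVec, tau_un, ← map_neg] at h1
  have h2 : un (T * (g * A s * g⁻¹) - (g * A s * g⁻¹) * T) ∈ Submodule.span ℂ (Set.range fun s => un (g * A s * g⁻¹)) := by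
    have := Submodule.neg_mem _ h1
    rwa [← map_neg, neg_neg] at this
  have h3 : (Set.range fun s => un (g * A s * g⁻¹)) = un.toLinearMap '' (Set.range fun s => g * A s * g⁻¹) := by
    rw [← Set.range_comp]
    rfl
  rw [h3, ← Submodule.map_span] at h2
  obtain ⟨Y, hY, hYe⟩ := h2
  have h4 : Y = T * (g * A s * g⁻¹) - (g * A s * g⁻¹) * T := un.injective hYe
  rw [← h4]
  exact hY

/-- **The grading element.** -/
theorem grad_mem (hPart : S_Part) (hT : Grd lev T) {Φ : Matrix I I ℂ} (hΦ : Grd lev Φ) {M : Submodule ℂ (Matrix I I ℂ)}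
    (hM : ∀ A ∈ M, T * A - A * T ∈ M) (hΦM : Φ ∈ M) : T ∈ M := by
  have h1 := hPart (I × I) (fun x => lev x.2 - lev x.1) (-tau T) (grd_low hT) (M.map un.toLinearMap) (by
    rintro _ ⟨A, hA, rfl⟩
    refine ⟨-(T * A - A * T), M.neg_mem (hM A hA), ?_⟩
    show un (-(T * A - A * T)) = (-tau T) *ᵥ un A
    rw [Matrix.neg_mulVec, tau_un, ← map_neg]) (un T) (un (Φ - T)) (by
    rw [Matrix.neg_mulVec, tau_un, sub_self, map_zero, neg_zero]) (by
    rintro ⟨a, b⟩ hx
    simp only at hx
    have h2 : lev b ≤ lev a := by omega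
    rw [un_apply, Matrix.sub_apply]
    simp only
    rw [hT a b h2, hΦ a b h2, sub_self]) ⟨Φ, hΦM, by
    show un Φ = _
    rw [← map_add]
    congr 1
    abel⟩
  obtain ⟨Y, hY, hYe⟩ := h1
  have h3 : Y = T := un.injective hYe
  rw [← h3]
  exact hY

/-- **The minors at the Hodge structure.** -/
theorem low_hodge (hTr : S_Tr) (hLow : S_Low) (hT : Grd lev T) {r : ℕ} {A : Fin r → Matrix I I ℂ} {c : Matrix (Fin r) (Fin r) ℂ}
    (hc : ∀ s, A s * T - T * A s = ∑ t, c s t • A t) (hc0 : c.trace = 0) (p : Fin r → I × I)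
    (hp : ∑ l, (lev (p l).2 - lev (p l).1) < 0) : Dt (fun s => un (A s)) p = 0 := by
  refine hLow (I × I) r (fun x => lev x.2 - lev x.1) (-tau T) (grd_low hT) _ ?_ p hp
  rw [hTr (I × I) r (-tau T) (fun s => un (A s)) c, hc0, zero_smul]
  intro s
  rw [Matrix.neg_mulVec, tau_un, ← map_neg, neg_sub, hc, map_sum]
  refine Finset.sum_congr rfl fun t _ => ?_
  rw [map_smul]

end main

end Q207.HG
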