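import Pool.Agent.Q207.HG.Psi
import Pool.Agent.Q198.HG.Trc

/-!
# Project HG: the algebra at a tuple of fibres
-/

set_option autoImplicit false

open Matrix Finset

namespace Q207.HG

open Q207.HM (lk Yx QA cls Lin Bil TP QuadT tpos QG_QA det_Yt cls_size cls_neg pkg3)
open Pool.Agent.Y123.GN (Clf)

section gen

variable {I : Type} [Fintype I] [DecidableEq I]

/-- a rational matrix as a complex matrix -/
noncomputable abbrev cmx (X : Matrix I I ℚ) : Matrix I I ℂ := X.map (algebraMap ℚ ℂ)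

omit [Fintype I] [DecidableEq I] in
lemma cmx_apply (X : Matrix I I ℚ) (a b : I) : cmx X a b = (algebraMap ℚ ℂ) (X a b) := rfl

omit [DecidableEq I] in
lemma span_conj (g g' : Matrix I I ℂ) {s : ℕ} (A : Fin s → Matrix I I ℂ) {Z : Matrix I I ℂ}
    (hZ : Z ∈ Submodule.span ℂ (Set.range A)) : g * Z * g' ∈ Submodule.span ℂ (Set.range fun u => g * A u * g') := by
  induction hZ using Submodule.span_induction with
  | mem Z hZ =>
    obtain ⟨u, rfl⟩ := hZ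
    exact Submodule.subset_span ⟨u, rfl⟩
  | zero => rw [Matrix.mul_zero, Matrix.zero_mul]; exact Submodule.zero_mem _
  | add X Y _ _ h1 h2 => rw [Matrix.mul_add, Matrix.add_mul]; exact Submodule.add_mem _ h1 h2
  | smul c X _ h1 => rw [Matrix.mul_smul, Matrix.smul_mul]; exact Submodule.smul_mem _ _ h1

omit [Fintype I] [DecidableEq I] in
lemma cmx_add (X Y : Matrix I I ℚ) : cmx (X + Y) = cmx X + cmx Y := Matrix.map_add _ (map_add _) _ _

omit [Fintype I] [DecidableEq I] in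
lemma cmx_smul (c : ℚ) (X : Matrix I I ℚ) : cmx (c • X) = (c : ℂ) • cmx X := by
  ext a b
  rw [cmx_apply, Matrix.smul_apply, Matrix.smul_apply, cmx_apply, smul_eq_mul, smul_eq_mul, map_mul]
  rfl

omit [Fintype I] [DecidableEq I] in
lemma cmx_zero : cmx (0 : Matrix I I ℚ) = 0 := Matrix.map_zero _ (map_zero _)

omit [DecidableEq I] in
lemma cmx_br (X Y : Matrix I I ℚ) : cmx (X * Y - Y * X) = cmx X * cmx Y - cmx Y * cmx X := by
  rw [← Matrix.map_mul, ← Matrix.map_mul]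
  exact Matrix.map_sub _ (map_sub _) _ _

/-- the complex span of a rational space in a basis -/
lemma span_basis {𝔪 : Submodule ℚ (Matrix I I ℚ)} {s : ℕ} (b : Module.Basis (Fin s) ℚ 𝔪) :
    Submodule.span ℂ (cmx '' (𝔪 : Set (Matrix I I ℚ))) = Submodule.span ℂ (Set.range fun u => cmx (b u : Matrix I I ℚ)) := by
  refine le_antisymm ?_ ?_
  · refine Submodule.span_le.2 ?_
    rintro _ ⟨X, hX, rfl⟩
    have h1 : X = ((⟨X, hX⟩ : 𝔪) : Matrix I I ℚ) := rfl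
    have h2 := b.sum_repr ⟨X, hX⟩
    have h3 : X = ∑ u, (b.repr ⟨X, hX⟩) u • (b u : Matrix I I ℚ) := by
      conv_lhs => rw [h1, ← h2]
      rw [Submodule.coe_sum]
      rfl
    show cmx X ∈ Submodule.span ℂ (Set.range fun u => cmx (b u : Matrix I I ℚ))
    have h4 : cmx X = ∑ u, (((b.repr ⟨X, hX⟩) u : ℚ) : ℂ) • cmx (b u : Matrix I I ℚ) := by
      conv_lhs => rw [h3]
      have h5 : ∀ f : Fin s → Matrix I I ℚ, cmx (∑ u, f u) = ∑ u, cmx (f u) := by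
        intro f
        ext a c
        rw [cmx_apply, Matrix.sum_apply, Matrix.sum_apply, map_sum]
        rfl
      rw [h5]
      exact Finset.sum_congr rfl fun u _ => cmx_smul _ _
    rw [h4]
    exact Submodule.sum_mem _ fun u _ => Submodule.smul_mem _ _ (Submodule.subset_span ⟨u, rfl⟩)
  · refine Submodule.span_mono ?_
    rintro _ ⟨u, rfl⟩
    exact ⟨_, (b u).2, rfl⟩

/-- brackets -/
lemma span_br {𝔪 : Submodule ℚ (Matrix I I ℚ)} (hbr : ∀ X ∈ 𝔪, ∀ Y ∈ 𝔪, X * Y - Y * X ∈ 𝔪) {X : Matrix I I ℚ} (hX : X ∈ 𝔪)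
    {Φ : Matrix I I ℂ} (hΦ : Φ ∈ Submodule.span ℂ (cmx '' (𝔪 : Set (Matrix I I ℚ)))) :
    cmx X * Φ - Φ * cmx X ∈ Submodule.span ℂ (cmx '' (𝔪 : Set (Matrix I I ℚ))) := by
  induction hΦ using Submodule.span_induction with
  | mem Z hZ =>
    obtain ⟨Y, hY, rfl⟩ := hZ
    rw [← cmx_br]
    exact Submodule.subset_span ⟨_, hbr X hX Y hY, rfl⟩
  | zero => rw [Matrix.mul_zero, Matrix.zero_mul, sub_zero]; exact Submodule.zero_mem _
  | add Y Z _ _ h1 h2 =>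
    have : cmx X * (Y + Z) - (Y + Z) * cmx X = (cmx X * Y - Y * cmx X) + (cmx X * Z - Z * cmx X) := by noncomm_ring
    rw [this]
    exact Submodule.add_mem _ h1 h2
  | smul c Y _ h1 =>
    have : cmx X * (c • Y) - (c • Y) * cmx X = c • (cmx X * Y - Y * cmx X) := by
      rw [Matrix.mul_smul, Matrix.smul_mul, smul_sub]
    rw [this]
    exact Submodule.smul_mem _ _ h1

end gen

variable {k : ℕ} {r : Fin k → ℕ} {n : ∀ i, Fin (r i) → ℕ} {α : ∀ i j, Fin (n i j) → ℚ}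

/-- the levels -/
def lvx (n : ∀ i, Fin (r i) → ℕ) (x : Ix n) : ℤ := lv (n x.1.1 x.1.2) x.2

/-- the values at real points -/
noncomputable abbrev Yz (α : ∀ i j, Fin (n i j) → ℚ) (z : Fin k → ℝ) : ∀ i j, Matrix (Fin (n i j)) (Fin (n i j)) ℂ :=
  fun i j => Yx (n i j) (QA (α i j)) (z i)

/-- the values -/
noncomputable abbrev Yv (α : ∀ i j, Fin (n i j) → ℚ) (t : Fin k → ℕ) : ∀ i j, Matrix (Fin (n i j)) (Fin (n i j)) ℂ :=
  fun i j => Yx (n i j) (QA (α i j)) (1 / (t i : ℝ))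

lemma tot_inv {X : ∀ i j, Matrix (Fin (n i j)) (Fin (n i j)) ℂ} (h : ∀ i j, IsUnit (X i j).det) :
    (tot X)⁻¹ = tot fun i j => (X i j)⁻¹ := by
  refine Matrix.inv_eq_right_inv ?_
  rw [tot_mul, ← tot_one]
  exact tot_congr fun i j => Matrix.mul_nonsing_inv _ (h i j)

lemma tot_unit {X : ∀ i j, Matrix (Fin (n i j)) (Fin (n i j)) ℂ} (h : ∀ i j, IsUnit (X i j).det) : IsUnit (tot X).det := by
  refine Matrix.isUnit_det_of_right_inverse (B := tot fun i j => (X i j)⁻¹) ?_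
  rw [tot_mul, ← tot_one]
  exact tot_congr fun i j => Matrix.mul_nonsing_inv _ (h i j)

lemma grd_tot {T : ∀ i j, Matrix (Fin (n i j)) (Fin (n i j)) ℂ} (h : ∀ i j, Grd (lv (n i j)) (T i j)) : Grd (lvx n) (tot T) := by
  rintro ⟨x, a⟩ ⟨y, b⟩ hab
  by_cases hxy : x = y
  · subst hxy
    unfold tot
    rw [blockDiagonal'_apply_eq, h x.1 x.2 a b hab]
    by_cases hab' : a = b
    · subst hab'
      rw [if_pos rfl, if_pos rfl]
      rfl
    · rw [if_neg hab', if_neg]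
      intro h0
      exact hab' (eq_of_heq (Sigma.mk.inj h0).2)
  · unfold tot
    rw [blockDiagonal'_apply_ne _ _ _ hxy, if_neg]
    intro h0
    exact hxy (Sigma.mk.inj h0).1

lemma Yz_unit (h01 : ∀ i j l, 0 < α i j l ∧ α i j l < 1) (hn : ∀ i j, 2 ≤ n i j) {z : Fin k → ℝ} (hz : ∀ i, 0 < z i ∧ z i < 1)
    (i : Fin k) (j : Fin (r i)) : IsUnit (Yz α z i j).det :=
  (Matrix.isUnit_iff_isUnit_det _).1 (Yx_unit (hn i j) (h01 i j) (hz i).1 (hz i).2)

lemma Yv_unit (h01 : ∀ i j l, 0 < α i j l ∧ α i j l < 1) (hn : ∀ i j, 2 ≤ n i j) {t : Fin k → ℕ} (ht : ∀ i, 2 ≤ t i) (i : Fin k)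
    (j : Fin (r i)) : IsUnit (Yv α t i j).det :=
  (Matrix.isUnit_iff_isUnit_det _).1 (Yx_unit (hn i j) (h01 i j) (tpos (ht i)).1 (tpos (ht i)).2)

/-- the grading element -/
theorem T_existsX (hDer : S_Der) (hTr : S_Tr) (hConc : S_Conc) (hForm : S_Form) (D : ∀ i, Pk (α i))
    (h01 : ∀ i j l, 0 < α i j l ∧ α i j l < 1) (hn : ∀ i j, 2 ≤ n i j) {z : Fin k → ℝ} (hz : ∀ i, 0 < z i ∧ z i < 1) :
    ∃ y : Tu (mu D), (∀ a, y a ∈ hB (BBx D a)) ∧
      (∀ a, (y a).charpoly = ∏ b : Fin (mu D a), (Polynomial.X - Polynomial.C (((mu D a : ℂ) - 1) - 2 * ((b : ℕ) : ℂ)))) ∧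
      Grd (lvx n) (tot (Yz α z) * Psi D y * (tot (Yz α z))⁻¹) := by
  have h1 := fun i => yex hDer hTr hConc hForm (h01 i) (hn i) (D i).hq (D i).hsy (D i).hns (D i).hqq (D i).hcl (D i).h1 (D i).h2
    (hz i).1 (hz i).2 fun κ hκ => (D i).hX κ hκ (z i) (hz i).1 (hz i).2
  choose y hy1 hy2 hy3 using h1
  refine ⟨fun a => y a.1 a.2, fun a => hy1 a.1 a.2, fun a => hy2 a.1 a.2, ?_⟩
  rw [tot_inv fun i j => Yz_unit h01 hn hz i j, Psi_apply, tot_mul, tot_mul]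
  exact grd_tot fun i j => hy3 i j

/-- the grading element -/
theorem T_exists (hDer : S_Der) (hTr : S_Tr) (hConc : S_Conc) (hForm : S_Form) (D : ∀ i, Pk (α i))
    (h01 : ∀ i j l, 0 < α i j l ∧ α i j l < 1) (hn : ∀ i j, 2 ≤ n i j) {t : Fin k → ℕ} (ht : ∀ i, 2 ≤ t i) :
    ∃ y : Tu (mu D), (∀ a, y a ∈ hB (BBx D a)) ∧
      (∀ a, (y a).charpoly = ∏ b : Fin (mu D a), (Polynomial.X - Polynomial.C (((mu D a : ℂ) - 1) - 2 * ((b : ℕ) : ℂ)))) ∧
      Grd (lvx n) (tot (Yv α t) * Psi D y * (tot (Yv α t))⁻¹) :=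
  T_existsX hDer hTr hConc hForm D h01 hn (z := fun i => 1 / (t i : ℝ)) fun i => tpos (ht i)

/-- tuples are sums of brackets -/
lemma perf_tuple {A : Type} [Fintype A] [DecidableEq A] {μ : A → ℕ} {B : ∀ a, Matrix (Fin (μ a)) (Fin (μ a)) ℂ}
    (hp : ∀ a, hB (B a) ≤ Submodule.span ℂ {Z | ∃ X ∈ hB (B a), ∃ Y ∈ hB (B a), Z = X * Y - Y * X}) :
    hBB B ≤ Submodule.span ℂ {Z | ∃ X ∈ hBB B, ∃ Y ∈ hBB B, Z = X * Y - Y * X} := by
  intro y hy
  rw [mem_hBB] at hy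
  have h3 : y = ∑ a, Pi.single a (y a) := by
    funext b
    rw [Finset.sum_apply, Finset.sum_eq_single b]
    · rw [Pi.single_eq_same]
    · intro a _ hab
      rw [Pi.single_eq_of_ne (Ne.symm hab)]
    · intro h
      exact absurd (Finset.mem_univ _) h
  rw [h3]
  refine Submodule.sum_mem _ fun a _ => ?_
  have h4 := hp a (hy a)
  have h5 : (Pi.single a (y a) : Tu μ) = LinearMap.single ℂ (fun a => Matrix (Fin (μ a)) (Fin (μ a)) ℂ) a (y a) := rfl
  rw [h5]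
  have h6 := Submodule.mem_map_of_mem (f := LinearMap.single ℂ (fun a => Matrix (Fin (μ a)) (Fin (μ a)) ℂ) a) h4
  rw [Submodule.map_span] at h6
  refine Submodule.span_mono ?_ h6
  rintro _ ⟨_, ⟨X, hX, Y, hY, rfl⟩, rfl⟩
  refine ⟨Pi.single a X, single_hBB hX, Pi.single a Y, single_hBB hY, ?_⟩
  rw [LinearMap.single_apply, single_br, Pi.single_eq_same]

lemma PsG_unit (D : ∀ i, Pk (α i)) {κ : Tu (mu D)} (hκ : ∀ a, κ a ∈ GBs (BBx D a)) : IsUnit (PsG D κ) := by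
  have h1 : PsG D κ * PsG D (fun a => (κ a)⁻¹) = 1 := by
    rw [← PsG_mul, ← PsG_one D]
    congr 1
    funext a
    exact Matrix.mul_nonsing_inv _ (by rw [(hκ a).1]; exact isUnit_one)
  exact (Matrix.isUnit_iff_isUnit_det _).2 (Matrix.isUnit_det_of_right_inverse h1)

end Q207.HG
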