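import Pool.Agent.Q207.HG.Mai

/-!
# Project HG: the Lie algebra of the relations, and the number of exceptional tuples
-/

set_option autoImplicit false

open Matrix Finset

namespace Q207.HG

open Q207.HM (lk Yx QA cls Lin Bil TP QuadT tpos QG_QA det_Yt cls_size cls_neg pkg3 valQ Vb pb tuplesQ)
open Pool.Agent.Y123.GN (Clf)
open Pool.Agent.Y119.HZ (Yt)

section mon

variable {r : ℕ} {n : Fin r → ℕ}

/-- the Lie algebra of the relations of degree at most two -/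
def MonA (α : ∀ j, Fin (n j) → ℚ) : Set (∀ j, Matrix (Fin (n j)) (Fin (n j)) ℂ) :=
  {A | (∀ j, (A j).trace = 0) ∧ ∀ R : MvPolynomial (Σ j : Fin r, Fin (n j) × Fin (n j)) (Polynomial ℚ), R.totalDegree ≤ 2 →
    (∀ x : ℝ, 0 < x → x < 1 → valQ R (x : ℂ) (fun j => Yx (n j) (QA (α j)) x) = 0) →
    ∀ s : ℂ, ∀ x : ℝ, 0 < x → x < 1 → valQ R (x : ℂ) (fun j => Yx (n j) (QA (α j)) x * NormedSpace.exp (s • A j)) = 0}

lemma lk_inj {m n : ℕ} {d : Bool} {P : Matrix (Fin n) (Fin m) ℂ} {P' : Matrix (Fin m) (Fin n) ℂ} (h2 : P' * P = 1)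
    {κ κ' : Matrix (Fin m) (Fin m) ℂ} (hκ : IsUnit κ.det) (hκ' : IsUnit κ'.det) (h : lk d P P' κ = lk d P P' κ') : κ = κ' := by
  have key : ∀ A B : Matrix (Fin m) (Fin m) ℂ, P * A * P' = P * B * P' → A = B := by
    intro A B hAB
    have h3 : P' * (P * A * P') * P = P' * (P * B * P') * P := by rw [hAB]
    have h4 : ∀ A : Matrix (Fin m) (Fin m) ℂ, P' * (P * A * P') * P = A := by
      intro A
      calc P' * (P * A * P') * P = (P' * P) * A * (P' * P) := by simp only [Matrix.mul_assoc]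
        _ = A := by rw [h2, Matrix.one_mul, Matrix.mul_one]
    rwa [h4, h4] at h3
  unfold lk at h
  have h3 := key _ _ h
  cases d
  · simp only [Bool.false_eq_true, if_false] at h3
    exact h3
  · simp only [if_true] at h3
    have h4 : κ⁻¹ = κ'⁻¹ := Matrix.transpose_injective h3
    calc κ = (κ⁻¹)⁻¹ := (Matrix.nonsing_inv_nonsing_inv _ hκ).symm
      _ = (κ'⁻¹)⁻¹ := by rw [h4]
      _ = κ' := Matrix.nonsing_inv_nonsing_inv _ hκ'

lemma exp_inj {I : Type} [Fintype I] [DecidableEq I] {A B : Matrix I I ℂ}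
    (h : ∀ s : ℂ, NormedSpace.exp (s • A) = NormedSpace.exp (s • B)) : A = B := by
  have h4 := two_deriv (N := A) (X := 1) (N' := -B) fun z => by
    rw [h z, Matrix.mul_one, smul_neg, ← neg_smul]
    exact exp_neg_mul _ _
  rw [Matrix.mul_one, Matrix.one_mul] at h4
  exact eq_of_sub_eq_zero (by rw [sub_eq_add_neg]; exact h4)

lemma exp_det_unit {I : Type} [Fintype I] [DecidableEq I] (A : Matrix I I ℂ) (s : ℂ) : IsUnit (NormedSpace.exp (s • A)).det :=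
  Matrix.isUnit_det_of_right_inverse (exp_neg_mul A s)

lemma mon_aux {r' : ℕ} {m : Fin r' → ℕ} {a b : Fin r'} (e : b = a) {n : ℕ} {d : Bool} {R : Matrix (Fin n) (Fin (m b)) ℂ}
    {R' : Matrix (Fin (m b)) (Fin n) ℂ} (h1 : R * R' = 1) (h2 : R' * R = 1) {κ : ℂ → ∀ a, Matrix (Fin (m a)) (Fin (m a)) ℂ}
    {X : Matrix (Fin (m a)) (Fin (m a)) ℂ} {A : Matrix (Fin n) (Fin n) ℂ} (hκ : ∀ s, κ s a = NormedSpace.exp (s • X))
    (hlk : ∀ s, NormedSpace.exp (s • A) = lk d R R' (κ s b)) : lkL d R R' (e ▸ X) = A := by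
  subst e
  refine exp_inj fun s => ?_
  rw [hlk, hκ, lk_exp h1 h2]

/-- **The Lie algebra of the relations comes from the classical algebras.** -/
theorem mon_mem (hDer : S_Der) (hTr : S_Tr) {α : ∀ j, Fin (n j) → ℚ} (D : Pk α) (h01 : ∀ j i, 0 < α j i ∧ α j i < 1)
    (hn : ∀ j, 2 ≤ n j) {A : ∀ j, Matrix (Fin (n j)) (Fin (n j)) ℂ} (hA : A ∈ MonA α) :
    ∃ X : ∀ a, Matrix (Fin (D.m a)) (Fin (D.m a)) ℂ, (∀ a, X a ∈ hB (D.B a)) ∧ ∀ j, lkL (D.d j) (D.P j) (D.P' j) (X (D.q j)) = A j := by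
  classical
  obtain ⟨hA1, hA2⟩ := hA
  have hYu : ∀ j, IsUnit (Yx (n j) (QA (α j)) (1 / ((2 : ℕ) : ℝ))).det := fun j =>
    (Matrix.isUnit_iff_isUnit_det _).1 (Yx_unit (hn j) (h01 j) (tpos (t := 2) le_rfl).1 (tpos (t := 2) le_rfl).2)
  have hTP : ∀ s : ℂ, (fun j => Yx (n j) (QA (α j)) (1 / ((2 : ℕ) : ℝ)) * NormedSpace.exp (s • A j)) ∈ TP α 2 := by
    intro s
    refine ⟨fun R hR hR0 => ?_, fun j => ?_⟩
    · obtain ⟨h1, h2⟩ := tpos (t := 2) le_rfl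
      exact hA2 R hR hR0 s _ h1 h2
    · rw [Matrix.det_mul, det_exp0 hDer hTr (hA1 j), mul_one, det_Yt (QG_QA (hn j) fun l a h0 => ni_of (h01 j) l a h0.symm) le_rfl,
        Q207.HM.QA_coeff (by have := hn j; omega) (α j)]
  choose κ hκ1 hκ2 using fun s => D.hS 2 le_rfl _ (hTP s)
  have hlk : ∀ s j, NormedSpace.exp (s • A j) = lk (D.d j) (D.P j) (D.P' j) (κ s (D.q j)) := by
    intro s j
    have h1 := hκ2 s j
    calc NormedSpace.exp (s • A j) = (Yx (n j) (QA (α j)) (1 / ((2 : ℕ) : ℝ)))⁻¹ *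
          (Yx (n j) (QA (α j)) (1 / ((2 : ℕ) : ℝ)) * NormedSpace.exp (s • A j)) := by
          rw [← Matrix.mul_assoc, Matrix.nonsing_inv_mul _ (hYu j), Matrix.one_mul]
      _ = _ := by
          rw [h1, ← Matrix.mul_assoc, Matrix.nonsing_inv_mul _ (hYu j), Matrix.one_mul]
  suffices hs : ∀ a, ∃ X ∈ hB (D.B a), ∀ j, ∀ e : D.q j = a, lkL (D.d j) (D.P j) (D.P' j) (e ▸ X) = A j by
    choose X hX1 hX2 using hs
    exact ⟨X, hX1, fun j => hX2 (D.q j) j rfl⟩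
  intro a
  obtain ⟨j₀, rfl⟩ := D.hq a
  set X := bk (D.d j₀) (D.P j₀) (D.P' j₀) (A j₀) with hX
  have hκX : ∀ s, κ s (D.q j₀) = NormedSpace.exp (s • X) := by
    intro s
    refine lk_inj (D.h2 j₀) (by rw [(hκ1 s _).1]; exact isUnit_one) (exp_det_unit _ _) ?_ (d := D.d j₀) (P := D.P j₀)
    rw [← hlk, lk_exp (D.h1 j₀) (D.h2 j₀), hX, lkL_bk (D.h1 j₀)]
  refine ⟨X, ⟨bk_trace (D.h1 j₀) _ (hA1 j₀), ?_⟩, fun j e => ?_⟩
  · refine two_deriv fun s => ?_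
    have h1 := (hκ1 s (D.q j₀)).2
    rw [hκX, ← Matrix.exp_transpose, Matrix.transpose_smul] at h1
    exact h1
  · exact mon_aux e (D.h1 j) (D.h2 j) hκX fun s => hlk s j

end mon

variable {k : ℕ} {r : Fin k → ℕ} {n : ∀ i, Fin (r i) → ℕ} {α : ∀ i j, Fin (n i j) → ℚ}

theorem Yt_eq' (n : ℕ) (Q : Polynomial ℚ) (t : ℕ) : Yt n Q t = Yx n Q (1 / (t : ℝ)) := by
  have h1 : Complex.log (((1 / (t : ℝ) : ℝ)) : ℂ) = -((Real.log t : ℝ) : ℂ) := by
    rw [← Complex.ofReal_log (by positivity), one_div, Real.log_inv]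
    push_cast
    rfl
  unfold Yt Yx Pool.Agent.Y119.HY.Yf
  rw [h1]

/-- **The number of the exceptional tuples.** -/
theorem count (h01 : ∀ i j l, 0 < α i j l ∧ α i j l < 1) (hn : ∀ i j, 2 ≤ n i j)
    (had : ∀ i j, (cls (α i j) = cls fun l => -α i j l) ∨ ∀ a : ℤ, 2 * ∑ l, α i j l ≠ a) :
    ∃ c C : ℝ, 0 < c ∧ 0 ≤ C ∧ ∀ F : Matrix (Ix n) (Ix n) ℂ, ∀ (x : Fin k → ℕ) (N : ℕ), (∀ i, 1 ≤ x i) → 1 ≤ N →
      ∀ S : Finset (Fin k → ℕ), (∀ t ∈ S, (∀ i, x i < t i ∧ t i ≤ x i + N) ∧ ¬ GoodP (dl n) (Vs F) α t) →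
      (S.card : ℝ) ≤ C * (N : ℝ) ^ (k - 1) * ∑ i, (1 + N / ((x i : ℝ) + N) ^ c) := by
  obtain ⟨c, C, hc, hC, hmain⟩ := tuplesQ k (dl n) ((2 * Fintype.card (Ix n) ^ 2 + 1) ^ (2 * Fintype.card (Ix n) ^ 2)) r n α
    (fun i j => ni_of (h01 i j)) hn had
  refine ⟨c, C, hc, hC, fun F x N hx hN S hS => ?_⟩
  have hfin : Module.Finite ℚ ↥(Vs F) := (W1_pow_fin F _).1
  refine hmain (Vs F) (W1_pow_fin F _).2 (fun i j => 1) x N hx hN S fun t ht => ?_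
  obtain ⟨hbox, hbad⟩ := hS t ht
  refine ⟨hbox, ?_⟩
  unfold GoodP at hbad
  push Not at hbad
  obtain ⟨P, hP, hP0, g, hg, hPg⟩ := hbad
  have ht2 : ∀ i, 2 ≤ t i := fun i => by
    have h1 := hx i
    have h2 := (hbox i).1
    omega
  refine ⟨P, hP.1, hP.2, ?_, fun i => ((Real.log (t i) : ℝ) : ℂ), fun i => Complex.log (1 - 1 / (t i : ℂ)), g, fun i => ?_,
    fun i j => (hg i).2 j, fun i => (hg i).1, ?_⟩
  · have h1 : (fun i j => Yt (n i j) (QA (α i j)) (t i) * (1 : Matrix (Fin (n i j)) (Fin (n i j)) ℂ)) =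
        fun i j => Yx (n i j) (QA (α i j)) (1 / (t i : ℝ)) := by
      funext i j
      rw [Matrix.mul_one, Yt_eq']
    rw [h1]
    exact hP0
  · refine Complex.exp_log ?_
    obtain ⟨h1, h2⟩ := tpos (ht2 i)
    have e4 : (1 - 1 / (t i : ℂ)) = (((1 - 1 / (t i : ℝ) : ℝ)) : ℂ) := by push_cast; rfl
    rw [e4, Ne, Complex.ofReal_eq_zero]
    linarith
  · have h1 : (fun i j => g i j * (1 : Matrix (Fin (n i j)) (Fin (n i j)) ℂ)) = g := by
      funext i j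
      rw [Matrix.mul_one]
    rw [h1]
    exact hPg

end Q207.HG
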