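import Pool.Agent.Q207.HG.Mxp
import Pool.Agent.Q198.HG.Rho
import Pool.Agent.Q198.HG.Spn
import Pool.Agent.Q198.HG.Lw
import Pool.Agent.Q195.HG.Good
import Pool.Agent.Q195.HG.Form
import Pool.Agent.Q195.HG.Conc
import Pool.Agent.Q249.HG.Grd

/-!
# Project HG: Hodge structures and their operators, the relative theorem with a Hodge structure
-/

set_option autoImplicit false
set_option linter.all false

open Matrix Finset

namespace Q207.HG

open Q207.HM (lk Yx QA cls Lin Bil TP QuadT tpos QG_QA det_Yt cls_size cls_neg cls_perm pkg3 valQ Vb pb tuplesQ)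
open Pool.Agent.Y123.GN (Clf)

/-- a basis adapted to a Hodge structure -/
theorem adapted {w : ℕ} {H : ℤ → Submodule ℂ (Fin w → ℂ)} (hH : DirectSum.IsInternal H)
    (hconj : ∀ p, ∀ v ∈ H p, (fun a => (starRingEnd ℂ) (v a)) ∈ H (-p)) :
    ∃ (CW ΦW : Matrix (Fin w) (Fin w) ℂ) (lev : Fin w → ℤ), IsUnit CW.det ∧
      CW * ΦW = Matrix.diagonal (fun a => (lev a : ℂ)) * CW ∧ ΦW.map (starRingEnd ℂ) = -ΦW ∧ (∀ a, CW a ∈ H (lev a)) ∧
      ∀ p, ∀ v ∈ H p, v ᵥ* ΦW = (p : ℂ) • v := by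
  classical
  set b := hH.collectedBasis fun p => Module.finBasis ℂ (H p) with hb
  set b₀ := Pi.basisFun ℂ (Fin w) with hb₀
  set e := b.indexEquiv b₀ with he
  set b' := b.reindex e with hb'
  set CW : Matrix (Fin w) (Fin w) ℂ := Matrix.of fun a => b' a with hCW
  set lev : Fin w → ℤ := fun a => (e.symm a).1 with hlev
  have hmem : ∀ a, CW a ∈ H (lev a) := by
    intro a
    have h1 : CW a = b (e.symm a) := Module.Basis.reindex_apply b e a
    rw [h1]
    exact DirectSum.IsInternal.collectedBasis_mem hH _ _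
  have hCWu : IsUnit CW.det := by
    rw [← Matrix.isUnit_iff_isUnit_det, ← Matrix.linearIndependent_rows_iff_isUnit]
    exact b'.linearIndependent
  set ΦW : Matrix (Fin w) (Fin w) ℂ := CW⁻¹ * Matrix.diagonal (fun a => (lev a : ℂ)) * CW with hΦW
  have hC1 : CW * ΦW = Matrix.diagonal (fun a => (lev a : ℂ)) * CW := by
    rw [hΦW, ← Matrix.mul_assoc, ← Matrix.mul_assoc, Matrix.mul_nonsing_inv _ hCWu, Matrix.one_mul]
  have hrow : ∀ a, CW a ᵥ* ΦW = (lev a : ℂ) • CW a := by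
    intro a
    have h1 := congrFun hC1 a
    have h2 : (CW * ΦW) a = CW a ᵥ* ΦW := rfl
    rw [← h2, h1]
    funext b
    rw [Matrix.diagonal_mul]
    rfl
  have hind : iSupIndep H := hH.submodule_iSupIndep
  have hop : ∀ p, ∀ v ∈ H p, v ᵥ* ΦW = (p : ℂ) • v := by
    intro p v hv
    -- expansion of v in the basis
    have h1 : v = ∑ a, (v ᵥ* CW⁻¹) a • CW a := by
      have h2 : v = (v ᵥ* CW⁻¹) ᵥ* CW := by
        rw [Matrix.vecMul_vecMul, Matrix.nonsing_inv_mul _ hCWu, Matrix.vecMul_one]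
      conv_lhs => rw [h2]
      funext b
      rw [Finset.sum_apply]
      rfl
    have hzero : ∀ a, lev a ≠ p → (v ᵥ* CW⁻¹) a = 0 := by
      have h3 : ∀ a, b'.repr v a = (v ᵥ* CW⁻¹) a := by
        intro a
        conv_lhs => rw [h1]
        have h4 : (∑ a, (v ᵥ* CW⁻¹) a • CW a) = ∑ a, (v ᵥ* CW⁻¹) a • b' a := rfl
        rw [h4, Module.Basis.repr_sum_self]
      intro a ha
      rw [← h3, hb', Module.Basis.repr_reindex_apply]
      exact DirectSum.IsInternal.collectedBasis_repr_of_mem_ne hH _ (fun h => ha h.symm) hv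
    rw [h1, Matrix.sum_vecMul, Finset.smul_sum]
    refine Finset.sum_congr rfl fun a _ => ?_
    rw [Matrix.smul_vecMul, hrow]
    by_cases ha : lev a = p
    · rw [ha, smul_comm]
    · rw [hzero a ha, zero_smul, zero_smul, smul_zero]
  refine ⟨CW, ΦW, lev, hCWu, hC1, ?_, hmem, hop⟩
  -- reality
  have h2 : ∀ a, CW a ᵥ* ΦW.map (starRingEnd ℂ) = CW a ᵥ* (-ΦW) := by
    intro a
    have h3 := hop _ _ (hconj _ _ (hmem a))
    rw [Matrix.vecMul_neg, hrow]
    funext b
    have h4 := congrArg (starRingEnd ℂ) (congrFun h3 b)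
    have h5 : (starRingEnd ℂ) (((fun c => (starRingEnd ℂ) (CW a c)) ᵥ* ΦW) b) = (CW a ᵥ* ΦW.map (starRingEnd ℂ)) b := by
      simp only [Matrix.vecMul, dotProduct, map_sum, map_mul, Matrix.map_apply, Complex.conj_conj]
    rw [h5] at h4
    rw [h4, Pi.smul_apply, smul_eq_mul, map_mul, Complex.conj_conj, map_intCast, Pi.neg_apply, Pi.smul_apply, smul_eq_mul]
    push_cast
    ring
  have h3 : CW * ΦW.map (starRingEnd ℂ) = CW * (-ΦW) := funext fun a => h2 a
  calc ΦW.map (starRingEnd ℂ) = CW⁻¹ * (CW * ΦW.map (starRingEnd ℂ)) := by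
        rw [← Matrix.mul_assoc, Matrix.nonsing_inv_mul _ hCWu, Matrix.one_mul]
    _ = -ΦW := by rw [h3, ← Matrix.mul_assoc, Matrix.nonsing_inv_mul _ hCWu, Matrix.one_mul]

end Q207.HG
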