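import Pool.Agent.Q207.HG.Alg

/-!
# Project HG: the ideal generated by the grading element
-/

set_option autoImplicit false

open Matrix Finset

namespace Q207.HG

section one

variable {n : ℕ} {B : Matrix (Fin n) (Fin n) ℂ}

lemma hB_br {X Y : Matrix (Fin n) (Fin n) ℂ} (hX : X ∈ hB B) (hY : Y ∈ hB B) : X * Y - Y * X ∈ hB B := by
  obtain ⟨-, h1⟩ := hX
  obtain ⟨-, h2⟩ := hY
  refine ⟨by rw [Matrix.trace_sub, Matrix.trace_mul_comm, sub_self], ?_⟩
  have e1 : Xᵀ * B = -(B * X) := eq_neg_of_add_eq_zero_left h1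
  have e2 : Yᵀ * B = -(B * Y) := eq_neg_of_add_eq_zero_left h2
  rw [Matrix.transpose_sub, Matrix.transpose_mul, Matrix.transpose_mul, Matrix.sub_mul, Matrix.mul_assoc, Matrix.mul_assoc, e1, e2,
    Matrix.mul_neg, Matrix.mul_neg, ← Matrix.mul_assoc, ← Matrix.mul_assoc, e1, e2]
  noncomm_ring

/-- the isometries of determinant one -/
def GBs (B : Matrix (Fin n) (Fin n) ℂ) : Set (Matrix (Fin n) (Fin n) ℂ) := {κ | κ.det = 1 ∧ κᵀ * B * κ = B}

lemma GBs_mul {κ κ' : Matrix (Fin n) (Fin n) ℂ} (h : κ ∈ GBs B) (h' : κ' ∈ GBs B) : κ * κ' ∈ GBs B := by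
  refine ⟨by rw [Matrix.det_mul, h.1, h'.1, one_mul], ?_⟩
  rw [Matrix.transpose_mul]
  calc κ'ᵀ * κᵀ * B * (κ * κ') = κ'ᵀ * (κᵀ * B * κ) * κ' := by simp only [Matrix.mul_assoc]
    _ = B := by rw [h.2, h'.2]

lemma GBs_one : (1 : Matrix (Fin n) (Fin n) ℂ) ∈ GBs B := ⟨Matrix.det_one, by rw [Matrix.transpose_one, Matrix.one_mul, Matrix.mul_one]⟩

/-- the determinant of the exponential of a matrix with trace zero -/
lemma det_exp0 (hDer : S_Der) (hTr : S_Tr) {N : Matrix (Fin n) (Fin n) ℂ} (hN : N.trace = 0) (z : ℂ) :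
    (NormedSpace.exp (z • N)).det = 1 := by
  have h0 : HasDerivAt (fun w : ℂ => (NormedSpace.exp (w • N)).det) 0 0 := by
    set Bc : ℂ → Fin n → Fin n → ℂ := fun w s x => (NormedSpace.exp (w • N)) s x with hBc
    have hB0 : Bc 0 = fun s x => if s = x then 1 else 0 := by
      funext s x
      rw [hBc]
      simp only [zero_smul, NormedSpace.exp_zero, Matrix.one_apply]
    have h1 := hDer (Fin n) n Nᵀ Bc (fun s x => by
      have h2 := conj_entry N 1 s x
      have h3 : HasDerivAt (fun w : ℂ => (NormedSpace.exp (w • N)) s x) (N s x) 0 := by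
        have h4 : HasDerivAt (fun w : ℂ => NormedSpace.exp (w • N)) (NormedSpace.exp ((0 : ℂ) • N) * N) 0 := by
          letI := Matrix.linftyOpNormedRing (n := Fin n) (α := ℂ)
          letI := Matrix.linftyOpNormedAlgebra (n := Fin n) (α := ℂ) (R := ℂ)
          exact deriv_expI N 0
        rw [zero_smul, NormedSpace.exp_zero, Matrix.one_mul] at h4
        letI := Matrix.linftyOpNormedRing (n := Fin n) (α := ℂ)
        letI := Matrix.linftyOpNormedAlgebra (n := Fin n) (α := ℂ) (R := ℂ)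
        exact entry_deriv h4 s x
      have h5 : (Nᵀ *ᵥ Bc 0 s) x = N s x := by
        rw [hB0]
        simp [Matrix.mulVec, dotProduct, Matrix.transpose_apply]
      rw [h5]
      exact h3) id
    have h2 : rho (r := n) Nᵀ (Dt (Bc 0)) = 0 := by
      rw [hTr (Fin n) n Nᵀ (Bc 0) N, hN, zero_smul]
      intro s
      rw [hB0]
      funext x
      simp [Matrix.mulVec, dotProduct, Matrix.transpose_apply, Finset.sum_apply]
    rw [h2] at h1
    exact h1
  have h1 : ∀ w : ℂ, HasDerivAt (fun w : ℂ => (NormedSpace.exp (w • N)).det) 0 w := by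
    intro w
    have h2 : HasDerivAt (fun u : ℂ => (NormedSpace.exp (w • N)).det * (NormedSpace.exp ((u - w) • N)).det)
        ((NormedSpace.exp (w • N)).det * 0) w := by
      refine HasDerivAt.const_mul _ ?_
      have h3 : HasDerivAt (fun u : ℂ => u - w) 1 w := (hasDerivAt_id w).sub_const w
      have h4 := HasDerivAt.comp w (h₂ := fun w : ℂ => (NormedSpace.exp (w • N)).det) (h₂' := 0) (by
        simp only [sub_self]
        exact h0) h3
      rw [zero_mul] at h4
      exact h4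
    rw [mul_zero] at h2
    refine h2.congr_of_eventuallyEq (Filter.Eventually.of_forall fun u => ?_)
    simp only
    rw [← Matrix.det_mul, ← Matrix.exp_add_of_commute _ _ (((Commute.refl N).smul_left w).smul_right _), ← add_smul, add_sub_cancel]
  have h2 := is_const_of_deriv_eq_zero (fun w => (h1 w).differentiableAt) (fun w => (h1 w).deriv) z 0
  rw [h2, zero_smul, NormedSpace.exp_zero, Matrix.det_one]

/-- exponentials -/
lemma exp_GBs (hDer : S_Der) (hTr : S_Tr) (hB0 : B = 0 ∨ IsUnit B) {N : Matrix (Fin n) (Fin n) ℂ} (hN : N ∈ hB B) (z : ℂ) : NormedSpace.exp (z • N) ∈ GBs B := by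
  obtain ⟨h1, h2⟩ := hN
  refine ⟨det_exp0 hDer hTr h1 z, ?_⟩
  rcases hB0 with rfl | hu
  · rw [Matrix.mul_zero, Matrix.zero_mul]
  have hd := (Matrix.isUnit_iff_isUnit_det _).1 hu
  have e1 : Nᵀ * B = B * (-N) := by
    rw [Matrix.mul_neg]
    exact eq_neg_of_add_eq_zero_left h2
  have e2 : (z • N)ᵀ = B * ((-z) • N) * B⁻¹ := by
    calc (z • N)ᵀ = z • (Nᵀ * B * B⁻¹) := by
          rw [Matrix.mul_assoc, Matrix.mul_nonsing_inv _ hd, Matrix.mul_one, Matrix.transpose_smul]
      _ = _ := by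
          rw [e1, Matrix.mul_smul, Matrix.smul_mul, Matrix.mul_neg, Matrix.neg_mul, neg_smul, smul_neg]
  rw [← Matrix.exp_transpose, e2, Matrix.exp_conj _ _ hu]
  have e3 : NormedSpace.exp ((-z) • N) * NormedSpace.exp (z • N) = 1 := by
    have := exp_neg_mul N (-z)
    rwa [neg_neg] at this
  calc B * NormedSpace.exp ((-z) • N) * B⁻¹ * B * NormedSpace.exp (z • N) =
        B * (NormedSpace.exp ((-z) • N) * ((B⁻¹ * B) * NormedSpace.exp (z • N))) := by simp only [Matrix.mul_assoc]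
    _ = B := by rw [Matrix.nonsing_inv_mul _ hd, Matrix.one_mul, e3, Matrix.mul_one]

end one

section many

variable {I : Type} [Fintype I] [DecidableEq I] {A : Type} [Fintype A] [DecidableEq A] {μ : A → ℕ}
  {B : ∀ a, Matrix (Fin (μ a)) (Fin (μ a)) ℂ}

/-- tuples of matrices -/
abbrev Tu (μ : A → ℕ) : Type := ∀ a, Matrix (Fin (μ a)) (Fin (μ a)) ℂ

/-- the product of the algebras -/
def hBB (B : Tu μ) : Submodule ℂ (Tu μ) := Submodule.pi Set.univ fun a => hB (B a)

omit [Fintype A] [DecidableEq A] in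
lemma mem_hBB {X : Tu μ} : X ∈ hBB B ↔ ∀ a, X a ∈ hB (B a) := by
  unfold hBB
  rw [Submodule.mem_pi]
  exact ⟨fun h a => h a (Set.mem_univ _), fun h a _ => h a⟩

omit [Fintype A] in
lemma single_br (a : A) (X : Tu μ) (N : Matrix (Fin (μ a)) (Fin (μ a)) ℂ) :
    X * Pi.single a N - Pi.single a N * X = Pi.single a (X a * N - N * X a) := by
  funext b
  rw [Pi.sub_apply, Pi.mul_apply, Pi.mul_apply]
  by_cases h : b = a
  · subst h
    rw [Pi.single_eq_same, Pi.single_eq_same]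
  · rw [Pi.single_eq_of_ne h, Pi.single_eq_of_ne h, mul_zero, zero_mul, sub_zero]

omit [Fintype A] in
lemma single_hBB {a : A} {N : Matrix (Fin (μ a)) (Fin (μ a)) ℂ} (hN : N ∈ hB (B a)) : (Pi.single a N : Tu μ) ∈ hBB B := by
  rw [mem_hBB]
  intro b
  by_cases h : b = a
  · subst h
    rw [Pi.single_eq_same]
    exact hN
  · rw [Pi.single_eq_of_ne h]
    exact (hB (B b)).zero_mem

/-- a stable subspace with the brackets of a regular element contains everything -/
lemma all_of_stable {y : Tu μ}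
    (hgood : ∀ a, ∀ J : Submodule ℂ (Matrix (Fin (μ a)) (Fin (μ a)) ℂ), (∀ X ∈ hB (B a), ∀ Y ∈ J, X * Y - Y * X ∈ J) →
      (∀ X ∈ hB (B a), X * y a - y a * X ∈ J) → hB (B a) ≤ J)
    {P : Submodule ℂ (Tu μ)} (h1 : ∀ N ∈ hBB B, ∀ X ∈ P, N * X - X * N ∈ P) (h2 : ∀ N ∈ hBB B, N * y - y * N ∈ P) : hBB B ≤ P := by
  intro X hX
  rw [mem_hBB] at hX
  have h3 : X = ∑ a, Pi.single a (X a) := by
    funext b
    rw [Finset.sum_apply, Finset.sum_eq_single b]
    · rw [Pi.single_eq_same]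
    · intro a _ hab
      rw [Pi.single_eq_of_ne (Ne.symm hab)]
    · intro h
      exact absurd (Finset.mem_univ _) h
  rw [h3]
  refine Submodule.sum_mem _ fun a _ => ?_
  have h4 := hgood a (P.comap (LinearMap.single ℂ (fun a => Matrix (Fin (μ a)) (Fin (μ a)) ℂ) a)) (fun N hN Y hY => ?_) (fun N hN => ?_)
  · exact h4 (hX a)
  · rw [Submodule.mem_comap] at hY ⊢
    rw [LinearMap.single_apply] at hY ⊢
    have h5 := h1 _ (single_hBB hN) _ hY
    have h6 : (Pi.single a N : Tu μ) * Pi.single a Y - Pi.single a Y * Pi.single a N = Pi.single a (N * Y - Y * N) := by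
      rw [single_br, Pi.single_eq_same]
    rw [h6] at h5
    exact h5
  · rw [Submodule.mem_comap, LinearMap.single_apply]
    have h5 := h2 _ (single_hBB hN)
    have h6 : (Pi.single a N : Tu μ) * y - y * Pi.single a N = Pi.single a (N * y a - y a * N) := by
      rw [← neg_sub, single_br, ← Pi.single_neg, neg_sub]
    rw [h6] at h5
    exact h5

/-- **The algebra is normalised.** -/
theorem norm_all (hDer : S_Der) (hTr : S_Tr) (hBu : ∀ a, B a = 0 ∨ IsUnit (B a)) {y : Tu μ}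
    (hgood : ∀ a, ∀ J : Submodule ℂ (Matrix (Fin (μ a)) (Fin (μ a)) ℂ), (∀ X ∈ hB (B a), ∀ Y ∈ J, X * Y - Y * X ∈ J) →
      (∀ X ∈ hB (B a), X * y a - y a * X ∈ J) → hB (B a) ≤ J)
    (Ψ : Tu μ →ₗ[ℂ] Matrix I I ℂ) {M : Submodule ℂ (Matrix I I ℂ)}
    (h1 : ∀ κ : Tu μ, (∀ a, κ a ∈ GBs (B a)) → ∀ Z ∈ M, Ψ (fun a => (κ a)⁻¹ * y a * κ a) * Z - Z * Ψ (fun a => (κ a)⁻¹ * y a * κ a) ∈ M) :
    ∀ X ∈ hBB B, ∀ Z ∈ M, Ψ X * Z - Z * Ψ X ∈ M := by
  set P : Submodule ℂ (Tu μ) := Submodule.span ℂ {X | ∃ κ : Tu μ, (∀ a, κ a ∈ GBs (B a)) ∧ X = fun a => (κ a)⁻¹ * y a * κ a} with hP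
  have hyP : y ∈ P := Submodule.subset_span ⟨fun _ => 1, fun _ => GBs_one, by
    funext a
    rw [inv_one, Matrix.one_mul, Matrix.mul_one]⟩
  have hst : ∀ N ∈ hBB B, ∀ X ∈ P, N * X - X * N ∈ P := by
    intro N hN X hX
    rw [mem_hBB] at hN
    induction hX using Submodule.span_induction with
    | mem X hX =>
      obtain ⟨κ, hκ, rfl⟩ := hX
      set X : Tu μ := fun a => (κ a)⁻¹ * y a * κ a with hXd
      -- the curve
      have hfin : FiniteDimensional ℂ (Tu μ) := inferInstance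
      have hcl : ∀ z : ℂ, (fun a => NormedSpace.exp (z • N a) * X a * NormedSpace.exp ((-z) • N a) : Tu μ) ∈ P := by
        intro z
        refine Submodule.subset_span ⟨fun a => κ a * NormedSpace.exp ((-z) • N a), fun a => GBs_mul (hκ a) (exp_GBs hDer hTr (hBu a) (hN a) _), ?_⟩
        funext a
        have h3 : (NormedSpace.exp ((-z) • N a))⁻¹ = NormedSpace.exp (z • N a) := by
          refine Matrix.inv_eq_right_inv ?_
          have := exp_neg_mul (N a) (-z)
          rwa [neg_neg] at this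
        rw [Matrix.mul_inv_rev, h3, hXd]
        simp only [Matrix.mul_assoc]
      -- linear functionals
      by_contra hne
      obtain ⟨φ, hφ, hφP⟩ := Submodule.exists_le_ker_of_notMem hne
      apply hφ
      have h4 : ∀ a, HasDerivAt (fun z : ℂ => φ (Pi.single a (NormedSpace.exp (z • N a) * X a * NormedSpace.exp ((-z) • N a))))
          (φ (Pi.single a (N a * X a - X a * N a))) 0 := by
        intro a
        have h5 := conj_entry (N a) (X a)
        set ψ : Matrix (Fin (μ a)) (Fin (μ a)) ℂ →ₗ[ℂ] ℂ := φ.comp (LinearMap.single ℂ (fun a => Matrix (Fin (μ a)) (Fin (μ a)) ℂ) a) with hψ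
        have h6 : ∀ Z : Matrix (Fin (μ a)) (Fin (μ a)) ℂ, φ (Pi.single a Z) = ∑ b, ∑ c, Z b c * ψ (Matrix.single b c 1) := by
          intro Z
          have h7 : φ (Pi.single a Z) = ψ Z := rfl
          rw [h7]
          conv_lhs => rw [Matrix.matrix_eq_sum_single Z]
          rw [map_sum]
          refine Finset.sum_congr rfl fun b _ => ?_
          rw [map_sum]
          refine Finset.sum_congr rfl fun c _ => ?_
          have h8 : Matrix.single b c (Z b c) = Z b c • Matrix.single b c (1 : ℂ) := by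
            rw [Matrix.smul_single, smul_eq_mul, mul_one]
          rw [h8, map_smul, smul_eq_mul]
        simp only [h6]
        refine HasDerivAt.fun_sum fun b _ => HasDerivAt.fun_sum fun c _ => ?_
        exact (h5 b c).mul_const _
      have h5 : HasDerivAt (fun z : ℂ => φ (fun a => NormedSpace.exp (z • N a) * X a * NormedSpace.exp ((-z) • N a)))
          (φ (N * X - X * N)) 0 := by
        have h6 : ∀ Z : Tu μ, φ Z = ∑ a, φ (Pi.single a (Z a)) := by
          intro Z
          rw [← map_sum]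
          congr 1
          funext b
          rw [Finset.sum_apply, Finset.sum_eq_single b]
          · rw [Pi.single_eq_same]
          · intro a _ hab
            rw [Pi.single_eq_of_ne (Ne.symm hab)]
          · intro h
            exact absurd (Finset.mem_univ _) h
        rw [h6 (N * X - X * N)]
        have h7 : (fun z : ℂ => φ (fun a => NormedSpace.exp (z • N a) * X a * NormedSpace.exp ((-z) • N a))) =
            fun z : ℂ => ∑ a, φ (Pi.single a (NormedSpace.exp (z • N a) * X a * NormedSpace.exp ((-z) • N a))) := by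
          funext z
          exact h6 _
        rw [h7]
        exact HasDerivAt.fun_sum fun a _ => h4 a
      have h6 : (fun z : ℂ => φ (fun a => NormedSpace.exp (z • N a) * X a * NormedSpace.exp ((-z) • N a))) = fun _ => 0 := by
        funext z
        exact hφP (hcl z)
      rw [h6] at h5
      exact h5.unique (hasDerivAt_const _ _)
    | zero => rw [mul_zero, zero_mul, sub_zero]; exact P.zero_mem
    | add X Y _ _ h3 h4 =>
      have : N * (X + Y) - (X + Y) * N = (N * X - X * N) + (N * Y - Y * N) := by noncomm_ring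
      rw [this]
      exact P.add_mem h3 h4
    | smul c X _ h3 =>
      have : N * (c • X) - (c • X) * N = c • (N * X - X * N) := by
        rw [mul_smul_comm, smul_mul_assoc, smul_sub]
      rw [this]
      exact P.smul_mem c h3
  have hle : hBB B ≤ P := all_of_stable hgood hst fun N hN => hst N hN y hyP
  have hnorm : ∀ X ∈ P, ∀ Z ∈ M, Ψ X * Z - Z * Ψ X ∈ M := by
    intro X hX Z hZ
    induction hX using Submodule.span_induction with
    | mem X hX =>
      obtain ⟨κ, hκ, rfl⟩ := hX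
      exact h1 κ hκ Z hZ
    | zero => rw [map_zero, zero_mul, mul_zero, sub_zero]; exact M.zero_mem
    | add X Y _ _ h3 h4 =>
      have : Ψ (X + Y) * Z - Z * Ψ (X + Y) = (Ψ X * Z - Z * Ψ X) + (Ψ Y * Z - Z * Ψ Y) := by
        rw [map_add]
        noncomm_ring
      rw [this]
      exact M.add_mem h3 h4
    | smul c X _ h3 =>
      have : Ψ (c • X) * Z - Z * Ψ (c • X) = c • (Ψ X * Z - Z * Ψ X) := by
        rw [map_smul, mul_smul_comm, smul_mul_assoc, smul_sub]
      rw [this]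
      exact M.smul_mem c h3
  exact fun X hX => hnorm X (hle hX)

/-- **Everything is in the algebra.** -/
theorem ideal_allR (hDer : S_Der) (hTr : S_Tr) (hBu : ∀ a, B a = 0 ∨ IsUnit (B a)) {y : Tu μ}
    (hgood : ∀ a, ∀ J : Submodule ℂ (Matrix (Fin (μ a)) (Fin (μ a)) ℂ), (∀ X ∈ hB (B a), ∀ Y ∈ J, X * Y - Y * X ∈ J) →
      (∀ X ∈ hB (B a), X * y a - y a * X ∈ J) → hB (B a) ≤ J)
    (Ψ : Tu μ →ₗ[ℂ] Matrix I I ℂ) (hΨ : ∀ X Y, Ψ (X * Y - Y * X) = Ψ X * Ψ Y - Ψ Y * Ψ X) {M : Submodule ℂ (Matrix I I ℂ)}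
    (h1 : ∀ κ : Tu μ, (∀ a, κ a ∈ GBs (B a)) → ∀ Z ∈ M, Ψ (fun a => (κ a)⁻¹ * y a * κ a) * Z - Z * Ψ (fun a => (κ a)⁻¹ * y a * κ a) ∈ M)
    {Q : Matrix I I ℂ} (hQ : ∀ X, Ψ X * Q = Q * Ψ X) (h2 : Ψ y + Q ∈ M) : ∀ X ∈ hBB B, Ψ X ∈ M := by
  have hnorm := norm_all hDer hTr hBu hgood Ψ h1
  have h3 : hBB B ≤ M.comap Ψ := by
    refine all_of_stable hgood (fun N hN X hX => ?_) fun N hN => ?_
    · rw [Submodule.mem_comap] at hX ⊢
      rw [hΨ]
      exact hnorm N hN _ hX
    · rw [Submodule.mem_comap, hΨ]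
      have h4 := hnorm N hN _ h2
      rw [Matrix.mul_add, Matrix.add_mul, hQ, add_sub_add_right_eq_sub] at h4
      exact h4
  exact fun X hX => h3 hX

/-- **Everything is in the algebra.** -/
theorem ideal_all (hDer : S_Der) (hTr : S_Tr) (hBu : ∀ a, B a = 0 ∨ IsUnit (B a)) {y : Tu μ}
    (hgood : ∀ a, ∀ J : Submodule ℂ (Matrix (Fin (μ a)) (Fin (μ a)) ℂ), (∀ X ∈ hB (B a), ∀ Y ∈ J, X * Y - Y * X ∈ J) →
      (∀ X ∈ hB (B a), X * y a - y a * X ∈ J) → hB (B a) ≤ J)
    (Ψ : Tu μ →ₗ[ℂ] Matrix I I ℂ) (hΨ : ∀ X Y, Ψ (X * Y - Y * X) = Ψ X * Ψ Y - Ψ Y * Ψ X) {M : Submodule ℂ (Matrix I I ℂ)}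
    (h1 : ∀ κ : Tu μ, (∀ a, κ a ∈ GBs (B a)) → ∀ Z ∈ M, Ψ (fun a => (κ a)⁻¹ * y a * κ a) * Z - Z * Ψ (fun a => (κ a)⁻¹ * y a * κ a) ∈ M)
    (h2 : Ψ y ∈ M) : ∀ X ∈ hBB B, Ψ X ∈ M :=
  ideal_allR hDer hTr hBu hgood Ψ hΨ h1 (Q := 0) (fun X => by rw [Matrix.mul_zero, Matrix.zero_mul]) (by rw [add_zero]; exact h2)

end many

end Q207.HG
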