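import Pool.Agent.Q207.HG.Asm

/-!
# Project HG: the algebra at a good tuple of fibres contains the Lie algebra of the family
-/

set_option autoImplicit false

open Matrix Finset

namespace Q207.HG

open Q207.HM (lk Yx QA cls Lin Bil TP QuadT tpos QG_QA det_Yt cls_size cls_neg pkg3)
open Pool.Agent.Y123.GN (Clf)

variable {k : ℕ} {r : Fin k → ℕ} {n : ∀ i, Fin (r i) → ℕ} {α : ∀ i j, Fin (n i j) → ℚ}

lemma TP_of (D : ∀ i, Pk (α i)) {κ : Tu (mu D)} (hκ : ∀ a, κ a ∈ GBs (BBx D a)) {t : Fin k → ℕ} (ht : ∀ i, 2 ≤ t i) (i : Fin k) :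
    (fun j => Yv α t i j * lk ((D i).d j) ((D i).P j) ((D i).P' j) (κ ⟨i, (D i).q j⟩)) ∈ TP (α i) (t i) :=
  (D i).hT (fun a => κ ⟨i, a⟩) (fun a => hκ ⟨i, a⟩) (t i) (ht i)

lemma YPsG (D : ∀ i, Pk (α i)) (κ : Tu (mu D)) (t : Fin k → ℕ) : tot (Yv α t) * PsG D κ =
    tot fun i j => Yv α t i j * lk ((D i).d j) ((D i).P j) ((D i).P' j) (κ ⟨i, (D i).q j⟩) := by
  rw [PsG_apply, tot_mul]

lemma conj_conj {I : Type} [Fintype I] [DecidableEq I] {g A : Matrix I I ℂ} (hg : IsUnit g.det) : g⁻¹ * (g * A * g⁻¹) * g = A := by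
  calc g⁻¹ * (g * A * g⁻¹) * g = (g⁻¹ * g) * A * (g⁻¹ * g) := by simp only [Matrix.mul_assoc]
    _ = A := by rw [Matrix.nonsing_inv_mul _ hg, Matrix.one_mul, Matrix.mul_one]

lemma conj_br {I : Type} [Fintype I] [DecidableEq I] {g A B : Matrix I I ℂ} (hg : IsUnit g.det) :
    g⁻¹ * (A * B - B * A) * g = (g⁻¹ * A * g) * (g⁻¹ * B * g) - (g⁻¹ * B * g) * (g⁻¹ * A * g) := by
  have key : ∀ A B : Matrix I I ℂ, (g⁻¹ * A * g) * (g⁻¹ * B * g) = g⁻¹ * (A * B) * g := by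
    intro A B
    calc (g⁻¹ * A * g) * (g⁻¹ * B * g) = g⁻¹ * A * (g * g⁻¹) * B * g := by simp only [Matrix.mul_assoc]
      _ = _ := by rw [Matrix.mul_nonsing_inv _ hg, Matrix.mul_one]; simp only [Matrix.mul_assoc]
  rw [key, key, ← Matrix.sub_mul, ← Matrix.mul_sub]

lemma conj_br' {I : Type} [Fintype I] [DecidableEq I] {g A B : Matrix I I ℂ} (hg : IsUnit g.det) :
    g * (A * B - B * A) * g⁻¹ = (g * A * g⁻¹) * (g * B * g⁻¹) - (g * B * g⁻¹) * (g * A * g⁻¹) := by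
  have key : ∀ A B : Matrix I I ℂ, (g * A * g⁻¹) * (g * B * g⁻¹) = g * (A * B) * g⁻¹ := by
    intro A B
    calc (g * A * g⁻¹) * (g * B * g⁻¹) = g * A * (g⁻¹ * g) * B * g⁻¹ := by simp only [Matrix.mul_assoc]
      _ = _ := by rw [Matrix.nonsing_inv_mul _ hg, Matrix.mul_one]; simp only [Matrix.mul_assoc]
  rw [key, key, ← Matrix.sub_mul, ← Matrix.mul_sub]

/-- **The algebra at a good tuple of fibres.** -/
theorem main_at (hHom : S_Hom) (hTr : S_Tr) (hDer : S_Der) (hSpan : S_Span) (hLow : S_Low) (hZero : S_Zero) (hPart : S_Part)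
    (hTrace : S_Trace) (hGrd : S_Grd) (hGood : S_Good) (hPerf : S_Perf) (hForm : S_Form) (hConc : S_Conc) (D : ∀ i, Pk (α i))
    (h01 : ∀ i j l, 0 < α i j l ∧ α i j l < 1) (hn : ∀ i j, 2 ≤ n i j) {t : Fin k → ℕ} (ht : ∀ i, 2 ≤ t i)
    {C : Matrix (Ix n) (Ix n) ℂ} (hC : IsUnit C.det) (hG : GoodP (dl n) (Vs C) α t) {H : ℤ → Submodule ℂ (Ix n → ℂ)}
    (htop : (⨆ p, H p) = ⊤)
    (hF : ∀ p, (⨆ q : {q : ℤ // p ≤ q}, H q) = Submodule.span ℂ {v | ∃ a, p ≤ lvx n a ∧ v = (tot (Yv α t) * C) a})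
    (hconj : ∀ p, ∀ v ∈ H p, (fun a => (starRingEnd ℂ) (v a)) ∈ H (-p)) {Φ : Matrix (Ix n) (Ix n) ℂ}
    (hΦ : ∀ p, ∀ v ∈ H p, v ᵥ* Φ = (p : ℂ) • v) {𝔪 : Submodule ℚ (Matrix (Ix n) (Ix n) ℚ)}
    (hbr : ∀ X ∈ 𝔪, ∀ Y ∈ 𝔪, X * Y - Y * X ∈ 𝔪) (hΦm : Φ ∈ Submodule.span ℂ (cmx '' (𝔪 : Set (Matrix (Ix n) (Ix n) ℚ)))) :
    ∀ X ∈ hBB (BBx D), C⁻¹ * Psi D X * C ∈ Submodule.span ℂ (cmx '' (𝔪 : Set (Matrix (Ix n) (Ix n) ℚ))) := by
  classical
  obtain ⟨y, hy1, hy2, hy3⟩ := T_exists hDer hTr hConc hForm D h01 hn ht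
  set 𝒴 := tot (Yv α t) with h𝒴
  have hYu : IsUnit 𝒴.det := tot_unit fun i j => Yv_unit h01 hn ht i j
  have hYU : IsUnit 𝒴 := (Matrix.isUnit_iff_isUnit_det _).2 hYu
  set Z := 𝒴 * C with hZ
  have hZu : IsUnit Z.det := by
    rw [hZ, Matrix.det_mul]
    exact hYu.mul hC
  have hZi : Z⁻¹ = C⁻¹ * 𝒴⁻¹ := by rw [hZ, Matrix.mul_inv_rev]
  -- a basis
  set b := Module.finBasis ℚ 𝔪 with hb
  set s := Module.finrank ℚ 𝔪 with hs
  set X : Fin s → Matrix (Ix n) (Ix n) ℚ := fun u => (b u : Matrix (Ix n) (Ix n) ℚ) with hX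
  have hXli : LinearIndependent ℚ X := b.linearIndependent.map' 𝔪.subtype (Submodule.ker_subtype _)
  have hscard : s ≤ Fintype.card (Ix n) ^ 2 := by
    refine (Submodule.finrank_le 𝔪).trans ?_
    rw [Module.finrank_matrix, Module.finrank_self, mul_one, sq]
  have hsp := span_basis b
  rw [hsp]
  rw [hsp] at hΦm
  -- the coefficients
  have hcex : ∀ u, ∃ c : Fin s → ℂ, ∑ v, c v • cmx (X v) = cmx (X u) * Φ - Φ * cmx (X u) := by
    intro u
    have h1 := span_br hbr (b u).2 (Φ := Φ) (by rw [hsp]; exact hΦm)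
    rw [hsp] at h1
    exact (Submodule.mem_span_range_iff_exists_fun ℂ).1 h1
  choose c hc using hcex
  have hctr : (Matrix.of c).trace = 0 := hTrace (Ix n) Φ H htop hΦ hconj s X hXli (Matrix.of c) fun u => (hc u).symm
  set A : Fin s → Matrix (Ix n) (Ix n) ℂ := fun u => C * cmx (X u) * C⁻¹ with hA
  have hAli : LinearIndependent ℂ A := by
    rw [Fintype.linearIndependent_iff]
    intro z hz u
    have h1 : ∑ u, z u • cmx (X u) = 0 := by
      have h2 : C⁻¹ * (∑ u, z u • A u) * C = 0 := by rw [hz, Matrix.mul_zero, Matrix.zero_mul]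
      rw [← h2, Matrix.mul_sum, Matrix.sum_mul]
      refine Finset.sum_congr rfl fun u _ => ?_
      rw [Matrix.mul_smul, Matrix.smul_mul, hA]
      simp only
      rw [conj_conj hC]
    exact congrFun (Pool.Agent.Q198.HG.li_rat X hXli z h1) u
  -- the grading operator
  set Φ' := Z * Φ * Z⁻¹ with hΦ'
  have hΦg : Grd (lvx n) Φ' := hGrd (Ix n) (lvx n) Z Φ H hZu hF hΦ
  have hAZ : ∀ u, 𝒴 * A u * 𝒴⁻¹ = Z * cmx (X u) * Z⁻¹ := by
    intro u
    rw [hZi, hZ, hA]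
    simp only [Matrix.mul_assoc]
  have hlow0 : ∀ p : Fin s → Ix n × Ix n, ∑ l, (lvx n (p l).2 - lvx n (p l).1) < 0 → Dt (fun u => un (𝒴 * A u * 𝒴⁻¹)) p = 0 := by
    intro p hp
    refine low_hodge hTr hLow hΦg (A := fun u => 𝒴 * A u * 𝒴⁻¹) (c := Matrix.of c) (fun u => ?_) hctr p hp
    rw [hAZ, hΦ', ← conj_br' hZu, ← hc u, Matrix.mul_sum, Matrix.sum_mul]
    refine Finset.sum_congr rfl fun v _ => ?_
    rw [Matrix.mul_smul, Matrix.smul_mul, hAZ]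
    rfl
  -- the group
  set S : Set (Matrix (Ix n) (Ix n) ℂ) := {g | ∃ κ : Tu (mu D), (∀ a, κ a ∈ GBs (BBx D a)) ∧ g = 𝒴 * PsG D κ} with hS
  have hSu : ∀ g ∈ S, IsUnit g := by
    rintro g ⟨κ, hκ, rfl⟩
    exact hYU.mul (PsG_unit D hκ)
  have hlow : ∀ g ∈ S, ∀ p : Fin s → Ix n × Ix n, ∑ l, (lvx n (p l).2 - lvx n (p l).1) < 0 → Dt (fun u => un (g * A u * g⁻¹)) p = 0 := by
    rintro g ⟨κ, hκ, rfl⟩ p hp
    have h1 := transfer hG (fun i => by
      have h2 := TP_of D (κ := fun _ => 1) (fun a => GBs_one) ht i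
      have h3 : (fun j => Yv α t i j * lk ((D i).d j) ((D i).P j) ((D i).P' j) (1 : Matrix (Fin ((D i).m ((D i).q j))) _ ℂ)) =
          fun j => Yx (n i j) (QA (α i j)) (1 / (t i : ℝ)) := by
        funext j
        rw [lk_one ((D i).h1 j), Matrix.mul_one]
      rw [← h3]
      exact h2) hscard X p (hlow0 p hp) (TP_of D hκ ht)
    rw [YPsG]
    exact h1
  set L : Set (Matrix (Ix n) (Ix n) ℂ) := {X | ∃ N ∈ hBB (BBx D), X = 𝒴 * Psi D N * 𝒴⁻¹} with hL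
  have hSL : ∀ X ∈ L, ∀ z : ℂ, ∀ g ∈ S, NormedSpace.exp (z • X) * g ∈ S := by
    rintro X ⟨N, hN, rfl⟩ z g ⟨κ, hκ, rfl⟩
    rw [mem_hBB] at hN
    refine ⟨(fun a => NormedSpace.exp (z • N a)) * κ, fun a => GBs_mul (exp_GBs hDer hTr ((D a.1).B0 a.2) (hN a) z) (hκ a), ?_⟩
    have h1 : z • (𝒴 * Psi D N * 𝒴⁻¹) = 𝒴 * (z • Psi D N) * 𝒴⁻¹ := by rw [Matrix.mul_smul, Matrix.smul_mul]
    rw [h1, Matrix.exp_conj _ _ hYU, exp_Psi, PsG_mul]
    calc 𝒴 * PsG D (fun a => NormedSpace.exp (z • N a)) * 𝒴⁻¹ * (𝒴 * PsG D κ) =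
          𝒴 * PsG D (fun a => NormedSpace.exp (z • N a)) * (𝒴⁻¹ * 𝒴) * PsG D κ := by simp only [Matrix.mul_assoc]
      _ = _ := by rw [Matrix.nonsing_inv_mul _ hYu, Matrix.mul_one, Matrix.mul_assoc]
  set T := 𝒴 * Psi D y * 𝒴⁻¹ with hT
  have hyB : y ∈ hBB (BBx D) := mem_hBB.2 hy1
  have hmu : ∀ a, 2 ≤ mu D a := fun a => (D a.1).two (hn a.1) a.2
  have hTL : T ∈ Submodule.span ℂ {Z | ∃ X ∈ L, ∃ Y ∈ L, Z = X * Y - Y * X} := by
    have h1 := perf_tuple (B := BBx D) (fun a => hPerf (mu D a) (BBx D a) (hmu a) ((D a.1).hcl a.2)) hyB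
    have h2 : ∀ w : Tu (mu D), w ∈ Submodule.span ℂ {Z | ∃ X ∈ hBB (BBx D), ∃ Y ∈ hBB (BBx D), Z = X * Y - Y * X} →
        𝒴 * Psi D w * 𝒴⁻¹ ∈ Submodule.span ℂ {Z | ∃ X ∈ L, ∃ Y ∈ L, Z = X * Y - Y * X} := by
      intro w hw
      induction hw using Submodule.span_induction with
      | mem w hw =>
        obtain ⟨M, hM, N, hN, rfl⟩ := hw
        refine Submodule.subset_span ⟨_, ⟨M, hM, rfl⟩, _, ⟨N, hN, rfl⟩, ?_⟩
        rw [Psi_br, conj_br' hYu]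
      | zero => rw [map_zero, Matrix.mul_zero, Matrix.zero_mul]; exact Submodule.zero_mem _
      | add M N _ _ h3 h4 => rw [map_add, Matrix.mul_add, Matrix.add_mul]; exact Submodule.add_mem _ h3 h4
      | smul c M _ h3 => rw [map_smul, Matrix.mul_smul, Matrix.smul_mul]; exact Submodule.smul_mem _ _ h3
    exact h2 y h1
  have hst := stab_main hHom hDer hSpan hZero hy3 hSu hSL hTL hAli hlow
  -- the space
  set M₀ := Submodule.span ℂ (Set.range A) with hM₀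
  have hS1 : 𝒴 ∈ S := ⟨fun _ => 1, fun a => GBs_one, by rw [PsG_one, Matrix.mul_one]⟩
  have hΦM : Φ' ∈ Submodule.span ℂ (Set.range fun u => 𝒴 * A u * 𝒴⁻¹) := by
    have h1 := span_conj Z Z⁻¹ _ hΦm
    have h2 : (fun u => Z * cmx ((b u : Matrix (Ix n) (Ix n) ℚ)) * Z⁻¹) = fun u => 𝒴 * A u * 𝒴⁻¹ := by
      funext u
      exact (hAZ u).symm
    rw [h2] at h1
    exact h1
  have hTM : T ∈ Submodule.span ℂ (Set.range fun u => 𝒴 * A u * 𝒴⁻¹) := by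
    refine grad_mem hPart hy3 hΦg (fun B hB => ?_) hΦM
    induction hB using Submodule.span_induction with
    | mem B hB =>
      obtain ⟨u, rfl⟩ := hB
      exact hst 𝒴 hS1 u
    | zero => rw [Matrix.mul_zero, Matrix.zero_mul, sub_zero]; exact Submodule.zero_mem _
    | add B B' _ _ h3 h4 =>
      have : T * (B + B') - (B + B') * T = (T * B - B * T) + (T * B' - B' * T) := by noncomm_ring
      rw [this]
      exact Submodule.add_mem _ h3 h4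
    | smul c B _ h3 =>
      have : T * (c • B) - (c • B) * T = c • (T * B - B * T) := by rw [Matrix.mul_smul, Matrix.smul_mul, smul_sub]
      rw [this]
      exact Submodule.smul_mem _ _ h3
  have hback : ∀ g : Matrix (Ix n) (Ix n) ℂ, IsUnit g.det → (fun u => g⁻¹ * (g * A u * g⁻¹) * g) = A := by
    intro g hg
    funext u
    exact conj_conj hg
  have hyM : Psi D y ∈ M₀ := by
    have h1 := span_conj 𝒴⁻¹ 𝒴 _ hTM
    rw [hback 𝒴 hYu, hT, conj_conj hYu] at h1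
    exact h1
  have hall := ideal_all hDer hTr (B := BBx D) (fun a => (D a.1).B0 a.2) (y := y)
    (fun a J hJ1 hJ2 => hGood (mu D a) (BBx D a) (y a) (hmu a) ((D a.1).hcl a.2) ((D a.1).hod a.2) (hy1 a) (hy2 a) J hJ1 hJ2)
    (Psi D) (Psi_br D) (M := M₀) (fun κ hκ W hW => by
      have hg : 𝒴 * PsG D κ ∈ S := ⟨κ, hκ, rfl⟩
      have hgu : IsUnit (𝒴 * PsG D κ).det := (Matrix.isUnit_iff_isUnit_det _).1 (hSu _ hg)
      have hGu : IsUnit (PsG D κ).det := (Matrix.isUnit_iff_isUnit_det _).1 (PsG_unit D hκ)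
      have hTg : (𝒴 * PsG D κ)⁻¹ * T * (𝒴 * PsG D κ) = Psi D (fun a => (κ a)⁻¹ * y a * κ a) := by
        have h2 := PsG_conj D (fun a => (by rw [(hκ a).1]; exact isUnit_one : IsUnit (κ a).det)) y
        calc (𝒴 * PsG D κ)⁻¹ * T * (𝒴 * PsG D κ) = (PsG D κ)⁻¹ * (𝒴⁻¹ * (𝒴 * Psi D y * 𝒴⁻¹) * 𝒴) * PsG D κ := by
              rw [Matrix.mul_inv_rev, hT]
              simp only [Matrix.mul_assoc]
          _ = (PsG D κ)⁻¹ * (Psi D y * PsG D κ) := by rw [conj_conj hYu, Matrix.mul_assoc]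
          _ = _ := by rw [h2, ← Matrix.mul_assoc, Matrix.nonsing_inv_mul _ hGu, Matrix.one_mul]
      induction hW using Submodule.span_induction with
      | mem W hW =>
        obtain ⟨u, rfl⟩ := hW
        have h1 := span_conj (𝒴 * PsG D κ)⁻¹ (𝒴 * PsG D κ) _ (hst _ hg u)
        rw [hback _ hgu, conj_br hgu, hTg, conj_conj hgu] at h1
        exact h1
      | zero => rw [Matrix.mul_zero, Matrix.zero_mul, sub_zero]; exact Submodule.zero_mem _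
      | add B B' _ _ h3 h4 =>
        have : ∀ Q : Matrix (Ix n) (Ix n) ℂ, Q * (B + B') - (B + B') * Q = (Q * B - B * Q) + (Q * B' - B' * Q) := by
          intro Q
          noncomm_ring
        rw [this]
        exact Submodule.add_mem _ h3 h4
      | smul c B _ h3 =>
        have : ∀ Q : Matrix (Ix n) (Ix n) ℂ, Q * (c • B) - (c • B) * Q = c • (Q * B - B * Q) := by
          intro Q
          rw [Matrix.mul_smul, Matrix.smul_mul, smul_sub]
        rw [this]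
        exact Submodule.smul_mem _ _ h3) hyM
  intro W hW
  have h1 := span_conj C⁻¹ C _ (hall W hW)
  have h2 : (fun u => C⁻¹ * A u * C) = fun u => cmx ((b u : Matrix (Ix n) (Ix n) ℚ)) := by
    funext u
    exact conj_conj hC
  rw [h2] at h1
  exact h1

end Q207.HG
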