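import Pool.Agent.Q207.HG.RFin
import Pool.Agent.Q207.HG.Cnt

/-!
# Project HG: the Lie algebra of the monodromy group, explicitly
-/

set_option autoImplicit false
set_option linter.all false

open Matrix Finset

namespace Q207.HG

open Q207.HM (lk Yx QA cls Lin Bil TP QuadT tpos QG_QA det_Yt cls_size cls_neg cls_perm pkg3 valQ Vb pb tuplesQ)
open Pool.Agent.Y123.GN (Clf)
open Pool.Agent.Y119.HZ (Yt)

section

variable {p n : ℕ} {x : ℝ}

/-- equal exponents -/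
lemma eq_lk (hDer : S_Der) (hTr : S_Tr) (hx0 : 0 < x) (hx1 : x < 1) (hn : 2 ≤ n) {α α' : Fin n → ℚ} (h : ∀ i, 0 < α i ∧ α i < 1)
    (hQ : QA α' = QA α) {d d' : Bool}
    {P R : Matrix (Fin n) (Fin p) ℂ} {P' R' : Matrix (Fin p) (Fin n) ℂ} (hP1 : P * P' = 1) (hP2 : P' * P = 1) (hR1 : R * R' = 1)
    (hR2 : R' * R = 1) {B : Matrix (Fin p) (Fin p) ℂ} (hB0 : B = 0 ∨ IsUnit B)
    (hrel : ∀ κ ∈ GBs B, LinX (QA α) (QA α') x (Yx n (QA α) x * lk d P P' κ) (Yx n (QA α') x * lk d' R R' κ))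
    {X : Matrix (Fin p) (Fin p) ℂ} (hX : X ∈ hB B) : lkL d' R R' X = lkL d P P' X := by
  have hYu := (Matrix.isUnit_iff_isUnit_det _).1 (Yx_unit hn h hx0 hx1)
  have h1 : ∀ κ ∈ GBs B, lk d' R R' κ = lk d P P' κ := by
    intro κ hκ
    have h2 := hrel κ hκ 1 1 1 fun x _ _ => by
      rw [map_one, one_smul, Matrix.map_one _ (map_zero _) (map_one _), Matrix.map_one _ (map_zero _) (map_one _), Matrix.mul_one,
        Matrix.one_mul, hQ]
    rw [map_one, one_smul, Matrix.map_one _ (map_zero _) (map_one _), Matrix.map_one _ (map_zero _) (map_one _), Matrix.mul_one,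
      Matrix.one_mul, hQ] at h2
    calc lk d' R R' κ = (Yx n (QA α) x)⁻¹ * (Yx n (QA α) x * lk d' R R' κ) := by
          rw [← Matrix.mul_assoc, Matrix.nonsing_inv_mul _ hYu, Matrix.one_mul]
      _ = _ := by rw [h2, ← Matrix.mul_assoc, Matrix.nonsing_inv_mul _ hYu, Matrix.one_mul]
  have h4 := two_deriv (N := lkL d' R R' X) (X := 1) (N' := -lkL d P P' X) fun z => by
    rw [← lk_exp hR1 hR2, h1 _ (exp_GBs hDer hTr hB0 hX z), lk_exp hP1 hP2, Matrix.mul_one, smul_neg, ← neg_smul]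
    exact exp_neg_mul _ _
  rw [Matrix.mul_one, Matrix.one_mul] at h4
  exact eq_of_sub_eq_zero (by rw [sub_eq_add_neg]; exact h4)

/-- dual exponents -/
lemma dual_lk (hDer : S_Der) (hTr : S_Tr) (hConc : S_Conc) (hx0 : 0 < x) (hx1 : x < 1) (hn : 2 ≤ n) {α α' : Fin n → ℚ}
    (h : ∀ i, 0 < α i ∧ α i < 1) (hQ : QA α' = QA fun i => 1 - α i) {d d' : Bool}
    {P R : Matrix (Fin n) (Fin p) ℂ} {P' R' : Matrix (Fin p) (Fin n) ℂ} (hP1 : P * P' = 1) (hP2 : P' * P = 1) (hR1 : R * R' = 1)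
    (hR2 : R' * R = 1) {B : Matrix (Fin p) (Fin p) ℂ} (hB0 : B = 0 ∨ IsUnit B)
    (hrel : ∀ κ ∈ GBs B, BilX (QA α) (QA α') x (Yx n (QA α) x * lk d P P' κ) (Yx n (QA α') x * lk d' R R' κ))
    {X : Matrix (Fin p) (Fin p) ℂ} (hX : X ∈ hB B) : (lkL d P P' X)ᵀ * K0 n + K0 n * lkL d' R R' X = 0 := by
  refine two_deriv fun z => ?_
  have h4 := conc_inv hConc hx0 hx1 hn h hQ (hrel _ (exp_GBs hDer hTr hB0 hX z))
  rw [lk_exp hP1 hP2, lk_exp hR1 hR2, ← Matrix.exp_transpose, Matrix.transpose_smul] at h4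
  exact h4

lemma K0_eq {A A' : Matrix (Fin n) (Fin n) ℂ} :
    (Aᵀ * K0 n + K0 n * A' = 0) ↔ ∀ a b a' b' : Fin n, (a : ℕ) + b' + 1 = n → (b : ℕ) + a' + 1 = n →
      A' a' b' = -(-1) ^ ((a' : ℕ) + b') * A a b := by
  have h1 : ∀ c d : Fin n, (Aᵀ * K0 n) c d = A d.rev c * (-1) ^ (d : ℕ) := by
    intro c d
    rw [Matrix.mul_apply, Finset.sum_eq_single d.rev]
    · unfold K0
      have := d.isLt
      rw [Matrix.transpose_apply, Matrix.of_apply, if_pos (by rw [Fin.val_rev]; omega)]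
    · intro e _ he
      unfold K0
      rw [Matrix.of_apply, if_neg, mul_zero]
      intro h
      apply he
      ext
      rw [Fin.val_rev]
      omega
    · intro h
      exact absurd (Finset.mem_univ _) h
  have h2 : ∀ c d : Fin n, (K0 n * A') c d = (-1) ^ ((c.rev : Fin n) : ℕ) * A' c.rev d := by
    intro c d
    rw [Matrix.mul_apply, Finset.sum_eq_single c.rev]
    · unfold K0
      have := c.isLt
      rw [Matrix.of_apply, if_pos (by rw [Fin.val_rev]; omega)]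
    · intro e _ he
      unfold K0
      rw [Matrix.of_apply, if_neg, zero_mul]
      intro h
      apply he
      ext
      rw [Fin.val_rev]
      omega
    · intro h
      exact absurd (Finset.mem_univ _) h
  have hsq : ∀ m : ℕ, ((-1 : ℂ) ^ m) * (-1) ^ m = 1 := by
    intro m
    rw [← mul_pow]
    norm_num
  constructor
  · intro h a b a' b' hab hba
    have h3 := congrFun (congrFun h a'.rev) b'
    rw [Matrix.add_apply, h1, h2, Fin.rev_rev, Matrix.zero_apply] at h3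
    have e1 : b'.rev = a := by
      ext
      rw [Fin.val_rev]
      omega
    have e2 : a'.rev = b := by
      ext
      rw [Fin.val_rev]
      omega
    rw [e1, e2] at h3
    have h4 := hsq (a' : ℕ)
    rw [pow_add]
    linear_combination (-1) ^ (a' : ℕ) * h3 - A' a' b' * h4
  · intro h
    ext c d
    rw [Matrix.add_apply, h1, h2, Matrix.zero_apply]
    have hc := c.isLt
    have hd := d.isLt
    have h3 := h d.rev c c.rev d (by rw [Fin.val_rev]; omega) (by rw [Fin.val_rev]; omega)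
    rw [h3, pow_add]
    have h4 := hsq ((c.rev : Fin n) : ℕ)
    linear_combination (- A d.rev c * (-1) ^ (d : ℕ)) * h4

end

section monE

variable {r : ℕ} {n : Fin r → ℕ}

/-- the Lie algebra of the monodromy group -/
def MonE (α : ∀ j, Fin (n j) → ℚ) : Set (∀ j, Matrix (Fin (n j)) (Fin (n j)) ℂ) :=
  {A | (∀ j, (A j).trace = 0) ∧
    (∀ j j', (∃ σ : Fin (n j) ≃ Fin (n j'), ∀ l, α j' (σ l) = α j l) →
      ∀ (a b : Fin (n j)) (a' b' : Fin (n j')), (a : ℕ) = a' → (b : ℕ) = b' → A j' a' b' = A j a b) ∧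
    ∀ j j', (∃ σ : Fin (n j) ≃ Fin (n j'), ∀ l, α j' (σ l) + α j l = 1) →
      ∀ (a b : Fin (n j)) (a' b' : Fin (n j')), (a : ℕ) + b' + 1 = n j → (b : ℕ) + a' + 1 = n j →
        A j' a' b' = -(-1) ^ ((a' : ℕ) + b') * A j a b}

lemma cls_eq01 {n : ℕ} {α α' : Fin n → ℚ} (h : ∀ i, 0 < α i ∧ α i < 1) (h' : ∀ i, 0 < α' i ∧ α' i < 1) (hc : cls α = cls α') :
    ∃ σ : Fin n ≃ Fin n, ∀ l, α' (σ l) = α l := by
  obtain ⟨σ, hσ⟩ := cls_perm hc
  refine ⟨σ, fun l => ?_⟩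
  obtain ⟨a, ha⟩ := hσ l
  have h1 := h l
  have h2 := h' (σ l)
  have h3 : (-1 : ℚ) < a := by rw [← ha]; linarith
  have h4 : (a : ℚ) < 1 := by rw [← ha]; linarith
  have h5 : -1 < a := by exact_mod_cast h3
  have h6 : a < 1 := by exact_mod_cast h4
  have h7 : a = 0 := by omega
  rw [h7] at ha
  push_cast at ha
  linarith

lemma cls_neg01 {n : ℕ} {α α' : Fin n → ℚ} (h : ∀ i, 0 < α i ∧ α i < 1) (h' : ∀ i, 0 < α' i ∧ α' i < 1)
    (hc : cls α' = cls fun i => -α i) : ∃ σ : Fin n ≃ Fin n, ∀ l, α' (σ l) + α l = 1 := by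
  rw [cls_one_sub] at hc
  obtain ⟨σ, hσ⟩ := cls_eq01 (one_sub_mem h) h' hc.symm
  exact ⟨σ, fun l => by rw [hσ l]; ring⟩

lemma membE (hDer : S_Der) (hTr : S_Tr) (hConc : S_Conc) {x : ℝ} (hx0 : 0 < x) (hx1 : x < 1) {r' : ℕ} {m : Fin r' → ℕ}
    {B : ∀ a, Matrix (Fin (m a)) (Fin (m a)) ℂ} (hB0 : ∀ a, B a = 0 ∨ IsUnit (B a)) {a b : Fin r'} (e : b = a) {n n' : ℕ}
    (hn : 2 ≤ n) {α : Fin n → ℚ} {α' : Fin n' → ℚ} (h : ∀ i, 0 < α i ∧ α i < 1) (h' : ∀ i, 0 < α' i ∧ α' i < 1) {d d' : Bool}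
    {P : Matrix (Fin n) (Fin (m a)) ℂ} {P' : Matrix (Fin (m a)) (Fin n) ℂ} {R : Matrix (Fin n') (Fin (m b)) ℂ}
    {R' : Matrix (Fin (m b)) (Fin n') ℂ} (hP1 : P * P' = 1) (hP2 : P' * P = 1) (hR1 : R * R' = 1) (hR2 : R' * R = 1)
    (hc : cls α' = cls α ∨ cls α' = cls fun i => -α i)
    (hrel : ∀ κ : ∀ a, Matrix (Fin (m a)) (Fin (m a)) ℂ, (∀ a, κ a ∈ GBs (B a)) →
      LinX (QA α) (QA α') x (Yx n (QA α) x * lk d P P' (κ a)) (Yx n' (QA α') x * lk d' R R' (κ b)) ∧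
      BilX (QA α) (QA α') x (Yx n (QA α) x * lk d P P' (κ a)) (Yx n' (QA α') x * lk d' R R' (κ b)))
    {X : Matrix (Fin (m a)) (Fin (m a)) ℂ} (hX : X ∈ hB (B a)) {A : Matrix (Fin n) (Fin n) ℂ} {A' : Matrix (Fin n') (Fin n') ℂ}
    (hXA : lkL d P P' X = A)
    (hE : (∃ σ : Fin n ≃ Fin n', ∀ l, α' (σ l) = α l) →
      ∀ (a b : Fin n) (a' b' : Fin n'), (a : ℕ) = a' → (b : ℕ) = b' → A' a' b' = A a b)
    (hD : (∃ σ : Fin n ≃ Fin n', ∀ l, α' (σ l) + α l = 1) →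
      ∀ (a b : Fin n) (a' b' : Fin n'), (a : ℕ) + b' + 1 = n → (b : ℕ) + a' + 1 = n →
        A' a' b' = -(-1) ^ ((a' : ℕ) + b') * A a b) :
    lkL d' R R' (e ▸ X) = A' := by
  classical
  subst e
  have hnn : n' = n := by
    rcases hc with h1 | h1
    · exact cls_size h1
    · exact cls_size h1
  subst hnn
  have hrel' : ∀ κ ∈ GBs (B b),
      LinX (QA α) (QA α') x (Yx n' (QA α) x * lk d P P' κ) (Yx n' (QA α') x * lk d' R R' κ) ∧
      BilX (QA α) (QA α') x (Yx n' (QA α) x * lk d P P' κ) (Yx n' (QA α') x * lk d' R R' κ) := by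
    intro κ hκ
    have h1 := hrel (Function.update (fun _ => 1) b κ) fun c => by
      by_cases hcb : c = b
      · subst hcb
        rw [Function.update_self]
        exact hκ
      · rw [Function.update_of_ne hcb]
        exact GBs_one
    rw [Function.update_self] at h1
    exact h1
  rcases hc with h1 | h1
  · have h2 := eq_lk hDer hTr hx0 hx1 hn h (QA_cls h' h h1) hP1 hP2 hR1 hR2 (hB0 b) (fun κ hκ => (hrel' κ hκ).1) hX
    show lkL d' R R' X = A'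
    rw [h2, hXA]
    have h3 := hE (cls_eq01 h h' h1.symm)
    ext a c
    exact (h3 a c a c rfl rfl).symm
  · have h2 := dual_lk hDer hTr hConc hx0 hx1 hn h (QA_cls_neg h' h h1) hP1 hP2 hR1 hR2 (hB0 b) (fun κ hκ => (hrel' κ hκ).2) hX
    show lkL d' R R' X = A'
    rw [hXA] at h2
    have h3 := hD (cls_neg01 h h' h1)
    have h4 := K0_eq.1 h2
    ext a c
    have ha := a.isLt
    have hc := c.isLt
    rw [h4 c.rev a.rev a c (by rw [Fin.val_rev]; omega) (by rw [Fin.val_rev]; omega),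
      h3 c.rev a.rev a c (by rw [Fin.val_rev]; omega) (by rw [Fin.val_rev]; omega)]

/-- **The explicit Lie algebra comes from the classical algebras.** -/
theorem monE_mem (hDer : S_Der) (hTr : S_Tr) (hConc : S_Conc) (hForm : S_Form) {α : ∀ j, Fin (n j) → ℚ} (D : Pk α)
    (h01 : ∀ j i, 0 < α j i ∧ α j i < 1) (hn : ∀ j, 2 ≤ n j) {A : ∀ j, Matrix (Fin (n j)) (Fin (n j)) ℂ} (hA : A ∈ MonE α) :
    ∃ X : ∀ a, Matrix (Fin (D.m a)) (Fin (D.m a)) ℂ, (∀ a, X a ∈ hB (D.B a)) ∧ ∀ j, lkL (D.d j) (D.P j) (D.P' j) (X (D.q j)) = A j := by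
  classical
  obtain ⟨hA1, hA2, hA3⟩ := hA
  have hx0 : (0 : ℝ) < 1 / 2 := by norm_num
  have hx1 : (1 / 2 : ℝ) < 1 := by norm_num
  suffices hs : ∀ a, ∃ X ∈ hB (D.B a), ∀ j, ∀ e : D.q j = a, lkL (D.d j) (D.P j) (D.P' j) (e ▸ X) = A j by
    choose X hX1 hX2 using hs
    exact ⟨X, hX1, fun j => hX2 (D.q j) j rfl⟩
  intro a
  obtain ⟨j₀, rfl⟩ := D.hq a
  have hrel : ∀ j, ∀ κ : ∀ a, Matrix (Fin (D.m a)) (Fin (D.m a)) ℂ, (∀ a, κ a ∈ GBs (D.B a)) →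
      LinX (QA (α j₀)) (QA (α j)) (1 / 2) (Yx (n j₀) (QA (α j₀)) (1 / 2) * lk (D.d j₀) (D.P j₀) (D.P' j₀) (κ (D.q j₀)))
        (Yx (n j) (QA (α j)) (1 / 2) * lk (D.d j) (D.P j) (D.P' j) (κ (D.q j))) ∧
      BilX (QA (α j₀)) (QA (α j)) (1 / 2) (Yx (n j₀) (QA (α j₀)) (1 / 2) * lk (D.d j₀) (D.P j₀) (D.P' j₀) (κ (D.q j₀)))
        (Yx (n j) (QA (α j)) (1 / 2) * lk (D.d j) (D.P j) (D.P' j) (κ (D.q j))) := by
    intro j κ hκ
    have h1 := D.hX κ hκ (1 / 2) hx0 hx1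
    exact ⟨h1.lin j₀ j, h1.bil j₀ j⟩
  have hrel0 : ∀ κ ∈ GBs (D.B (D.q j₀)),
      BilX (QA (α j₀)) (QA (α j₀)) (1 / 2) (Yx (n j₀) (QA (α j₀)) (1 / 2) * lk (D.d j₀) (D.P j₀) (D.P' j₀) κ)
        (Yx (n j₀) (QA (α j₀)) (1 / 2) * lk (D.d j₀) (D.P j₀) (D.P' j₀) κ) := by
    intro κ hκ
    have h1 := (hrel j₀ (Function.update (fun _ => 1) (D.q j₀) κ) fun c => by
      by_cases hcb : c = D.q j₀
      · subst hcb
        rw [Function.update_self]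
        exact hκ
      · rw [Function.update_of_ne hcb]
        exact GBs_one).2
    rw [Function.update_self] at h1
    exact h1
  have hm : 2 ≤ D.m (D.q j₀) := D.two hn _
  refine ⟨bk (D.d j₀) (D.P j₀) (D.P' j₀) (A j₀), ⟨bk_trace (D.h1 j₀) _ (hA1 j₀), ?_⟩, fun j e => ?_⟩
  · by_cases hs : cls (α j₀) = cls fun i => -α j₀ i
    · have hQ : QA (α j₀) = QA fun i => 1 - α j₀ i := QA_cls_neg (h01 j₀) (h01 j₀) hs
      refine bk_form hForm hm (D.h1 j₀) (D.h2 j₀) (D.hcl _) (D.hsy j₀ hs) K0_unit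
        (fun κ hκ => conc_inv hConc hx0 hx1 (hn j₀) (h01 j₀) hQ (hrel0 κ hκ)) ?_
      exact K0_eq.2 (hA3 j₀ j₀ (cls_neg01 (h01 j₀) (h01 j₀) hs))
    · rw [D.hns j₀ hs, Matrix.mul_zero, Matrix.zero_mul, add_zero]
  · have hX : bk (D.d j₀) (D.P j₀) (D.P' j₀) (A j₀) ∈ hB (D.B (D.q j₀)) := by
      refine ⟨bk_trace (D.h1 j₀) _ (hA1 j₀), ?_⟩
      by_cases hs : cls (α j₀) = cls fun i => -α j₀ i
      · have hQ : QA (α j₀) = QA fun i => 1 - α j₀ i := QA_cls_neg (h01 j₀) (h01 j₀) hs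
        refine bk_form hForm hm (D.h1 j₀) (D.h2 j₀) (D.hcl _) (D.hsy j₀ hs) K0_unit
          (fun κ hκ => conc_inv hConc hx0 hx1 (hn j₀) (h01 j₀) hQ (hrel0 κ hκ)) ?_
        exact K0_eq.2 (hA3 j₀ j₀ (cls_neg01 (h01 j₀) (h01 j₀) hs))
      · rw [D.hns j₀ hs, Matrix.mul_zero, Matrix.zero_mul, add_zero]
    exact membE hDer hTr hConc hx0 hx1 D.B0 e (hn j₀) (h01 j₀) (h01 j) (D.h1 j₀) (D.h2 j₀) (D.h1 j) (D.h2 j) (D.hqq j j₀ e) (hrel j)
      hX (lkL_bk (D.h1 j₀) _) (hA2 j₀ j) (hA3 j₀ j)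

end monE

variable {k : ℕ} {r : Fin k → ℕ} {n : ∀ i, Fin (r i) → ℕ} {α : ∀ i j, Fin (n i j) → ℚ}

/-- all families -/
theorem monE_Psi (hDer : S_Der) (hTr : S_Tr) (hConc : S_Conc) (hForm : S_Form) (D : ∀ i, Pk (α i))
    (h01 : ∀ i j l, 0 < α i j l ∧ α i j l < 1) (hn : ∀ i j, 2 ≤ n i j) {A : ∀ i j, Matrix (Fin (n i j)) (Fin (n i j)) ℂ}
    (hA : ∀ i, A i ∈ MonE (α i)) : ∃ X ∈ hBB (BBx D), Psi D X = tot A := by
  choose X hX1 hX2 using fun i => monE_mem hDer hTr hConc hForm (D i) (h01 i) (hn i) (hA i)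
  refine ⟨fun a => X a.1 a.2, mem_hBB.2 fun a => hX1 a.1 a.2, ?_⟩
  rw [Psi_apply]
  exact tot_congr fun i j => hX2 i j

/-- **The number of the exceptional tuples, relative version.** -/
theorem countR (w : ℕ) (h01 : ∀ i j l, 0 < α i j l ∧ α i j l < 1) (hn : ∀ i j, 2 ≤ n i j)
    (had : ∀ i j, (cls (α i j) = cls fun l => -α i j l) ∨ ∀ a : ℤ, 2 * ∑ l, α i j l ≠ a) :
    ∃ c C : ℝ, 0 < c ∧ 0 ≤ C ∧ ∀ F : Matrix (Ix n ⊕ Fin w) (Ix n ⊕ Fin w) ℂ, ∀ (x : Fin k → ℕ) (N : ℕ), (∀ i, 1 ≤ x i) → 1 ≤ N →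
      ∀ S : Finset (Fin k → ℕ), (∀ t ∈ S, (∀ i, x i < t i ∧ t i ≤ x i + N) ∧ ¬ GoodP (dlR n (Fin w)) (VsR F) α t) →
      (S.card : ℝ) ≤ C * (N : ℝ) ^ (k - 1) * ∑ i, (1 + N / ((x i : ℝ) + N) ^ c) := by
  obtain ⟨c, C, hc, hC, hmain⟩ := tuplesQ k (dlR n (Fin w))
    ((2 * Fintype.card (Ix n ⊕ Fin w) ^ 2 + 1) ^ (2 * Fintype.card (Ix n ⊕ Fin w) ^ 2)) r n α
    (fun i j => ni_of (h01 i j)) hn had
  refine ⟨c, C, hc, hC, fun F x N hx hN S hS => ?_⟩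
  have hfin : Module.Finite ℚ ↥(VsR F) := (W1_pow_fin F _).1
  refine hmain (VsR F) (W1_pow_fin F _).2 (fun i j => 1) x N hx hN S fun t ht => ?_
  obtain ⟨hbox, hbad⟩ := hS t ht
  refine ⟨hbox, ?_⟩
  unfold GoodP at hbad
  push Not at hbad
  obtain ⟨P, hP, hP0, g, hg, hPg⟩ := hbad
  have ht2 : ∀ i, 2 ≤ t i := fun i => by
    have h1 := hx i
    have h2 := (hbox i).1
    omega
  refine ⟨P, hP.1, hP.2, ?_, fun i => ((Real.log (t i) : ℝ) : ℂ), fun i => Complex.log (1 - 1 / (t i : ℂ)), g, fun i => ?_,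
    fun i j => (hg i).2 j, fun i => (hg i).1, ?_⟩
  · have h1 : (fun i j => Yt (n i j) (QA (α i j)) (t i) * (1 : Matrix (Fin (n i j)) (Fin (n i j)) ℂ)) =
        fun i j => Yx (n i j) (QA (α i j)) (1 / (t i : ℝ)) := by
      funext i j
      rw [Matrix.mul_one, Yt_eq']
    rw [h1]
    exact hP0
  · refine Complex.exp_log ?_
    obtain ⟨h1, h2⟩ := tpos (ht2 i)
    have e4 : (1 - 1 / (t i : ℂ)) = (((1 - 1 / (t i : ℝ) : ℝ)) : ℂ) := by push_cast; rfl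
    rw [e4, Ne, Complex.ofReal_eq_zero]
    linarith
  · have h1 : (fun i j => g i j * (1 : Matrix (Fin (n i j)) (Fin (n i j)) ℂ)) = g := by
      funext i j
      rw [Matrix.mul_one]
    rw [h1]
    exact hPg

end Q207.HG
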