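import Pool.Agent.Q207.HG.Idl
import Pool.Agent.Q207.HM.Qua
import Pool.Agent.Q207.HM.Pkg

/-!
# Project HG: polynomials with coefficients in a space of bounded dimension
-/

set_option autoImplicit false

open Matrix Finset

namespace Q207.HG

section PQ

variable {σ : Type*}

/-- the degree is at most `d` and the coefficients are in `W` -/
def PQ (W : Submodule ℚ ℂ) (d : ℕ) (P : MvPolynomial σ ℂ) : Prop := P.totalDegree ≤ d ∧ ∀ m, P.coeff m ∈ W

variable {W W' : Submodule ℚ ℂ} {d d' : ℕ} {P P' : MvPolynomial σ ℂ}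

lemma PQ.mono (h : PQ W d P) (hW : W ≤ W') (hd : d ≤ d') : PQ W' d' P := ⟨h.1.trans hd, fun m => hW (h.2 m)⟩

lemma PQ.zero : PQ W d (0 : MvPolynomial σ ℂ) := ⟨by rw [MvPolynomial.totalDegree_zero]; exact Nat.zero_le _, fun m => by
  rw [MvPolynomial.coeff_zero]; exact W.zero_mem⟩

lemma PQ.add (h : PQ W d P) (h' : PQ W d P') : PQ W d (P + P') :=
  ⟨(MvPolynomial.totalDegree_add _ _).trans (max_le h.1 h'.1), fun m => by
    rw [MvPolynomial.coeff_add]; exact W.add_mem (h.2 m) (h'.2 m)⟩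

lemma PQ.neg (h : PQ W d P) : PQ W d (-P) :=
  ⟨by rw [MvPolynomial.totalDegree_neg]; exact h.1, fun m => by rw [MvPolynomial.coeff_neg]; exact W.neg_mem (h.2 m)⟩

lemma PQ.sum {ι : Type*} {s : Finset ι} {f : ι → MvPolynomial σ ℂ} (h : ∀ i ∈ s, PQ W d (f i)) : PQ W d (∑ i ∈ s, f i) := by
  classical
  induction s using Finset.induction_on with
  | empty => rw [Finset.sum_empty]; exact PQ.zero
  | insert i s hi ih =>
    rw [Finset.sum_insert hi]
    exact (h i (Finset.mem_insert_self _ _)).add (ih fun j hj => h j (Finset.mem_insert_of_mem hj))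

lemma PQ.mul (h : PQ W d P) (h' : PQ W' d' P') : PQ (W * W') (d + d') (P * P') := by
  classical
  refine ⟨(MvPolynomial.totalDegree_mul _ _).trans (add_le_add h.1 h'.1), fun m => ?_⟩
  rw [MvPolynomial.coeff_mul]
  exact Submodule.sum_mem _ fun x _ => Submodule.mul_mem_mul (h.2 _) (h'.2 _)

lemma PQ.C {c : ℂ} (h : c ∈ W) : PQ W 0 (MvPolynomial.C c : MvPolynomial σ ℂ) := by
  classical
  refine ⟨by rw [MvPolynomial.totalDegree_C], fun m => ?_⟩
  rw [MvPolynomial.coeff_C]
  split_ifs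
  · exact h
  · exact W.zero_mem

lemma one_mem1 : (1 : ℂ) ∈ (1 : Submodule ℚ ℂ) := Submodule.one_le.1 le_rfl

lemma PQ.X (v : σ) : PQ 1 1 (MvPolynomial.X v : MvPolynomial σ ℂ) := by
  classical
  refine ⟨by rw [MvPolynomial.totalDegree_X], fun m => ?_⟩
  rw [MvPolynomial.coeff_X']
  split_ifs
  · exact one_mem1
  · exact Submodule.zero_mem _

lemma PQ.prod {ι : Type*} {s : Finset ι} {f : ι → MvPolynomial σ ℂ} (h : ∀ i ∈ s, PQ W d (f i)) :
    PQ (W ^ s.card) (s.card * d) (∏ i ∈ s, f i) := by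
  classical
  induction s using Finset.induction_on with
  | empty =>
    rw [Finset.prod_empty, Finset.card_empty, pow_zero, Nat.zero_mul, ← MvPolynomial.C_1]
    exact PQ.C one_mem1
  | insert i s hi ih =>
    rw [Finset.prod_insert hi, Finset.card_insert_of_notMem hi, pow_succ', Nat.add_mul, Nat.one_mul, Nat.add_comm]
    exact (h i (Finset.mem_insert_self _ _)).mul (ih fun j hj => h j (Finset.mem_insert_of_mem hj))

lemma PQ.det {κ : Type*} [Fintype κ] [DecidableEq κ] {M : Matrix κ κ (MvPolynomial σ ℂ)} (h : ∀ a b, PQ W d (M a b)) :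
    PQ (W ^ Fintype.card κ) (Fintype.card κ * d) M.det := by
  rw [Matrix.det_apply]
  refine PQ.sum fun τ _ => ?_
  have h1 : PQ (W ^ Fintype.card κ) (Fintype.card κ * d) (∏ i, M (τ i) i) := PQ.prod fun i _ => h _ _
  rcases Int.units_eq_one_or (Equiv.Perm.sign τ) with h2 | h2
  · rw [h2, one_smul]
    exact h1
  · rw [h2, Units.neg_smul, one_smul]
    exact h1.neg

lemma PQ.adj {κ : Type*} [Fintype κ] [DecidableEq κ] {M : Matrix κ κ (MvPolynomial σ ℂ)} (h : ∀ a b, PQ 1 1 (M a b)) (a b : κ) :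
    PQ 1 (Fintype.card κ) (M.adjugate a b) := by
  rw [Matrix.adjugate_apply]
  have h1 : PQ ((1 : Submodule ℚ ℂ) ^ Fintype.card κ) (Fintype.card κ * 1) (M.updateRow b (Pi.single a 1)).det := by
    refine PQ.det fun x y => ?_
    rw [Matrix.updateRow_apply]
    split_ifs with hx
    · by_cases hy : y = a
      · subst hy
        rw [Pi.single_eq_same, ← MvPolynomial.C_1]
        exact (PQ.C one_mem1).mono le_rfl (Nat.zero_le _)
      · rw [Pi.single_eq_of_ne hy]
        exact PQ.zero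
    · exact h x y
  rw [one_pow, mul_one] at h1
  exact h1

lemma PQ.mulM {κ κ' κ'' : Type*} [Fintype κ'] {M : Matrix κ κ' (MvPolynomial σ ℂ)} {M' : Matrix κ' κ'' (MvPolynomial σ ℂ)}
    (h : ∀ a b, PQ W d (M a b)) (h' : ∀ a b, PQ W' d' (M' a b)) (a : κ) (b : κ'') : PQ (W * W') (d + d') ((M * M') a b) := by
  rw [Matrix.mul_apply]
  exact PQ.sum fun c _ => (h a c).mul (h' c b)

end PQ

section space

variable {I : Type} [Fintype I] [DecidableEq I]

/-- the entries of a matrix and its inverse -/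
noncomputable def S1 (C : Matrix I I ℂ) : Finset ℂ := by
  classical
  exact insert 1 ((Finset.univ.image fun x : I × I => C x.1 x.2) ∪ Finset.univ.image fun x : I × I => C⁻¹ x.1 x.2)

/-- the space of the coefficients -/
noncomputable def W1 (C : Matrix I I ℂ) : Submodule ℚ ℂ := Submodule.span ℚ (S1 C : Set ℂ)

lemma W1_one (C : Matrix I I ℂ) : (1 : ℂ) ∈ W1 C := by
  classical
  exact Submodule.subset_span (Finset.mem_coe.2 (Finset.mem_insert_self _ _))

lemma W1_C (C : Matrix I I ℂ) (a b : I) : C a b ∈ W1 C := by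
  classical
  refine Submodule.subset_span (Finset.mem_coe.2 (Finset.mem_insert_of_mem (Finset.mem_union_left _ ?_)))
  exact Finset.mem_image.2 ⟨(a, b), Finset.mem_univ _, rfl⟩

lemma W1_Ci (C : Matrix I I ℂ) (a b : I) : C⁻¹ a b ∈ W1 C := by
  classical
  refine Submodule.subset_span (Finset.mem_coe.2 (Finset.mem_insert_of_mem (Finset.mem_union_right _ ?_)))
  exact Finset.mem_image.2 ⟨(a, b), Finset.mem_univ _, rfl⟩

lemma S1_card (C : Matrix I I ℂ) : (S1 C).card ≤ 2 * Fintype.card I ^ 2 + 1 := by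
  classical
  unfold S1
  refine (Finset.card_insert_le _ _).trans ?_
  refine Nat.succ_le_succ ((Finset.card_union_le _ _).trans ?_)
  have h1 : ∀ f : I × I → ℂ, (Finset.univ.image f).card ≤ Fintype.card I ^ 2 := by
    intro f
    refine Finset.card_image_le.trans ?_
    rw [Finset.card_univ, Fintype.card_prod, sq]
  have h2 := h1 fun x : I × I => C x.1 x.2
  have h3 := h1 fun x : I × I => C⁻¹ x.1 x.2
  omega

lemma W1_pow_mono (C : Matrix I I ℂ) {m n : ℕ} (h : m ≤ n) : W1 C ^ m ≤ W1 C ^ n :=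
  pow_right_mono₀ (Submodule.one_le.2 (W1_one C)) h

open Pointwise in
lemma W1_pow_fin (C : Matrix I I ℂ) (m : ℕ) :
    Module.Finite ℚ ↥(W1 C ^ m) ∧ Module.finrank ℚ ↥(W1 C ^ m) ≤ (2 * Fintype.card I ^ 2 + 1) ^ m := by
  classical
  have h1 : W1 C ^ m = Submodule.span ℚ (((S1 C) ^ m : Finset ℂ) : Set ℂ) := by
    unfold W1
    rw [Submodule.span_pow, Finset.coe_pow]
  rw [h1]
  refine ⟨inferInstance, (finrank_span_finset_le_card _).trans ?_⟩
  refine Finset.card_pow_le.trans ?_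
  exact Nat.pow_le_pow_left (S1_card C) m

/-- the conjugate of a rational matrix has entries in the space -/
lemma conj_mem (C : Matrix I I ℂ) (X : Matrix I I ℚ) (a b : I) : (C * X.map (algebraMap ℚ ℂ) * C⁻¹) a b ∈ W1 C ^ 2 := by
  rw [Matrix.mul_apply]
  refine Submodule.sum_mem _ fun c _ => ?_
  rw [pow_two]
  refine Submodule.mul_mem_mul ?_ (W1_Ci C c b)
  rw [Matrix.mul_apply]
  refine Submodule.sum_mem _ fun d _ => ?_
  rw [Matrix.map_apply, mul_comm]
  have : (algebraMap ℚ ℂ) (X d c) * C a d = X d c • C a d := by rw [Algebra.smul_def]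
  rw [this]
  exact (W1 C).smul_mem _ (W1_C C a d)

end space

end Q207.HG
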