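import Pool.Agent.Q207.HG.Yex

/-!
# Project HG: the grading element comes from the Lie algebra, the whole family
-/

set_option autoImplicit false

open Matrix Finset

namespace Q207.HG

open Q207.HM (lk Yx QA cls QG_QA cls_size cls_neg)
open Pool.Agent.Y123.GN (Clf)
open Pool.Agent.Y119.HZ (evq)

lemma memb (hDer : S_Der) (hTr : S_Tr) (hConc : S_Conc) {x : ℝ} (hx0 : 0 < x) (hx1 : x < 1) {r' : ℕ} {m : Fin r' → ℕ}
    {B : ∀ a, Matrix (Fin (m a)) (Fin (m a)) ℂ} (hB0 : ∀ a, B a = 0 ∨ IsUnit (B a)) {a b : Fin r'} (e : b = a) {n n' : ℕ}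
    (hn : 2 ≤ n) {α : Fin n → ℚ} {α' : Fin n' → ℚ} (h : ∀ i, 0 < α i ∧ α i < 1) (h' : ∀ i, 0 < α' i ∧ α' i < 1) {d d' : Bool}
    {P : Matrix (Fin n) (Fin (m a)) ℂ} {P' : Matrix (Fin (m a)) (Fin n) ℂ} {R : Matrix (Fin n') (Fin (m b)) ℂ}
    {R' : Matrix (Fin (m b)) (Fin n') ℂ} (hP1 : P * P' = 1) (hP2 : P' * P = 1) (hR1 : R * R' = 1) (hR2 : R' * R = 1)
    (hc : cls α' = cls α ∨ cls α' = cls fun i => -α i)
    (hrel : ∀ κ : ∀ a, Matrix (Fin (m a)) (Fin (m a)) ℂ, (∀ a, κ a ∈ GBs (B a)) →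
      LinX (QA α) (QA α') x (Yx n (QA α) x * lk d P P' (κ a)) (Yx n' (QA α') x * lk d' R R' (κ b)) ∧
      BilX (QA α) (QA α') x (Yx n (QA α) x * lk d P P' (κ a)) (Yx n' (QA α') x * lk d' R R' (κ b)))
    {X : Matrix (Fin (m a)) (Fin (m a)) ℂ} (hX : X ∈ hB (B a))
    (hG : Grd (lv n) (Yx n (QA α) x * lkL d P P' X * (Yx n (QA α) x)⁻¹)) :
    Grd (lv n') (Yx n' (QA α') x * lkL d' R R' (e ▸ X) * (Yx n' (QA α') x)⁻¹) := by
  classical
  subst e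
  have hnn : n' = n := by
    rcases hc with h1 | h1
    · exact cls_size h1
    · exact cls_size h1
  subst hnn
  have hrel' : ∀ κ ∈ GBs (B b),
      LinX (QA α) (QA α') x (Yx n' (QA α) x * lk d P P' κ) (Yx n' (QA α') x * lk d' R R' κ) ∧
      BilX (QA α) (QA α') x (Yx n' (QA α) x * lk d P P' κ) (Yx n' (QA α') x * lk d' R R' κ) := by
    intro κ hκ
    have h1 := hrel (Function.update (fun _ => 1) b κ) fun c => by
      by_cases hcb : c = b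
      · subst hcb
        rw [Function.update_self]
        exact hκ
      · rw [Function.update_of_ne hcb]
        exact GBs_one
    rw [Function.update_self] at h1
    exact h1
  rcases hc with h1 | h1
  · exact eq_case hDer hTr hx0 hx1 hn h (QA_cls h' h h1) hP1 hP2 hR1 hR2 (hB0 b) (fun κ hκ => (hrel' κ hκ).1) hX hG
  · exact dual_case hDer hTr hConc hx0 hx1 hn h h' (QA_cls_neg h' h h1) hP1 hP2 hR1 hR2 (hB0 b) (fun κ hκ => (hrel' κ hκ).2) hX hG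

/-- the first member of the class -/
lemma first (hDer : S_Der) (hTr : S_Tr) (hConc : S_Conc) (hForm : S_Form) {x : ℝ} (hx0 : 0 < x) (hx1 : x < 1) {m n : ℕ} (hn : 2 ≤ n)
    {α : Fin n → ℚ} (h : ∀ i, 0 < α i ∧ α i < 1) {B : Matrix (Fin m) (Fin m) ℂ} (hBc : Clf B)
    (hsy : cls α = (cls fun i => -α i) → IsUnit B) (hns : ¬ cls α = (cls fun i => -α i) → B = 0) {d : Bool}
    {P : Matrix (Fin n) (Fin m) ℂ} {P' : Matrix (Fin m) (Fin n) ℂ} (hP1 : P * P' = 1) (hP2 : P' * P = 1)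
    (hrel : ∀ κ ∈ GBs B, BilX (QA α) (QA α) x (Yx n (QA α) x * lk d P P' κ) (Yx n (QA α) x * lk d P P' κ)) :
    ∃ y ∈ hB B, y.charpoly = ∏ a : Fin m, (Polynomial.X - Polynomial.C (((m : ℂ) - 1) - 2 * ((a : ℕ) : ℂ))) ∧
      Grd (lv n) (Yx n (QA α) x * lkL d P P' y * (Yx n (QA α) x)⁻¹) := by
  have hYU := Yx_unit hn h hx0 hx1
  have hYu := (Matrix.isUnit_iff_isUnit_det _).1 hYU
  have hm : m = n := size_eq hP1 hP2
  set Y := Yx n (QA α) x with hY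
  have hback : ∀ T : Matrix (Fin n) (Fin n) ℂ, Y * lkL d P P' (bk d P P' (Y⁻¹ * T * Y)) * Y⁻¹ = T := by
    intro T
    rw [lkL_bk hP1]
    calc Y * (Y⁻¹ * T * Y) * Y⁻¹ = (Y * Y⁻¹) * T * (Y * Y⁻¹) := by simp only [Matrix.mul_assoc]
      _ = T := by rw [Matrix.mul_nonsing_inv _ hYu, Matrix.one_mul, Matrix.mul_one]
  have htr : ∀ T : Matrix (Fin n) (Fin n) ℂ, Grd (lv n) T → (bk d P P' (Y⁻¹ * T * Y)).trace = 0 := by
    intro T hT
    refine bk_trace hP1 _ ?_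
    rw [Matrix.trace_mul_comm, ← Matrix.mul_assoc, Matrix.mul_nonsing_inv _ hYu, Matrix.one_mul]
    exact grd_trace hT
  by_cases hs : cls α = cls fun i => -α i
  · have hBu := hsy hs
    have hQ : QA α = QA fun i => 1 - α i := QA_cls_neg h h hs
    set N := Nn n (QA α) (x : ℂ) with hN
    have hYN : Yᵀ * N * Y = K0 n := conc_Y hConc hx0 hx1 hn h hQ
    have hYt : IsUnit (Yᵀ).det := by rw [Matrix.det_transpose]; exact hYu
    obtain ⟨hNu, -⟩ := dual_alg (A := (1 : Matrix (Fin n) (Fin n) ℂ)) hYu hYu ((Matrix.isUnit_iff_isUnit_det _).1 (K0_unit (n := n))) hYN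
    have hNt : Nᵀ = ((-1 : ℂ) ^ (n - 1)) • N := by
      have e1 : Yᵀ * Nᵀ * Y = ((-1 : ℂ) ^ (n - 1)) • (Yᵀ * N * Y) := by
        rw [hYN, ← K0_tr, ← hYN, Matrix.transpose_mul, Matrix.transpose_mul, Matrix.transpose_transpose, Matrix.mul_assoc]
      calc Nᵀ = ((Yᵀ)⁻¹ * Yᵀ) * Nᵀ * (Y * Y⁻¹) := by
            rw [Matrix.nonsing_inv_mul _ hYt, Matrix.mul_nonsing_inv _ hYu, Matrix.one_mul, Matrix.mul_one]
        _ = (Yᵀ)⁻¹ * (Yᵀ * Nᵀ * Y) * Y⁻¹ := by simp only [Matrix.mul_assoc]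
        _ = ((-1 : ℂ) ^ (n - 1)) • (((Yᵀ)⁻¹ * Yᵀ) * N * (Y * Y⁻¹)) := by
            rw [e1, Matrix.mul_smul, Matrix.smul_mul]
            simp only [Matrix.mul_assoc]
        _ = _ := by rw [Matrix.nonsing_inv_mul _ hYt, Matrix.mul_nonsing_inv _ hYu, Matrix.one_mul, Matrix.mul_one]
    have hQm := QG_QA hn (α := α) fun l a h0 => ni_of h l a h0.symm
    have hco : (QA α).coeff n = 1 := by
      have h6 := hQm.monic
      have h7 := hQm.deg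
      rw [Polynomial.Monic, Polynomial.leadingCoeff, h7] at h6
      exact h6
    have hz1 : (x : ℂ) ≠ 1 := by
      rw [Ne, Complex.ofReal_eq_one]
      exact hx1.ne
    set T : Matrix (Fin n) (Fin n) ℂ := (1 / 2 : ℂ) • (E0 n + -(N⁻¹ * (E0 n)ᵀ * N)) with hT
    have hTg : Grd (lv n) T := grd_half E0_grd (tri (fun a b hab => Nn_low _ _ a b hab) (fun a b hab => Nn_anti hco _ hz1 a b hab) hNu E0_grd)
    have hTf : Tᵀ * N + N * T = 0 := form_el hNu hNt (E0 n)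
    refine ⟨bk d P P' (Y⁻¹ * T * Y), ⟨htr T hTg, ?_⟩, bk_charpoly hP1 hP2 hYU rfl hTg, by rw [hback]; exact hTg⟩
    refine bk_form hForm (by omega) hP1 hP2 hBc hBu K0_unit (fun κ hκ => conc_inv hConc hx0 hx1 hn h hQ (hrel κ hκ)) ?_
    rw [← hYN, Matrix.transpose_mul, Matrix.transpose_mul]
    have e1 : (Y⁻¹)ᵀ * Yᵀ = 1 := by rw [← Matrix.transpose_mul, Matrix.mul_nonsing_inv _ hYu, Matrix.transpose_one]
    calc Yᵀ * (Tᵀ * (Y⁻¹)ᵀ) * (Yᵀ * N * Y) + Yᵀ * N * Y * (Y⁻¹ * T * Y) =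
          Yᵀ * Tᵀ * ((Y⁻¹)ᵀ * Yᵀ) * N * Y + Yᵀ * N * (Y * Y⁻¹) * T * Y := by simp only [Matrix.mul_assoc]
      _ = Yᵀ * (Tᵀ * N + N * T) * Y := by
          rw [e1, Matrix.mul_nonsing_inv _ hYu, Matrix.mul_one, Matrix.mul_one, Matrix.mul_add, Matrix.add_mul]
          simp only [Matrix.mul_assoc]
      _ = 0 := by rw [hTf, Matrix.mul_zero, Matrix.zero_mul]
  · have hB0 := hns hs
    refine ⟨bk d P P' (Y⁻¹ * E0 n * Y), ⟨htr _ E0_grd, ?_⟩, bk_charpoly hP1 hP2 hYU rfl E0_grd, by rw [hback]; exact E0_grd⟩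
    rw [hB0, Matrix.mul_zero, Matrix.zero_mul, add_zero]

/-- **The grading element comes from the Lie algebra.** -/
theorem yex (hDer : S_Der) (hTr : S_Tr) (hConc : S_Conc) (hForm : S_Form) {r : ℕ} {n : Fin r → ℕ} {α : ∀ j, Fin (n j) → ℚ}
    (h : ∀ j i, 0 < α j i ∧ α j i < 1) (hn : ∀ j, 2 ≤ n j) {r' : ℕ} {m : Fin r' → ℕ} {B : ∀ a, Matrix (Fin (m a)) (Fin (m a)) ℂ}
    {q : Fin r → Fin r'} {d : Fin r → Bool} {P : ∀ j, Matrix (Fin (n j)) (Fin (m (q j))) ℂ}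
    {P' : ∀ j, Matrix (Fin (m (q j))) (Fin (n j)) ℂ} (hq : Function.Surjective q)
    (hsy : ∀ j, cls (α j) = (cls fun i => -α j i) → IsUnit (B (q j)))
    (hns : ∀ j, ¬ cls (α j) = (cls fun i => -α j i) → B (q j) = 0)
    (hqq : ∀ j j', q j = q j' → cls (α j) = cls (α j') ∨ cls (α j) = cls fun i => -α j' i)
    (hcl : ∀ a, Clf (B a)) (hP1 : ∀ j, P j * P' j = 1) (hP2 : ∀ j, P' j * P j = 1) {x : ℝ} (hx0 : 0 < x) (hx1 : x < 1)
    (hT : ∀ κ : ∀ a, Matrix (Fin (m a)) (Fin (m a)) ℂ, (∀ a, (κ a).det = 1 ∧ (κ a)ᵀ * B a * κ a = B a) →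
      QuadX α x (fun j => Yx (n j) (QA (α j)) x * lk (d j) (P j) (P' j) (κ (q j)))) :
    ∃ y : ∀ a, Matrix (Fin (m a)) (Fin (m a)) ℂ, (∀ a, y a ∈ hB (B a)) ∧
      (∀ a, (y a).charpoly = ∏ b : Fin (m a), (Polynomial.X - Polynomial.C (((m a : ℂ) - 1) - 2 * ((b : ℕ) : ℂ)))) ∧
      ∀ j, Grd (lv (n j)) (Yx (n j) (QA (α j)) x * lkL (d j) (P j) (P' j) (y (q j)) *
        (Yx (n j) (QA (α j)) x)⁻¹) := by
  classical
  have hB0 : ∀ a, B a = 0 ∨ IsUnit (B a) := by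
    intro a
    rcases hcl a with h1 | ⟨h1, -⟩ | ⟨h1, -, -⟩
    · exact Or.inl h1
    · exact Or.inr h1
    · exact Or.inr h1
  suffices hs : ∀ a, ∃ y ∈ hB (B a), y.charpoly = ∏ b : Fin (m a), (Polynomial.X - Polynomial.C (((m a : ℂ) - 1) - 2 * ((b : ℕ) : ℂ))) ∧
      ∀ j, ∀ e : q j = a, Grd (lv (n j)) (Yx (n j) (QA (α j)) x * lkL (d j) (P j) (P' j) (e ▸ y) *
        (Yx (n j) (QA (α j)) x)⁻¹) by
    choose y hy1 hy2 hy3 using hs
    exact ⟨y, hy1, hy2, fun j => hy3 (q j) j rfl⟩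
  intro a
  obtain ⟨j₀, rfl⟩ := hq a
  have hrel : ∀ j, ∀ κ : ∀ a, Matrix (Fin (m a)) (Fin (m a)) ℂ, (∀ a, κ a ∈ GBs (B a)) →
      LinX (QA (α j₀)) (QA (α j)) x (Yx (n j₀) (QA (α j₀)) x * lk (d j₀) (P j₀) (P' j₀) (κ (q j₀)))
        (Yx (n j) (QA (α j)) x * lk (d j) (P j) (P' j) (κ (q j))) ∧
      BilX (QA (α j₀)) (QA (α j)) x (Yx (n j₀) (QA (α j₀)) x * lk (d j₀) (P j₀) (P' j₀) (κ (q j₀)))
        (Yx (n j) (QA (α j)) x * lk (d j) (P j) (P' j) (κ (q j))) := by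
    intro j κ hκ
    have h1 := hT κ hκ
    exact ⟨h1.lin j₀ j, h1.bil j₀ j⟩
  obtain ⟨y, hy1, hy2, hy3⟩ := first hDer hTr hConc hForm hx0 hx1 (hn j₀) (h j₀) (hcl (q j₀)) (hsy j₀) (hns j₀) (hP1 j₀) (hP2 j₀)
    (d := d j₀) (fun κ hκ => by
      have h1 := (hrel j₀ (Function.update (fun _ => 1) (q j₀) κ) fun c => by
        by_cases hcb : c = q j₀
        · subst hcb
          rw [Function.update_self]
          exact hκ
        · rw [Function.update_of_ne hcb]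
          exact GBs_one).2
      rw [Function.update_self] at h1
      exact h1)
  refine ⟨y, hy1, hy2, fun j e => ?_⟩
  exact memb hDer hTr hConc hx0 hx1 hB0 e (hn j₀) (h j₀) (h j) (hP1 j₀) (hP2 j₀) (hP1 j) (hP2 j) (hqq j j₀ e) (hrel j) hy1 hy3

end Q207.HG
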