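import Pool.Agent.Q207.HG.Tra
import Pool.Agent.Q207.HG.Yex2

/-!
# Project HG: the Lie algebra and the group of the whole family
-/

set_option autoImplicit false

open Matrix Finset

namespace Q207.HG

open Q207.HM (lk Yx QA cls Lin Bil TP QuadT tpos QG_QA det_Yt cls_size cls_neg pkg3)
open Pool.Agent.Y123.GN (Clf)

/-- the data of one family -/
structure Pk {r : ℕ} {n : Fin r → ℕ} (α : ∀ j, Fin (n j) → ℚ) where
  r' : ℕ
  m : Fin r' → ℕ
  B : ∀ a, Matrix (Fin (m a)) (Fin (m a)) ℂ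
  q : Fin r → Fin r'
  d : Fin r → Bool
  P : ∀ j, Matrix (Fin (n j)) (Fin (m (q j))) ℂ
  P' : ∀ j, Matrix (Fin (m (q j))) (Fin (n j)) ℂ
  hq : Function.Surjective q
  hsy : ∀ j, cls (α j) = (cls fun i => -α j i) → IsUnit (B (q j))
  hns : ∀ j, ¬ cls (α j) = (cls fun i => -α j i) → B (q j) = 0
  hod : ∀ a, IsUnit (B a) → (B a)ᵀ = B a → Odd (m a)
  hqq : ∀ j j', q j = q j' → cls (α j) = cls (α j') ∨ cls (α j) = cls fun i => -α j' i
  hcl : ∀ a, Clf (B a)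
  h1 : ∀ j, P j * P' j = 1
  h2 : ∀ j, P' j * P j = 1
  hT : ∀ κ : ∀ a, Matrix (Fin (m a)) (Fin (m a)) ℂ, (∀ a, κ a ∈ GBs (B a)) → ∀ t : ℕ, 2 ≤ t →
    (fun j => Yx (n j) (QA (α j)) (1 / (t : ℝ)) * lk (d j) (P j) (P' j) (κ (q j))) ∈ TP α t
  hX : ∀ κ : ∀ a, Matrix (Fin (m a)) (Fin (m a)) ℂ, (∀ a, κ a ∈ GBs (B a)) → ∀ x : ℝ, 0 < x → x < 1 →
    QuadX α x (fun j => Yx (n j) (QA (α j)) x * lk (d j) (P j) (P' j) (κ (q j)))
  hS : ∀ t : ℕ, 2 ≤ t → ∀ g ∈ TP α t, ∃ κ : ∀ a, Matrix (Fin (m a)) (Fin (m a)) ℂ, (∀ a, κ a ∈ GBs (B a)) ∧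
    ∀ j, g j = Yx (n j) (QA (α j)) (1 / (t : ℝ)) * lk (d j) (P j) (P' j) (κ (q j))

theorem pk_exists {r : ℕ} {n : Fin r → ℕ} {α : ∀ j, Fin (n j) → ℚ} (h : ∀ j i, 0 < α j i ∧ α j i < 1) (hn : ∀ j, 2 ≤ n j)
    (had : ∀ j, (cls (α j) = cls fun i => -α j i) ∨ ∀ a : ℤ, 2 * ∑ i, α j i ≠ a) : Nonempty (Pk α) := by
  obtain ⟨r', m, B, q, d, P, P', hq, hsy, hns, hod, hqq, hcl, h1, h2, hT, hX, hS⟩ := pkg3 (fun j i => ni_of (h j) i) hn had
  exact ⟨⟨r', m, B, q, d, P, P', hq, hsy, hns, hod, hqq, hcl, h1, h2, hT, hX, hS⟩⟩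

section

variable {r : ℕ} {n : Fin r → ℕ} {α : ∀ j, Fin (n j) → ℚ}

lemma Pk.size (D : Pk α) (j : Fin r) : D.m (D.q j) = n j := size_eq (D.h1 j) (D.h2 j)

lemma Pk.two (D : Pk α) (hn : ∀ j, 2 ≤ n j) (a : Fin D.r') : 2 ≤ D.m a := by
  obtain ⟨j, rfl⟩ := D.hq a
  rw [D.size]
  exact hn j

lemma Pk.B0 (D : Pk α) (a : Fin D.r') : D.B a = 0 ∨ IsUnit (D.B a) := by
  rcases D.hcl a with h1 | ⟨h1, -⟩ | ⟨h1, -, -⟩
  · exact Or.inl h1
  · exact Or.inr h1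
  · exact Or.inr h1

end

section lks

variable {m n : ℕ} {d : Bool} {P : Matrix (Fin n) (Fin m) ℂ} {P' : Matrix (Fin m) (Fin n) ℂ}

lemma lk_mul (h2 : P' * P = 1) (κ κ' : Matrix (Fin m) (Fin m) ℂ) : lk d P P' (κ * κ') = lk d P P' κ * lk d P P' κ' := by
  have key : ∀ A B : Matrix (Fin m) (Fin m) ℂ, (P * A * P') * (P * B * P') = P * (A * B) * P' := by
    intro A B
    calc (P * A * P') * (P * B * P') = P * A * (P' * P) * B * P' := by simp only [Matrix.mul_assoc]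
      _ = _ := by rw [h2, Matrix.mul_one]; simp only [Matrix.mul_assoc]
  unfold lk
  rw [key]
  split_ifs
  · rw [Matrix.mul_inv_rev, Matrix.transpose_mul]
  · rfl

lemma lk_one (h1 : P * P' = 1) : lk d P P' 1 = 1 := by
  unfold lk
  split_ifs
  · rw [inv_one, Matrix.transpose_one, Matrix.mul_one, h1]
  · rw [Matrix.mul_one, h1]

lemma lk_conj (h2 : P' * P = 1) {κ : Matrix (Fin m) (Fin m) ℂ} (hκ : IsUnit κ.det) (y : Matrix (Fin m) (Fin m) ℂ) :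
    lkL d P P' y * lk d P P' κ = lk d P P' κ * lkL d P P' (κ⁻¹ * y * κ) := by
  have key : ∀ A B : Matrix (Fin m) (Fin m) ℂ, (P * A * P') * (P * B * P') = P * (A * B) * P' := by
    intro A B
    calc (P * A * P') * (P * B * P') = P * A * (P' * P) * B * P' := by simp only [Matrix.mul_assoc]
      _ = _ := by rw [h2, Matrix.mul_one]; simp only [Matrix.mul_assoc]
  unfold lk lkL
  rw [key, key]
  split_ifs
  · rw [Matrix.transpose_mul, Matrix.transpose_mul]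
    have e1 : (κ⁻¹)ᵀ * κᵀ = 1 := by rw [← Matrix.transpose_mul, Matrix.mul_nonsing_inv _ hκ, Matrix.transpose_one]
    have e2 : (κ⁻¹)ᵀ * -(κᵀ * (yᵀ * (κ⁻¹)ᵀ)) = -yᵀ * (κ⁻¹)ᵀ := by
      rw [Matrix.mul_neg, ← Matrix.mul_assoc, e1, Matrix.one_mul, Matrix.neg_mul]
    rw [e2]
  · have e1 : κ * (κ⁻¹ * y * κ) = y * κ := by
      rw [← Matrix.mul_assoc, ← Matrix.mul_assoc, Matrix.mul_nonsing_inv _ hκ, Matrix.one_mul]
    rw [e1]

lemma lk_det1 (h1 : P * P' = 1) (h2 : P' * P = 1) {κ : Matrix (Fin m) (Fin m) ℂ} (hκ : κ.det = 1) : (lk d P P' κ).det = 1 :=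
  Q207.HM.lk_det h1 h2 hκ

end lks

variable {k : ℕ} {r : Fin k → ℕ} {n : ∀ i, Fin (r i) → ℕ} {α : ∀ i j, Fin (n i j) → ℚ}

/-- the sizes -/
abbrev mu (D : ∀ i, Pk (α i)) : (Σ i : Fin k, Fin ((D i).r')) → ℕ := fun a => (D a.1).m a.2

/-- the forms -/
def BBx (D : ∀ i, Pk (α i)) : Tu (mu D) := fun a => (D a.1).B a.2

/-- the map of the Lie algebras -/
noncomputable def Psi (D : ∀ i, Pk (α i)) : Tu (mu D) →ₗ[ℂ] Matrix (Ix n) (Ix n) ℂ where
  toFun X := tot fun i j => lkL ((D i).d j) ((D i).P j) ((D i).P' j) (X ⟨i, (D i).q j⟩)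
  map_add' X Y := by
    unfold tot
    rw [← blockDiagonal'_add]
    refine congrArg blockDiagonal' (funext fun x => ?_)
    exact lkL_add _ _
  map_smul' c X := by
    unfold tot
    rw [← blockDiagonal'_smul]
    refine congrArg blockDiagonal' (funext fun x => ?_)
    exact lkL_smul _ _

/-- the map of the groups -/
noncomputable def PsG (D : ∀ i, Pk (α i)) (κ : Tu (mu D)) : Matrix (Ix n) (Ix n) ℂ :=
  tot fun i j => lk ((D i).d j) ((D i).P j) ((D i).P' j) (κ ⟨i, (D i).q j⟩)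

lemma Psi_apply (D : ∀ i, Pk (α i)) (X : Tu (mu D)) :
    Psi D X = tot fun i j => lkL ((D i).d j) ((D i).P j) ((D i).P' j) (X ⟨i, (D i).q j⟩) := rfl

lemma PsG_apply (D : ∀ i, Pk (α i)) (κ : Tu (mu D)) :
    PsG D κ = tot fun i j => lk ((D i).d j) ((D i).P j) ((D i).P' j) (κ ⟨i, (D i).q j⟩) := rfl

lemma tot_mul (X Y : ∀ i j, Matrix (Fin (n i j)) (Fin (n i j)) ℂ) : tot X * tot Y = tot fun i j => X i j * Y i j := by
  unfold tot
  rw [← blockDiagonal'_mul]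

lemma tot_sub (X Y : ∀ i j, Matrix (Fin (n i j)) (Fin (n i j)) ℂ) : tot X - tot Y = tot fun i j => X i j - Y i j := by
  unfold tot
  rw [← blockDiagonal'_sub]
  rfl

lemma tot_one : tot (fun i j => (1 : Matrix (Fin (n i j)) (Fin (n i j)) ℂ)) = 1 := by
  exact blockDiagonal'_one

lemma tot_congr {X Y : ∀ i j, Matrix (Fin (n i j)) (Fin (n i j)) ℂ} (h : ∀ i j, X i j = Y i j) : tot X = tot Y := by
  have h1 : X = Y := funext fun i => funext fun j => h i j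
  rw [h1]

lemma Psi_br (D : ∀ i, Pk (α i)) (X Y : Tu (mu D)) : Psi D (X * Y - Y * X) = Psi D X * Psi D Y - Psi D Y * Psi D X := by
  rw [Psi_apply, Psi_apply, Psi_apply, tot_mul, tot_mul, tot_sub]
  exact tot_congr fun i j => lkL_br ((D i).h2 j) _ _

lemma PsG_mul (D : ∀ i, Pk (α i)) (κ κ' : Tu (mu D)) : PsG D (κ * κ') = PsG D κ * PsG D κ' := by
  rw [PsG_apply, PsG_apply, PsG_apply, tot_mul]
  exact tot_congr fun i j => lk_mul ((D i).h2 j) _ _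

lemma PsG_one (D : ∀ i, Pk (α i)) : PsG D (fun _ => 1) = 1 := by
  rw [PsG_apply, ← tot_one]
  exact tot_congr fun i j => lk_one ((D i).h1 j)

lemma PsG_conj (D : ∀ i, Pk (α i)) {κ : Tu (mu D)} (hκ : ∀ a, IsUnit (κ a).det) (y : Tu (mu D)) :
    Psi D y * PsG D κ = PsG D κ * Psi D (fun a => (κ a)⁻¹ * y a * κ a) := by
  rw [Psi_apply, Psi_apply, PsG_apply, tot_mul, tot_mul]
  exact tot_congr fun i j => lk_conj ((D i).h2 j) (hκ _) _

section expb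

attribute [local instance] Matrix.linftyOpNormedRing Matrix.linftyOpNormedAlgebra

lemma exp_tot (X : ∀ i j, Matrix (Fin (n i j)) (Fin (n i j)) ℂ) :
    NormedSpace.exp (tot X) = tot fun i j => NormedSpace.exp (X i j) := by
  unfold tot
  rw [Matrix.exp_blockDiagonal']
  refine congrArg blockDiagonal' (funext fun x => ?_)
  exact Pi.coe_exp _ _

end expb

lemma exp_Psi (D : ∀ i, Pk (α i)) (X : Tu (mu D)) (z : ℂ) :
    NormedSpace.exp (z • Psi D X) = PsG D (fun a => NormedSpace.exp (z • X a)) := by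
  rw [← map_smul, Psi_apply, exp_tot, PsG_apply]
  refine tot_congr fun i j => ?_
  rw [lk_exp ((D i).h1 j) ((D i).h2 j)]
  congr 1
  exact lkL_smul z _

end Q207.HG
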