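import Pool.Agent.Q207.HG.Idl
import Pool.Agent.Q207.HM.Qua
import Pool.Agent.Q207.HM.Pkg

/-!
# Project HG: relations of degree at most two at a real point
-/

set_option autoImplicit false

open PowerSeries Pool.Agent.Y113

namespace Q207.HG

open Q207.HM (Yx QA valQ C_X_deg)
open Pool.Agent.Y119.HZ (evq)

/-- the linear relations over the field of rational functions hold -/
def LinX {m n : ℕ} (Q : Polynomial ℚ) (Q' : Polynomial ℚ) (x : ℝ) (g : Matrix (Fin m) (Fin m) ℂ) (g' : Matrix (Fin n) (Fin n) ℂ) : Prop :=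
  ∀ (N : Matrix (Fin n) (Fin m) (Polynomial ℚ)) (d : Polynomial ℚ) (c : Matrix (Fin n) (Fin m) ℚ),
    (∀ x : ℝ, 0 < x → x < 1 → evq (x : ℂ) d • (Yx n Q' x * c.map (algebraMap ℚ ℂ)) = N.map (evq (x : ℂ)) * Yx m Q x) →
    evq (x : ℂ) d • (g' * c.map (algebraMap ℚ ℂ)) = N.map (evq (x : ℂ)) * g

/-- the bilinear relations over the field of rational functions hold -/
def BilX {m n : ℕ} (Q : Polynomial ℚ) (Q' : Polynomial ℚ) (x : ℝ) (g : Matrix (Fin m) (Fin m) ℂ) (g' : Matrix (Fin n) (Fin n) ℂ) : Prop :=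
  ∀ (N : Matrix (Fin m) (Fin n) (Polynomial ℚ)) (d : Polynomial ℚ) (c : Matrix (Fin m) (Fin n) ℚ),
    (∀ x : ℝ, 0 < x → x < 1 → (Yx m Q x).transpose * N.map (evq (x : ℂ)) * Yx n Q' x = evq (x : ℂ) d • c.map (algebraMap ℚ ℂ)) →
    g.transpose * N.map (evq (x : ℂ)) * g' = evq (x : ℂ) d • c.map (algebraMap ℚ ℂ)

variable {r : ℕ} {n : Fin r → ℕ}

/-- the functional relations of degree at most two hold -/
def QuadX (α : ∀ j, Fin (n j) → ℚ) (x : ℝ) (g : ∀ j, Matrix (Fin (n j)) (Fin (n j)) ℂ) : Prop :=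
  ∀ R : MvPolynomial (Σ j : Fin r, Fin (n j) × Fin (n j)) (Polynomial ℚ), R.totalDegree ≤ 2 →
    (∀ x : ℝ, 0 < x → x < 1 → valQ R (x : ℂ) (fun j => Yx (n j) (QA (α j)) x) = 0) → valQ R (x : ℂ) g = 0

/-- linear relations -/
lemma QuadX.lin {α : ∀ j, Fin (n j) → ℚ} {x : ℝ} {g : ∀ j, Matrix (Fin (n j)) (Fin (n j)) ℂ} (h : QuadX α x g) (j j' : Fin r) :
    LinX (QA (α j)) (QA (α j')) x (g j) (g j') := by
  intro N d c hN
  ext a b
  set R : MvPolynomial (Σ j : Fin r, Fin (n j) × Fin (n j)) (Polynomial ℚ) :=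
    ∑ k, MvPolynomial.C (d * Polynomial.C (c k b)) * MvPolynomial.X ⟨j', (a, k)⟩ -
      ∑ k, MvPolynomial.C (N a k) * MvPolynomial.X ⟨j, (k, b)⟩ with hR
  have hC : ∀ (z : ℂ) (q : ℚ), evq z (Polynomial.C q) = (q : ℂ) := by
    intro z q
    unfold evq
    simp
  have hval : ∀ (z : ℂ) (g : ∀ j, Matrix (Fin (n j)) (Fin (n j)) ℂ), valQ R z g =
      (evq z d • (g j' * c.map (algebraMap ℚ ℂ)) - N.map (evq z) * g j) a b := by
    intro z g
    unfold valQ
    rw [hR, MvPolynomial.eval₂_sub, MvPolynomial.eval₂_sum, MvPolynomial.eval₂_sum, Matrix.sub_apply, Matrix.smul_apply,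
      Matrix.mul_apply, Matrix.mul_apply, smul_eq_mul, Finset.mul_sum]
    congr 1
    · refine Finset.sum_congr rfl fun k _ => ?_
      rw [MvPolynomial.eval₂_mul, MvPolynomial.eval₂_C, MvPolynomial.eval₂_X, map_mul, hC, Matrix.map_apply]
      show _ = evq z d * (g j' a k * ((c k b : ℚ) : ℂ))
      ring
    · refine Finset.sum_congr rfl fun k _ => ?_
      rw [MvPolynomial.eval₂_mul, MvPolynomial.eval₂_C, MvPolynomial.eval₂_X, Matrix.map_apply]
  have h1 := h R ?_ fun x hx hx1 => ?_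
  · rw [hval, Matrix.sub_apply, sub_eq_zero] at h1
    exact h1
  · rw [hR]
    refine (MvPolynomial.totalDegree_sub _ _).trans (max_le ?_ ?_)
    · refine (MvPolynomial.totalDegree_finsetSum _ _).trans (Finset.sup_le fun k _ => ?_)
      exact (C_X_deg _ _).trans (by norm_num)
    · refine (MvPolynomial.totalDegree_finsetSum _ _).trans (Finset.sup_le fun k _ => ?_)
      exact (C_X_deg _ _).trans (by norm_num)
  · rw [hval, hN _ hx hx1, sub_self, Matrix.zero_apply]

/-- bilinear relations -/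
lemma QuadX.bil {α : ∀ j, Fin (n j) → ℚ} {x : ℝ} {g : ∀ j, Matrix (Fin (n j)) (Fin (n j)) ℂ} (h : QuadX α x g) (j j' : Fin r) :
    BilX (QA (α j)) (QA (α j')) x (g j) (g j') := by
  intro N d c hN
  ext a b
  set R : MvPolynomial (Σ j : Fin r, Fin (n j) × Fin (n j)) (Polynomial ℚ) :=
    ∑ l, (∑ k, MvPolynomial.C (N k l) * MvPolynomial.X ⟨j, (k, a)⟩) * MvPolynomial.X ⟨j', (l, b)⟩ -
      MvPolynomial.C (d * Polynomial.C (c a b)) with hR
  have hC : ∀ (z : ℂ) (q : ℚ), evq z (Polynomial.C q) = (q : ℂ) := by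
    intro z q
    unfold evq
    simp
  have hval : ∀ (z : ℂ) (g : ∀ j, Matrix (Fin (n j)) (Fin (n j)) ℂ), valQ R z g =
      ((g j).transpose * N.map (evq z) * g j' - evq z d • c.map (algebraMap ℚ ℂ)) a b := by
    intro z g
    unfold valQ
    rw [hR, MvPolynomial.eval₂_sub, MvPolynomial.eval₂_sum, MvPolynomial.eval₂_C, map_mul, hC, Matrix.sub_apply, Matrix.smul_apply,
      Matrix.mul_apply, smul_eq_mul, Matrix.map_apply]
    congr 1
    refine Finset.sum_congr rfl fun l _ => ?_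
    rw [MvPolynomial.eval₂_mul, MvPolynomial.eval₂_X, MvPolynomial.eval₂_sum, Matrix.mul_apply]
    congr 1
    refine Finset.sum_congr rfl fun k _ => ?_
    rw [MvPolynomial.eval₂_mul, MvPolynomial.eval₂_C, MvPolynomial.eval₂_X, Matrix.transpose_apply, Matrix.map_apply]
    ring
  have h1 := h R ?_ fun x hx hx1 => ?_
  · rw [hval, Matrix.sub_apply, sub_eq_zero] at h1
    exact h1
  · rw [hR]
    refine (MvPolynomial.totalDegree_sub _ _).trans (max_le ?_ ?_)
    · refine (MvPolynomial.totalDegree_finsetSum _ _).trans (Finset.sup_le fun l _ => ?_)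
      refine (MvPolynomial.totalDegree_mul _ _).trans ?_
      have h4 : (∑ k, MvPolynomial.C (N k l) * MvPolynomial.X (R := Polynomial ℚ) (⟨j, (k, a)⟩ : Σ j : Fin r, Fin (n j) × Fin (n j))).totalDegree ≤ 1 :=
        (MvPolynomial.totalDegree_finsetSum _ _).trans (Finset.sup_le fun k _ => C_X_deg _ _)
      have h5 : (MvPolynomial.X (R := Polynomial ℚ) (⟨j', (l, b)⟩ : Σ j : Fin r, Fin (n j) × Fin (n j))).totalDegree ≤ 1 := by
        rw [MvPolynomial.totalDegree_X]
      omega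
    · rw [MvPolynomial.totalDegree_C]
      norm_num
  · rw [hval, Matrix.sub_apply, sub_eq_zero]
    exact congrFun (congrFun (hN _ hx hx1) a) b


end Q207.HG
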