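import Pool.Agent.Q207.HG.Alg
import Pool.Agent.Q198.HG.Lw

/-!
# Project HG: the relative version, algebra
-/

set_option autoImplicit false

open Matrix Finset

namespace Q207.HG

section dt

variable {K : Type} [Fintype K] [DecidableEq K] {r : ℕ}

omit [DecidableEq K] in
/-- expansion of the minors -/
lemma Dt_expand (G : Matrix K K ℂ) (A : Fin r → K → ℂ) (p : Fin r → K) :
    Dt (fun s => G *ᵥ A s) p = ∑ q : Fin r → K, (∏ l, G (p l) (q l)) * Dt A q := by
  have h1 : Dt (fun s => G *ᵥ A s) p =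
      (Matrix.detRowAlternating (R := ℂ) (n := Fin r)).toMultilinearMap (fun l => ∑ x, G (p l) x • (fun s => A s x)) := by
    unfold Dt
    rw [← Matrix.det_transpose]
    show Matrix.det _ = Matrix.det _
    congr 1
    ext l s
    simp only [Matrix.transpose_apply, Matrix.of_apply, Matrix.mulVec, dotProduct, Finset.sum_apply, Pi.smul_apply, smul_eq_mul]
  rw [h1, MultilinearMap.map_sum]
  refine Finset.sum_congr rfl fun q _ => ?_
  rw [MultilinearMap.map_smul_univ, smul_eq_mul]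
  congr 1
  unfold Dt
  rw [← Matrix.det_transpose]
  rfl

/-- a function killed by a triangular matrix and supported on positive weights is zero -/
lemma pos_zero {w : K → ℤ} {M : Matrix K K ℂ} (hM : Low w M) {u : (Fin r → K) → ℂ} (hu : rho M u = 0)
    (h0 : ∀ p, ∑ l, w (p l) ≤ 0 → u p = 0) : u = 0 := by
  classical
  by_contra hne
  have h1 : (univ.filter fun p : Fin r → K => u p ≠ 0).Nonempty := by
    by_contra h2
    rw [Finset.not_nonempty_iff_eq_empty] at h2
    apply hne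
    funext p
    by_contra h3
    have : p ∈ (univ.filter fun p : Fin r → K => u p ≠ 0) := mem_filter.2 ⟨mem_univ _, h3⟩
    rw [h2] at this
    exact notMem_empty _ this
  obtain ⟨p, hp, hmin⟩ := Finset.exists_min_image _ (fun p : Fin r → K => ∑ l, w (p l)) h1
  have hp' := (mem_filter.1 hp).2
  have h2 := Pool.Agent.Q198.HG.rho_low hM u p fun p' hp'' => by
    by_contra h3
    have := hmin p' (mem_filter.2 ⟨mem_univ _, h3⟩)
    omega
  rw [hu, Pi.zero_apply] at h2
  have h3 := (mul_eq_zero.1 h2.symm).resolve_right hp'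
  have h4 : ∑ l, w (p l) = 0 := by exact_mod_cast h3
  exact hp' (h0 p h4.le)

end dt

section conj

variable {K : Type} [Fintype K] [DecidableEq K] {r : ℕ}

/-- the matrix of `A ↦ q A q'` -/
def adM (q q' : Matrix K K ℂ) : Matrix (K × K) (K × K) ℂ := Matrix.of fun x y => q x.1 y.1 * q' y.2 x.2

omit [DecidableEq K] in
lemma adM_un (q q' A : Matrix K K ℂ) : adM q q' *ᵥ un A = un (q * A * q') := by
  funext ⟨a, b⟩
  rw [un_apply, Matrix.mulVec, dotProduct, Fintype.sum_prod_type, Matrix.mul_apply]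
  simp only [adM, Matrix.of_apply, un_apply, Matrix.mul_apply, Finset.sum_mul]
  rw [Finset.sum_comm]
  refine Finset.sum_congr rfl fun c _ => Finset.sum_congr rfl fun d _ => ?_
  ring

/-- **Vanishing of minors after a sparse conjugation.** -/
lemma vanish_conj {c : K → ℤ} {ε : ℤ} (hε : ε * ε = 1) {q q' : Matrix K K ℂ} (hq : ∀ a b, q a b ≠ 0 → c a = ε * c b)
    (hq' : ∀ a b, q' a b ≠ 0 → c a = ε * c b) {A : Fin r → Matrix K K ℂ} {P : ℤ → Prop}
    (h0 : ∀ p : Fin r → K × K, P (∑ l, (c (p l).2 - c (p l).1)) → Dt (fun s => un (A s)) p = 0) :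
    ∀ p : Fin r → K × K, P (ε * ∑ l, (c (p l).2 - c (p l).1)) → Dt (fun s => un (q * A s * q')) p = 0 := by
  intro p hp
  have h1 : (fun s => un (q * A s * q')) = fun s => adM q q' *ᵥ un (A s) := by
    funext s
    rw [adM_un]
  rw [h1, Dt_expand]
  refine Finset.sum_eq_zero fun y _ => ?_
  by_cases hy : ∏ l, adM q q' (p l) (y l) = 0
  · rw [hy, zero_mul]
  rw [h0 y, mul_zero]
  have h2 : ∀ l, c (y l).2 - c (y l).1 = ε * (c (p l).2 - c (p l).1) := by
    intro l
    have h3 : adM q q' (p l) (y l) ≠ 0 := fun h4 => hy (Finset.prod_eq_zero (Finset.mem_univ l) h4)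
    unfold adM at h3
    rw [Matrix.of_apply] at h3
    have h4 := hq _ _ (left_ne_zero_of_mul h3)
    have h5 := hq' _ _ (right_ne_zero_of_mul h3)
    rw [h5, h4, mul_sub, ← mul_assoc, hε, one_mul]
  rw [Finset.sum_congr rfl fun l _ => h2 l, ← Finset.mul_sum]
  exact hp

end conj

section proj

variable {K : Type} [Fintype K] [DecidableEq K] {r : ℕ}

/-- the part of a given weight -/
noncomputable def prj (c : K → ℤ) (z : ℤ) : ((Fin r → K × K) → ℂ) →ₗ[ℂ] ((Fin r → K × K) → ℂ) where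
  toFun u := fun p => if ∑ l, (c (p l).2 - c (p l).1) = z then u p else 0
  map_add' u v := by
    funext p
    simp only [Pi.add_apply]
    split_ifs
    · rfl
    · rw [add_zero]
  map_smul' a u := by
    funext p
    simp only [Pi.smul_apply, smul_eq_mul, RingHom.id_apply]
    split_ifs
    · rfl
    · rw [mul_zero]

omit [Fintype K] [DecidableEq K] in
lemma prj_apply (c : K → ℤ) (z : ℤ) (u : (Fin r → K × K) → ℂ) (p : Fin r → K × K) :
    prj c z u p = if ∑ l, (c (p l).2 - c (p l).1) = z then u p else 0 := rfl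

omit [Fintype K] in
lemma tau_ne {c : K → ℤ} {X : Matrix K K ℂ} (hX : ∀ a b, X a b ≠ 0 → c a = c b) {x y : K × K} (h : tau X x y ≠ 0) :
    c y.2 - c y.1 = c x.2 - c x.1 := by
  unfold tau at h
  rw [Matrix.of_apply] at h
  by_cases h1 : x.2 = y.2
  · rw [if_pos h1] at h
    by_cases h2 : x.1 = y.1
    · rw [h1, h2]
    · rw [if_neg h2, sub_zero] at h
      rw [h1, hX _ _ h]
  · rw [if_neg h1] at h
    by_cases h2 : x.1 = y.1
    · rw [if_pos h2, zero_sub, neg_ne_zero] at h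
      rw [h2, hX _ _ h]
    · rw [if_neg h2, sub_zero] at h
      exact absurd rfl h

lemma rho_prj {c : K → ℤ} {X : Matrix K K ℂ} (hX : ∀ a b, X a b ≠ 0 → c a = c b) (z : ℤ) (u : (Fin r → K × K) → ℂ) :
    rho (tau X) (prj c z u) = prj c z (rho (tau X) u) := by
  funext p
  have key : ∀ l x, tau X (p l) x * prj c z u (Function.update p l x) =
      if ∑ l, (c (p l).2 - c (p l).1) = z then tau X (p l) x * u (Function.update p l x) else 0 := by
    intro l x
    by_cases h : tau X (p l) x = 0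
    · rw [h, zero_mul, zero_mul]
      split_ifs <;> rfl
    · have h1 := tau_ne hX h
      have h2 : ∑ m, (c (Function.update p l x m).2 - c (Function.update p l x m).1) = ∑ m, (c (p m).2 - c (p m).1) := by
        refine Finset.sum_congr rfl fun m _ => ?_
        by_cases hm : m = l
        · subst hm
          rw [Function.update_self, h1]
        · rw [Function.update_of_ne hm]
      rw [prj_apply, h2, mul_ite, mul_zero]
  show ∑ l, ∑ x, tau X (p l) x * prj c z u (Function.update p l x) = _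
  rw [prj_apply]
  show _ = if _ then ∑ l, ∑ x, tau X (p l) x * u (Function.update p l x) else 0
  simp only [key]
  split_ifs
  · rfl
  · simp

end proj

section main

variable {I : Type} [Fintype I] [DecidableEq I]

/-- the span of the minors of the conjugates is stable -/
lemma span_stab (hDer : S_Der) {S L : Set (Matrix I I ℂ)}
    (hSL : ∀ X ∈ L, ∀ z : ℂ, ∀ g ∈ S, NormedSpace.exp (z • X) * g ∈ S) {r : ℕ} (A : Fin r → Matrix I I ℂ) :
    ∀ X ∈ L, ∀ u ∈ Submodule.span ℂ {u : (Fin r → I × I) → ℂ | ∃ g ∈ S, u = Dt fun s => un (g * A s * g⁻¹)},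
      rho (r := r) (tau X) u ∈ Submodule.span ℂ {u : (Fin r → I × I) → ℂ | ∃ g ∈ S, u = Dt fun s => un (g * A s * g⁻¹)} := by
  set U : Submodule ℂ ((Fin r → I × I) → ℂ) := Submodule.span ℂ {u | ∃ g ∈ S, u = Dt fun s => un (g * A s * g⁻¹)} with hU
  intro X hX u hu
  induction hu using Submodule.span_induction with
  | mem u hu =>
    obtain ⟨g, hg, rfl⟩ := hu
    set B : ℂ → Fin r → I × I → ℂ := fun z s => un (NormedSpace.exp (z • X) * (g * A s * g⁻¹) * NormedSpace.exp ((-z) • X)) with hB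
    have hB0 : B 0 = fun s => un (g * A s * g⁻¹) := by
      funext s
      rw [hB]
      simp only [neg_zero, zero_smul, NormedSpace.exp_zero, Matrix.one_mul, Matrix.mul_one]
    have h1 := hDer (I × I) r (tau X) B (fun s x => by
      have h2 := conj_entry X (g * A s * g⁻¹) x.1 x.2
      rw [hB0, tau_un]
      exact h2)
    rw [hB0] at h1
    refine deriv_memW U h1 fun z => Submodule.subset_span ⟨_, hSL X hX z g hg, ?_⟩
    congr 1
    funext s
    rw [hB]
    simp only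
    congr 1
    have h3 : (NormedSpace.exp (z • X))⁻¹ = NormedSpace.exp ((-z) • X) := Matrix.inv_eq_right_inv (exp_neg_mul X z)
    rw [Matrix.mul_inv_rev, h3]
    simp only [Matrix.mul_assoc]
  | zero => rw [map_zero]; exact U.zero_mem
  | add u v _ _ h1 h2 => rw [map_add]; exact U.add_mem h1 h2
  | smul c u _ h1 => rw [map_smul]; exact U.smul_mem c h1

variable {lev levT levC : I → ℤ} {T : Matrix I I ℂ}

/-- **The components of negative weight with respect to the constant part vanish.** -/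
theorem neg_vanish (hDer : S_Der) (hZero : S_Zero) (hlev : ∀ a, lev a = levT a + levC a) (hT : Grd levT T) {S L : Set (Matrix I I ℂ)}
    (hSL : ∀ X ∈ L, ∀ z : ℂ, ∀ g ∈ S, NormedSpace.exp (z • X) * g ∈ S)
    (hTL : T ∈ Submodule.span ℂ {Z | ∃ X ∈ L, ∃ Y ∈ L, Z = X * Y - Y * X})
    (hLc : ∀ X ∈ L, ∀ a b, X a b ≠ 0 → levC a = levC b) {r : ℕ} {A : Fin r → Matrix I I ℂ}
    (hlow : ∀ g ∈ S, ∀ p : Fin r → I × I, ∑ l, (lev (p l).2 - lev (p l).1) < 0 → Dt (fun s => un (g * A s * g⁻¹)) p = 0) :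
    ∀ g ∈ S, ∀ p : Fin r → I × I, ∑ l, (levC (p l).2 - levC (p l).1) < 0 → Dt (fun s => un (g * A s * g⁻¹)) p = 0 := by
  set U : Submodule ℂ ((Fin r → I × I) → ℂ) := Submodule.span ℂ {u | ∃ g ∈ S, u = Dt fun s => un (g * A s * g⁻¹)} with hU
  have hUlow : ∀ u ∈ U, ∀ p : Fin r → I × I, ∑ l, (lev (p l).2 - lev (p l).1) < 0 → u p = 0 := by
    intro u hu p hp
    induction hu using Submodule.span_induction with
    | mem u hu =>
      obtain ⟨g, hg, rfl⟩ := hu
      exact hlow g hg p hp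
    | zero => rfl
    | add u v _ _ h1 h2 => rw [Pi.add_apply, h1, h2, add_zero]
    | smul c u _ h1 => rw [Pi.smul_apply, h1, smul_zero]
  intro g hg p₀ hp₀
  set z := ∑ l, (levC (p₀ l).2 - levC (p₀ l).1) with hz
  set Uz := U.map (prj levC z) with hUz
  have hsum : ∀ p : Fin r → I × I, ∑ l, (lev (p l).2 - lev (p l).1) = ∑ l, (levT (p l).2 - levT (p l).1) +
      ∑ l, (levC (p l).2 - levC (p l).1) := by
    intro p
    rw [← Finset.sum_add_distrib]
    refine Finset.sum_congr rfl fun l _ => ?_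
    rw [hlev, hlev]
    ring
  have hUzl : ∀ u ∈ Uz, ∀ p : Fin r → I × I, ∑ l, ((fun x : I × I => levT x.2 - levT x.1) (p l)) < -z → u p = 0 := by
    rintro _ ⟨u, hu, rfl⟩ p hp
    rw [prj_apply]
    split_ifs with h
    · refine hUlow u hu p ?_
      rw [hsum, h]
      simp only at hp
      omega
    · rfl
  have hkill := hZero (I × I) r (fun x => levT x.2 - levT x.1) (-tau T) (grd_low hT) Uz (fun u hu p hp => hUzl u hu p (lt_trans hp (by omega)))
    (tau '' L) (by
    rintro _ ⟨X, hX, rfl⟩ _ ⟨u, hu, rfl⟩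
    rw [rho_prj (hLc X hX)]
    exact Submodule.mem_map_of_mem (span_stab hDer hSL A X hX u hu)) (by
    refine Submodule.neg_mem _ ?_
    have h1 : tauL T ∈ (Submodule.span ℂ {Z | ∃ X ∈ L, ∃ Y ∈ L, Z = X * Y - Y * X}).map tauL := Submodule.mem_map_of_mem hTL
    rw [Submodule.map_span] at h1
    refine (Submodule.span_mono ?_) h1
    rintro _ ⟨_, ⟨X, hX, Y, hY, rfl⟩, rfl⟩
    exact ⟨_, ⟨X, hX, rfl⟩, _, ⟨Y, hY, rfl⟩, tau_br X Y⟩)
  have h1 : prj levC z (Dt fun s => un (g * A s * g⁻¹)) ∈ Uz := Submodule.mem_map_of_mem (Submodule.subset_span ⟨g, hg, rfl⟩)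
  have h2 := pos_zero (grd_low hT) (hkill _ h1) fun p hp => hUzl _ h1 p (lt_of_le_of_lt hp (by omega))
  have h3 := congrFun h2 p₀
  rw [prj_apply, if_pos rfl] at h3
  exact h3

/-- **The components of nonzero weight with respect to the constant part vanish.** -/
theorem all_vanish (hDer : S_Der) (hZero : S_Zero) (hlev : ∀ a, lev a = levT a + levC a) (hT : Grd levT T) {S L : Set (Matrix I I ℂ)}
    (hSL : ∀ X ∈ L, ∀ z : ℂ, ∀ g ∈ S, NormedSpace.exp (z • X) * g ∈ S)
    (hTL : T ∈ Submodule.span ℂ {Z | ∃ X ∈ L, ∃ Y ∈ L, Z = X * Y - Y * X})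
    (hLc : ∀ X ∈ L, ∀ a b, X a b ≠ 0 → levC a = levC b) {g₀ : Matrix I I ℂ} (hg₀ : g₀ ∈ S) (hg₀u : IsUnit g₀.det)
    (hSg : ∀ g ∈ S, (∀ a b, (g * g₀⁻¹) a b ≠ 0 → levC a = levC b) ∧ ∀ a b, (g * g₀⁻¹)⁻¹ a b ≠ 0 → levC a = levC b)
    {r : ℕ} {A : Fin r → Matrix I I ℂ}
    (hlow : ∀ g ∈ S, ∀ p : Fin r → I × I, ∑ l, (lev (p l).2 - lev (p l).1) < 0 → Dt (fun s => un (g * A s * g⁻¹)) p = 0)
    {q : Matrix I I ℂ} (hq : ∀ a b, q a b ≠ 0 → levC a = -levC b) (hq' : ∀ a b, q⁻¹ a b ≠ 0 → levC a = -levC b)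
    (hreal : ∀ s, (g₀ * A s * g₀⁻¹).map (starRingEnd ℂ) = q * (g₀ * A s * g₀⁻¹) * q⁻¹) :
    ∀ g ∈ S, ∀ p : Fin r → I × I, ∑ l, (levC (p l).2 - levC (p l).1) ≠ 0 → Dt (fun s => un (g * A s * g⁻¹)) p = 0 := by
  have hneg := neg_vanish hDer hZero hlev hT hSL hTL hLc hlow g₀ hg₀
  have hpos : ∀ p : Fin r → I × I, 0 < ∑ l, (levC (p l).2 - levC (p l).1) → Dt (fun s => un (g₀ * A s * g₀⁻¹)) p = 0 := by
    intro p hp
    have h1 := vanish_conj (c := levC) (ε := -1) (by norm_num) (q := q) (q' := q⁻¹) (fun a b h => by rw [hq a b h]; ring)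
      (fun a b h => by rw [hq' a b h]; ring) (A := fun s => g₀ * A s * g₀⁻¹) (P := fun z => z < 0) hneg p (by linarith)
    have h2 : (starRingEnd ℂ) (Dt (fun s => un (g₀ * A s * g₀⁻¹)) p) = Dt (fun s => un (q * (g₀ * A s * g₀⁻¹) * q⁻¹)) p := by
      unfold Dt
      rw [RingHom.map_det]
      congr 1
      ext s l
      show (starRingEnd ℂ) ((g₀ * A s * g₀⁻¹) (p l).1 (p l).2) = (q * (g₀ * A s * g₀⁻¹) * q⁻¹) (p l).1 (p l).2
      rw [← hreal]
      rfl
    rw [h1] at h2
    exact (map_eq_zero _).1 h2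
  have h0 : ∀ p : Fin r → I × I, (fun z : ℤ => z ≠ 0) (∑ l, (levC (p l).2 - levC (p l).1)) → Dt (fun s => un (g₀ * A s * g₀⁻¹)) p = 0 := by
    intro p hp
    rcases lt_or_gt_of_ne hp with h | h
    · exact hneg p h
    · exact hpos p h
  intro g hg p hp
  obtain ⟨h1, h2⟩ := hSg g hg
  have h3 := vanish_conj (c := levC) (ε := 1) (by norm_num) (q := g * g₀⁻¹) (q' := (g * g₀⁻¹)⁻¹) (fun a b h => by rw [h1 a b h]; ring)
    (fun a b h => by rw [h2 a b h]; ring) (A := fun s => g₀ * A s * g₀⁻¹) (P := fun z => z ≠ 0) h0 p (by rwa [one_mul])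
  have h4 : ∀ s, g * g₀⁻¹ * (g₀ * A s * g₀⁻¹) * (g * g₀⁻¹)⁻¹ = g * A s * g⁻¹ := by
    intro s
    rw [Matrix.mul_inv_rev, Matrix.nonsing_inv_nonsing_inv _ hg₀u]
    calc g * g₀⁻¹ * (g₀ * A s * g₀⁻¹) * (g₀ * g⁻¹) = g * (g₀⁻¹ * g₀) * A s * (g₀⁻¹ * g₀) * g⁻¹ := by simp only [Matrix.mul_assoc]
      _ = _ := by rw [Matrix.nonsing_inv_mul _ hg₀u, Matrix.mul_one, Matrix.mul_one]
  simp only [h4] at h3
  exact h3

/-- **The grading element, relative version.** -/
theorem grad_memR (hPart : S_Part) (hT : Grd levT T) {Dc Φ : Matrix I I ℂ} (hTD : T * Dc = Dc * T)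
    (hΦ : ∀ a b, levT b ≤ levT a → Φ a b = T a b + Dc a b) {M : Submodule ℂ (Matrix I I ℂ)}
    (hM : ∀ A ∈ M, T * A - A * T ∈ M) (hΦM : Φ ∈ M) : T + Dc ∈ M := by
  have h1 := hPart (I × I) (fun x => levT x.2 - levT x.1) (-tau T) (grd_low hT) (M.map un.toLinearMap) (by
    rintro _ ⟨A, hA, rfl⟩
    refine ⟨-(T * A - A * T), M.neg_mem (hM A hA), ?_⟩
    show un (-(T * A - A * T)) = (-tau T) *ᵥ un A
    rw [Matrix.neg_mulVec, tau_un, ← map_neg]) (un (T + Dc)) (un (Φ - (T + Dc))) (by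
    have e1 : T * (T + Dc) - (T + Dc) * T = 0 := by
      rw [Matrix.mul_add, Matrix.add_mul, hTD, sub_self]
    rw [Matrix.neg_mulVec, tau_un, e1, map_zero, neg_zero]) (by
    rintro ⟨a, b⟩ hx
    simp only at hx
    have h2 : levT b ≤ levT a := by omega
    rw [un_apply, Matrix.sub_apply, Matrix.add_apply]
    simp only
    rw [hΦ a b h2, sub_self]) ⟨Φ, hΦM, by
    show un Φ = _
    rw [← map_add]
    congr 1
    abel⟩
  obtain ⟨Y, hY, hYe⟩ := h1
  have h3 : Y = T + Dc := un.injective hYe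
  rw [← h3]
  exact hY

end main

end Q207.HG
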