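import Pool.Agent.Q207.HG.RMai

/-!
# Project HG: the relative version, the theorem at a good tuple
-/

set_option autoImplicit false
set_option linter.all false

open Matrix Finset

namespace Q207.HG

open Q207.HM (lk Yx QA cls Lin Bil TP QuadT tpos QG_QA det_Yt cls_size cls_neg pkg3)
open Pool.Agent.Y123.GN (Clf)

variable {k : ℕ} {r : Fin k → ℕ} {n : ∀ i, Fin (r i) → ℕ} {α : ∀ i j, Fin (n i j) → ℚ} {J : Type} [Fintype J] [DecidableEq J]

/-- the map of the Lie algebras with a constant block -/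
noncomputable def PsiR (J : Type) [Fintype J] [DecidableEq J] (D : ∀ i, Pk (α i)) :
    Tu (mu D) →ₗ[ℂ] Matrix (Ix n ⊕ J) (Ix n ⊕ J) ℂ where
  toFun X := fb (Psi D X) 0
  map_add' X Y := by rw [map_add, fb_add, add_zero]
  map_smul' c X := by rw [map_smul, RingHom.id_apply, fb_smul, smul_zero]

lemma PsiR_apply (D : ∀ i, Pk (α i)) (X : Tu (mu D)) : PsiR J D X = fb (Psi D X) 0 := rfl

lemma map_conj {I : Type} [Fintype I] [DecidableEq I] {Z : Matrix I I ℂ} (hZ : IsUnit Z.det) (X : Matrix I I ℚ) :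
    (Z * X.map (algebraMap ℚ ℂ) * Z⁻¹).map (starRingEnd ℂ) =
      (Z.map (starRingEnd ℂ) * Z⁻¹) * (Z * X.map (algebraMap ℚ ℂ) * Z⁻¹) * (Z.map (starRingEnd ℂ) * Z⁻¹)⁻¹ := by
  set Zc := Z.map (starRingEnd ℂ) with hZc
  have hZcu : IsUnit Zc.det := by
    have h1 : Zc.det = (starRingEnd ℂ) Z.det := by
      rw [hZc, RingHom.map_det]
      rfl
    rw [h1]
    exact hZ.map _
  have h1 : (Z⁻¹).map (starRingEnd ℂ) = Zc⁻¹ := by
    symm
    refine Matrix.inv_eq_right_inv ?_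
    rw [hZc, ← Matrix.map_mul, Matrix.mul_nonsing_inv _ hZ, Matrix.map_one _ (map_zero _) (map_one _)]
  have h2 : (X.map (algebraMap ℚ ℂ)).map (starRingEnd ℂ) = X.map (algebraMap ℚ ℂ) := by
    ext a b
    simp
  have h3 : (Zc * Z⁻¹)⁻¹ = Z * Zc⁻¹ := by
    rw [Matrix.mul_inv_rev, Matrix.nonsing_inv_nonsing_inv _ hZ]
  rw [Matrix.map_mul, Matrix.map_mul, h1, h2, h3]
  calc Zc * X.map (algebraMap ℚ ℂ) * Zc⁻¹ = Zc * (Z⁻¹ * Z) * X.map (algebraMap ℚ ℂ) * (Z⁻¹ * Z) * Zc⁻¹ := by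
        rw [Matrix.nonsing_inv_mul _ hZ, Matrix.mul_one, Matrix.mul_one]
    _ = _ := by simp only [Matrix.mul_assoc]

/-- entries of a matrix which anticommutes with a diagonal matrix -/
lemma anti_entry {I : Type} [Fintype I] [DecidableEq I] {q : Matrix I I ℂ} {l : I → ℤ}
    (h : q * Matrix.diagonal (fun a => (l a : ℂ)) = -(Matrix.diagonal (fun a => (l a : ℂ)) * q)) (a b : I) (hq : q a b ≠ 0) :
    l a = -l b := by
  have h1 := congrFun (congrFun h a) b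
  rw [Matrix.mul_diagonal, Matrix.neg_apply, Matrix.diagonal_mul] at h1
  have h2 : q a b * ((l a : ℂ) + l b) = 0 := by linear_combination h1
  have h3 := (mul_eq_zero.1 h2).resolve_left hq
  have h4 : l a + l b = 0 := by exact_mod_cast h3
  omega

lemma anti_inv {I : Type} [Fintype I] [DecidableEq I] {q E : Matrix I I ℂ} (hq : IsUnit q.det) (h : q * E = -(E * q)) :
    q⁻¹ * E = -(E * q⁻¹) := by
  calc q⁻¹ * E = q⁻¹ * (E * q) * q⁻¹ := by
        rw [Matrix.mul_assoc, Matrix.mul_assoc, Matrix.mul_nonsing_inv _ hq, Matrix.mul_one]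
    _ = q⁻¹ * (-(q * E)) * q⁻¹ := by rw [h, neg_neg]
    _ = -((q⁻¹ * q) * E * q⁻¹) := by
        rw [Matrix.mul_neg, Matrix.neg_mul]
        simp only [Matrix.mul_assoc]
    _ = _ := by rw [Matrix.nonsing_inv_mul _ hq, Matrix.one_mul]

/-- the sparse matrix of the constant part -/
lemma anti_CW {CW ΦW : Matrix J J ℂ} {levJ : J → ℤ} (hCW : IsUnit CW.det)
    (hCWΦ : CW * ΦW = Matrix.diagonal (fun a => (levJ a : ℂ)) * CW) (hWr : ΦW.map (starRingEnd ℂ) = -ΦW) :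
    (CW.map (starRingEnd ℂ) * CW⁻¹) * Matrix.diagonal (fun a => (levJ a : ℂ)) =
      -(Matrix.diagonal (fun a => (levJ a : ℂ)) * (CW.map (starRingEnd ℂ) * CW⁻¹)) := by
  set E : Matrix J J ℂ := Matrix.diagonal (fun a => (levJ a : ℂ)) with hE
  have hEr : E.map (starRingEnd ℂ) = E := by
    rw [hE]
    ext a b
    rw [Matrix.map_apply, Matrix.diagonal_apply]
    split_ifs
    · rw [map_intCast]
    · rw [map_zero]
  have h1 : CW⁻¹ * E = ΦW * CW⁻¹ := by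
    calc CW⁻¹ * E = CW⁻¹ * (E * CW) * CW⁻¹ := by
          rw [Matrix.mul_assoc, Matrix.mul_assoc, Matrix.mul_nonsing_inv _ hCW, Matrix.mul_one]
      _ = (CW⁻¹ * CW) * ΦW * CW⁻¹ := by
          rw [← hCWΦ]
          simp only [Matrix.mul_assoc]
      _ = _ := by rw [Matrix.nonsing_inv_mul _ hCW, Matrix.one_mul]
  have h2 : CW.map (starRingEnd ℂ) * ΦW = -(E * CW.map (starRingEnd ℂ)) := by
    have h3 : (CW * ΦW).map (starRingEnd ℂ) = (E * CW).map (starRingEnd ℂ) := by rw [hCWΦ]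
    rw [Matrix.map_mul, Matrix.map_mul, hWr, hEr, Matrix.mul_neg] at h3
    rw [← h3, neg_neg]
  calc CW.map (starRingEnd ℂ) * CW⁻¹ * E = (CW.map (starRingEnd ℂ) * ΦW) * CW⁻¹ := by
        rw [Matrix.mul_assoc, h1, Matrix.mul_assoc]
    _ = _ := by rw [h2, Matrix.neg_mul, Matrix.mul_assoc]

/-- **The algebra at a good tuple of fibres, relative version.** -/
theorem main_rel (hHom : S_Hom) (hTr : S_Tr) (hDer : S_Der) (hSpan : S_Span) (hLow : S_Low) (hZero : S_Zero) (hPart : S_Part)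
    (hTrace : S_Trace) (hGrd : S_Grd) (hGood : S_Good) (hPerf : S_Perf) (hForm : S_Form) (hConc : S_Conc) (D : ∀ i, Pk (α i))
    (h01 : ∀ i j l, 0 < α i j l ∧ α i j l < 1) (hn : ∀ i j, 2 ≤ n i j) {t : Fin k → ℕ} (ht : ∀ i, 2 ≤ t i)
    {C : Matrix (Ix n) (Ix n) ℂ} (hC : IsUnit C.det) {CW ΦW : Matrix J J ℂ} {levJ : J → ℤ} (hCW : IsUnit CW.det)
    (hCWΦ : CW * ΦW = Matrix.diagonal (fun a => (levJ a : ℂ)) * CW) (hWr : ΦW.map (starRingEnd ℂ) = -ΦW)
    (hG : GoodP (dlR n J) (VsR (fb C CW)) α t) {H : ℤ → Submodule ℂ (Ix n → ℂ)} (htop : (⨆ p, H p) = ⊤)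
    (hF : ∀ p, (⨆ q : {q : ℤ // p ≤ q}, H q) = Submodule.span ℂ {v | ∃ a, p ≤ lvx n a ∧ v = (tot (Yv α t) * C) a})
    (hconj : ∀ p, ∀ v ∈ H p, (fun a => (starRingEnd ℂ) (v a)) ∈ H (-p)) {Φ : Matrix (Ix n) (Ix n) ℂ}
    (hΦ : ∀ p, ∀ v ∈ H p, v ᵥ* Φ = (p : ℂ) • v) {𝔪 : Submodule ℚ (Matrix (Ix n ⊕ J) (Ix n ⊕ J) ℚ)}
    (hbr : ∀ X ∈ 𝔪, ∀ Y ∈ 𝔪, X * Y - Y * X ∈ 𝔪)
    (hΦm : fb Φ ΦW ∈ Submodule.span ℂ (cmx '' (𝔪 : Set (Matrix (Ix n ⊕ J) (Ix n ⊕ J) ℚ)))) :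
    ∀ X ∈ hBB (BBx D), fb (C⁻¹ * Psi D X * C) 0 ∈
      Submodule.span ℂ (cmx '' (𝔪 : Set (Matrix (Ix n ⊕ J) (Ix n ⊕ J) ℚ))) := by
  classical
  obtain ⟨y, hy1, hy2, hy3⟩ := T_exists hDer hTr hConc hForm D h01 hn ht
  set 𝒴 := tot (Yv α t) with h𝒴
  have hYu : IsUnit 𝒴.det := tot_unit fun i j => Yv_unit h01 hn ht i j
  have h1u : IsUnit (1 : Matrix J J ℂ).det := by rw [Matrix.det_one]; exact isUnit_one
  set Ch : Matrix (Ix n ⊕ J) (Ix n ⊕ J) ℂ := fb C CW with hCh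
  have hChu : IsUnit Ch.det := fb_unit hC hCW
  set g₀ : Matrix (Ix n ⊕ J) (Ix n ⊕ J) ℂ := fb 𝒴 1 with hg₀
  have hg₀u : IsUnit g₀.det := fb_unit hYu h1u
  have hg₀U : IsUnit g₀ := (Matrix.isUnit_iff_isUnit_det _).2 hg₀u
  have hg₀i : g₀⁻¹ = fb 𝒴⁻¹ 1 := by rw [hg₀, fb_inv hYu h1u, inv_one]
  set Z := 𝒴 * C with hZ
  have hZu : IsUnit Z.det := by
    rw [hZ, Matrix.det_mul]
    exact hYu.mul hC
  set Zh : Matrix (Ix n ⊕ J) (Ix n ⊕ J) ℂ := g₀ * Ch with hZh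
  have hZhe : Zh = fb Z CW := by rw [hZh, hg₀, hCh, fb_mul, Matrix.one_mul]
  have hZhu : IsUnit Zh.det := by
    rw [hZhe]
    exact fb_unit hZu hCW
  have hZhi : Zh⁻¹ = Ch⁻¹ * g₀⁻¹ := by rw [hZh, Matrix.mul_inv_rev]
  set E : Matrix J J ℂ := Matrix.diagonal (fun a => (levJ a : ℂ)) with hE
  -- a basis
  set b := Module.finBasis ℚ 𝔪 with hb
  set s := Module.finrank ℚ 𝔪 with hs
  set X : Fin s → Matrix (Ix n ⊕ J) (Ix n ⊕ J) ℚ := fun u => (b u : Matrix (Ix n ⊕ J) (Ix n ⊕ J) ℚ) with hX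
  have hXli : LinearIndependent ℚ X := b.linearIndependent.map' 𝔪.subtype (Submodule.ker_subtype _)
  have hscard : s ≤ Fintype.card (Ix n ⊕ J) ^ 2 := by
    refine (Submodule.finrank_le 𝔪).trans ?_
    rw [Module.finrank_matrix, Module.finrank_self, mul_one, sq]
  have hsp := span_basis b
  rw [hsp]
  rw [hsp] at hΦm
  -- the coefficients
  have hcex : ∀ u, ∃ c : Fin s → ℂ, ∑ v, c v • cmx (X v) = cmx (X u) * fb Φ ΦW - fb Φ ΦW * cmx (X u) := by
    intro u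
    have h1 := span_br hbr (b u).2 (Φ := fb Φ ΦW) (by rw [hsp]; exact hΦm)
    rw [hsp] at h1
    exact (Submodule.mem_span_range_iff_exists_fun ℂ).1 h1
  choose c hc using hcex
  have hctr : (Matrix.of c).trace = 0 := trace_rel hTrace htop hconj hΦ hCW hCWΦ hWr hXli (c := Matrix.of c) fun u => (hc u).symm
  set A : Fin s → Matrix (Ix n ⊕ J) (Ix n ⊕ J) ℂ := fun u => Ch * cmx (X u) * Ch⁻¹ with hA
  have hAli : LinearIndependent ℂ A := by
    rw [Fintype.linearIndependent_iff]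
    intro z hz u
    have h1 : ∑ u, z u • cmx (X u) = 0 := by
      have h2 : Ch⁻¹ * (∑ u, z u • A u) * Ch = 0 := by rw [hz, Matrix.mul_zero, Matrix.zero_mul]
      rw [← h2, Matrix.mul_sum, Matrix.sum_mul]
      refine Finset.sum_congr rfl fun u _ => ?_
      rw [Matrix.mul_smul, Matrix.smul_mul, hA]
      simp only
      rw [conj_conj hChu]
    exact congrFun (Pool.Agent.Q198.HG.li_rat X hXli z h1) u
  have hAZ : ∀ u, g₀ * A u * g₀⁻¹ = Zh * cmx (X u) * Zh⁻¹ := by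
    intro u
    rw [hZhi, hZh, hA]
    simp only [Matrix.mul_assoc]
  -- the grading operator
  set Φ' := Z * Φ * Z⁻¹ with hΦ'
  have hΦg : Grd (lvx n) Φ' := hGrd (Ix n) (lvx n) Z Φ H hZu hF hΦ
  set lev : Ix n ⊕ J → ℤ := Sum.elim (lvx n) levJ with hlev
  set levT : Ix n ⊕ J → ℤ := Sum.elim (lvx n) 0 with hlevT
  set levC : Ix n ⊕ J → ℤ := Sum.elim 0 levJ with hlevC
  have hlevs : ∀ a, lev a = levT a + levC a := by
    rintro (a | a)
    · rw [hlev, hlevT, hlevC]; simp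
    · rw [hlev, hlevT, hlevC]; simp
  have hΦt : Zh * fb Φ ΦW * Zh⁻¹ = fb Φ' E := by
    rw [hZhe, fb_inv hZu hCW, fb_mul, fb_mul, hCWΦ, Matrix.mul_assoc E, Matrix.mul_nonsing_inv _ hCW, Matrix.mul_one]
  have hΦtg : Grd lev (fb Φ' E) := grd_fb hΦg (grd_diag levJ)
  have hlow0 : ∀ p : Fin s → (Ix n ⊕ J) × (Ix n ⊕ J), ∑ l, (lev (p l).2 - lev (p l).1) < 0 →
      Dt (fun u => un (g₀ * A u * g₀⁻¹)) p = 0 := by
    intro p hp
    refine low_hodge hTr hLow hΦtg (A := fun u => g₀ * A u * g₀⁻¹) (c := Matrix.of c) (fun u => ?_) hctr p hp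
    rw [hAZ, ← hΦt, ← conj_br' hZhu, ← hc u, Matrix.mul_sum, Matrix.sum_mul]
    refine Finset.sum_congr rfl fun v _ => ?_
    rw [Matrix.mul_smul, Matrix.smul_mul, hAZ]
    rfl
  -- the group
  set S : Set (Matrix (Ix n ⊕ J) (Ix n ⊕ J) ℂ) := {g | ∃ κ : Tu (mu D), (∀ a, κ a ∈ GBs (BBx D a)) ∧ g = fb (𝒴 * PsG D κ) 1} with hS
  have hSu : ∀ g ∈ S, IsUnit g := by
    rintro g ⟨κ, hκ, rfl⟩
    have hGu : IsUnit (PsG D κ).det := (Matrix.isUnit_iff_isUnit_det _).1 (PsG_unit D hκ)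
    exact (Matrix.isUnit_iff_isUnit_det _).2 (fb_unit (by rw [Matrix.det_mul]; exact hYu.mul hGu) h1u)
  have hlow : ∀ g ∈ S, ∀ p : Fin s → (Ix n ⊕ J) × (Ix n ⊕ J), ∑ l, (lev (p l).2 - lev (p l).1) < 0 →
      Dt (fun u => un (g * A u * g⁻¹)) p = 0 := by
    rintro g ⟨κ, hκ, rfl⟩ p hp
    have h1 := transferR hG (fun i => by
      have h2 := TP_of D (κ := fun _ => 1) (fun a => GBs_one) ht i
      have h3 : (fun j => Yv α t i j * lk ((D i).d j) ((D i).P j) ((D i).P' j) (1 : Matrix (Fin ((D i).m ((D i).q j))) _ ℂ)) =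
          fun j => Yx (n i j) (QA (α i j)) (1 / (t i : ℝ)) := by
        funext j
        rw [lk_one ((D i).h1 j), Matrix.mul_one]
      rw [← h3]
      exact h2) hscard X p (hlow0 p hp) (TP_of D hκ ht)
    rw [YPsG]
    exact h1
  set L : Set (Matrix (Ix n ⊕ J) (Ix n ⊕ J) ℂ) := {X | ∃ N ∈ hBB (BBx D), X = fb (𝒴 * Psi D N * 𝒴⁻¹) 0} with hL
  have hYU : IsUnit 𝒴 := (Matrix.isUnit_iff_isUnit_det _).2 hYu
  have hSL : ∀ X ∈ L, ∀ z : ℂ, ∀ g ∈ S, NormedSpace.exp (z • X) * g ∈ S := by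
    rintro X ⟨N, hN, rfl⟩ z g ⟨κ, hκ, rfl⟩
    rw [mem_hBB] at hN
    refine ⟨(fun a => NormedSpace.exp (z • N a)) * κ, fun a => GBs_mul (exp_GBs hDer hTr ((D a.1).B0 a.2) (hN a) z) (hκ a), ?_⟩
    have h1 : z • (𝒴 * Psi D N * 𝒴⁻¹) = 𝒴 * (z • Psi D N) * 𝒴⁻¹ := by rw [Matrix.mul_smul, Matrix.smul_mul]
    rw [fb_smul, smul_zero, fb_exp, NormedSpace.exp_zero, fb_mul, Matrix.mul_one, h1, Matrix.exp_conj _ _ hYU, exp_Psi, PsG_mul]
    have h2 : 𝒴 * PsG D (fun a => NormedSpace.exp (z • N a)) * 𝒴⁻¹ * (𝒴 * PsG D κ) =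
        𝒴 * (PsG D (fun a => NormedSpace.exp (z • N a)) * PsG D κ) := by
      calc 𝒴 * PsG D (fun a => NormedSpace.exp (z • N a)) * 𝒴⁻¹ * (𝒴 * PsG D κ) =
            𝒴 * PsG D (fun a => NormedSpace.exp (z • N a)) * (𝒴⁻¹ * 𝒴) * PsG D κ := by simp only [Matrix.mul_assoc]
        _ = _ := by rw [Matrix.nonsing_inv_mul _ hYu, Matrix.mul_one, Matrix.mul_assoc]
    rw [h2]
  set T : Matrix (Ix n ⊕ J) (Ix n ⊕ J) ℂ := fb (𝒴 * Psi D y * 𝒴⁻¹) 0 with hT
  have hTg : Grd levT T := grd_fb hy3 grd_zero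
  have hyB : y ∈ hBB (BBx D) := mem_hBB.2 hy1
  have hmu : ∀ a, 2 ≤ mu D a := fun a => (D a.1).two (hn a.1) a.2
  have hTL : T ∈ Submodule.span ℂ {Z | ∃ X ∈ L, ∃ Y ∈ L, Z = X * Y - Y * X} := by
    have h1 := perf_tuple (B := BBx D) (fun a => hPerf (mu D a) (BBx D a) (hmu a) ((D a.1).hcl a.2)) hyB
    have h2 : ∀ w : Tu (mu D), w ∈ Submodule.span ℂ {Z | ∃ X ∈ hBB (BBx D), ∃ Y ∈ hBB (BBx D), Z = X * Y - Y * X} →
        (fb (𝒴 * Psi D w * 𝒴⁻¹) 0 : Matrix (Ix n ⊕ J) (Ix n ⊕ J) ℂ) ∈ Submodule.span ℂ {Z | ∃ X ∈ L, ∃ Y ∈ L, Z = X * Y - Y * X} := by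
      intro w hw
      induction hw using Submodule.span_induction with
      | mem w hw =>
        obtain ⟨M, hM, N, hN, rfl⟩ := hw
        refine Submodule.subset_span ⟨_, ⟨M, hM, rfl⟩, _, ⟨N, hN, rfl⟩, ?_⟩
        rw [Psi_br, conj_br' hYu, fb_mul, fb_mul, fb_sub, Matrix.mul_zero, sub_zero]
      | zero =>
        rw [map_zero, Matrix.mul_zero, Matrix.zero_mul]
        have h3 : (fb (0 : Matrix (Ix n) (Ix n) ℂ) (0 : Matrix J J ℂ)) = 0 := fromBlocks_zero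
        rw [h3]
        exact Submodule.zero_mem _
      | add M N _ _ h3 h4 =>
        have h5 := Submodule.add_mem _ h3 h4
        rw [fb_add, add_zero, ← Matrix.add_mul, ← Matrix.mul_add, ← map_add] at h5
        exact h5
      | smul c M _ h3 =>
        have h5 := Submodule.smul_mem _ c h3
        rw [fb_smul, smul_zero, ← Matrix.smul_mul, ← Matrix.mul_smul, ← map_smul] at h5
        exact h5
    exact h2 y h1
  have hLc : ∀ X ∈ L, ∀ a b, X a b ≠ 0 → levC a = levC b := by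
    rintro X ⟨N, hN, rfl⟩ (a | a) (b | b) h
    · rfl
    · exact absurd rfl h
    · exact absurd rfl h
    · exact absurd rfl h
  have hgS : g₀ ∈ S := ⟨fun _ => 1, fun a => GBs_one, by rw [PsG_one, Matrix.mul_one]⟩
  have hblk : ∀ (Q : Matrix (Ix n) (Ix n) ℂ) (a b : Ix n ⊕ J), (fb Q (1 : Matrix J J ℂ)) a b ≠ 0 → levC a = levC b := by
    rintro Q (a | a) (b | b) h
    · rfl
    · exact absurd rfl h
    · exact absurd rfl h
    · rw [fb_22] at h
      have : a = b := by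
        by_contra h1
        exact h (Matrix.one_apply_ne h1)
      rw [this]
  have hSg : ∀ g ∈ S, (∀ a b, (g * g₀⁻¹) a b ≠ 0 → levC a = levC b) ∧ ∀ a b, (g * g₀⁻¹)⁻¹ a b ≠ 0 → levC a = levC b := by
    rintro g ⟨κ, hκ, rfl⟩
    have hGu : IsUnit (PsG D κ).det := (Matrix.isUnit_iff_isUnit_det _).1 (PsG_unit D hκ)
    have h1 : (fb (𝒴 * PsG D κ) 1 : Matrix (Ix n ⊕ J) (Ix n ⊕ J) ℂ) * g₀⁻¹ = fb (𝒴 * PsG D κ * 𝒴⁻¹) 1 := by
      rw [hg₀i, fb_mul, Matrix.mul_one]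
    rw [h1, fb_inv (by rw [Matrix.det_mul, Matrix.det_mul]; exact (hYu.mul hGu).mul (Matrix.isUnit_nonsing_inv_det _ hYu)) h1u, inv_one]
    exact ⟨hblk _, hblk _⟩
  -- the reality of the constant part
  set q : Matrix (Ix n ⊕ J) (Ix n ⊕ J) ℂ := Zh.map (starRingEnd ℂ) * Zh⁻¹ with hq
  have hqe : q = fb (Z.map (starRingEnd ℂ) * Z⁻¹) (CW.map (starRingEnd ℂ) * CW⁻¹) := by
    have h1 : Zh.map (starRingEnd ℂ) = fb (Z.map (starRingEnd ℂ)) (CW.map (starRingEnd ℂ)) := by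
      rw [hZhe]
      ext a b
      rcases a with a | a <;> rcases b with b | b <;> simp
    rw [hq, h1, hZhe, fb_inv hZu hCW, fb_mul]
  have hconjdet : ∀ {I : Type} [Fintype I] [DecidableEq I] (M : Matrix I I ℂ), IsUnit M.det → IsUnit (M.map (starRingEnd ℂ)).det := by
    intro I _ _ M hM
    have h1 : (M.map (starRingEnd ℂ)).det = (starRingEnd ℂ) M.det := by
      rw [RingHom.map_det]
      rfl
    rw [h1]
    exact hM.map _
  have hCWu' : IsUnit (CW.map (starRingEnd ℂ) * CW⁻¹).det := by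
    rw [Matrix.det_mul]
    exact (hconjdet CW hCW).mul (Matrix.isUnit_nonsing_inv_det _ hCW)
  have hZu' : IsUnit (Z.map (starRingEnd ℂ) * Z⁻¹).det := by
    rw [Matrix.det_mul]
    exact (hconjdet Z hZu).mul (Matrix.isUnit_nonsing_inv_det _ hZu)
  have hanti := anti_CW hCW hCWΦ hWr
  have hfbanti : ∀ (Q : Matrix (Ix n) (Ix n) ℂ) (R : Matrix J J ℂ), (∀ a b, R a b ≠ 0 → levJ a = -levJ b) →
      ∀ a b, (fb Q R) a b ≠ 0 → levC a = -levC b := by
    rintro Q R hR (a | a) (b | b) h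
    · rw [hlevC]; simp
    · exact absurd rfl h
    · exact absurd rfl h
    · exact hR a b h
  have hq1 : ∀ a b, q a b ≠ 0 → levC a = -levC b := by
    rw [hqe]
    exact hfbanti _ _ fun a b h => anti_entry hanti a b h
  have hq2 : ∀ a b, q⁻¹ a b ≠ 0 → levC a = -levC b := by
    rw [hqe, fb_inv hZu' hCWu']
    exact hfbanti _ _ fun a b h => anti_entry (anti_inv hCWu' hanti) a b h
  have hreal : ∀ u, (g₀ * A u * g₀⁻¹).map (starRingEnd ℂ) = q * (g₀ * A u * g₀⁻¹) * q⁻¹ := by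
    intro u
    rw [hAZ]
    exact map_conj hZhu (X u)
  have hall0 := all_vanish hDer hZero hlevs hTg hSL hTL hLc hgS hg₀u hSg hlow hq1 hq2 hreal
  have hlowT : ∀ g ∈ S, ∀ p : Fin s → (Ix n ⊕ J) × (Ix n ⊕ J), ∑ l, (levT (p l).2 - levT (p l).1) < 0 →
      Dt (fun u => un (g * A u * g⁻¹)) p = 0 := by
    intro g hg p hp
    by_cases h0 : ∑ l, (levC (p l).2 - levC (p l).1) = 0
    · refine hlow g hg p ?_
      have h1 : ∑ l, (lev (p l).2 - lev (p l).1) = ∑ l, (levT (p l).2 - levT (p l).1) + ∑ l, (levC (p l).2 - levC (p l).1) := by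
        rw [← Finset.sum_add_distrib]
        refine Finset.sum_congr rfl fun l _ => ?_
        rw [hlevs, hlevs]
        ring
      rw [h1, h0, add_zero]
      exact hp
    · exact hall0 g hg p h0
  have hst := stab_main hHom hDer hSpan hZero hTg hSu hSL hTL hAli hlowT
  -- the space
  set M₀ := Submodule.span ℂ (Set.range A) with hM₀
  have hΦM : fb Φ' E ∈ Submodule.span ℂ (Set.range fun u => g₀ * A u * g₀⁻¹) := by
    have h1 := span_conj Zh Zh⁻¹ _ hΦm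
    have h2 : (fun u => Zh * cmx ((b u : Matrix (Ix n ⊕ J) (Ix n ⊕ J) ℚ)) * Zh⁻¹) = fun u => g₀ * A u * g₀⁻¹ := by
      funext u
      exact (hAZ u).symm
    rw [h2, hΦt] at h1
    exact h1
  set Dc : Matrix (Ix n ⊕ J) (Ix n ⊕ J) ℂ := fb 0 E with hDc
  have hTM : T + Dc ∈ Submodule.span ℂ (Set.range fun u => g₀ * A u * g₀⁻¹) := by
    refine grad_memR hPart hTg (Dc := Dc) (Φ := fb Φ' E) ?_ ?_ (fun B hB => ?_) hΦM
    · rw [hT, hDc, fb_mul, fb_mul, Matrix.mul_zero, Matrix.zero_mul, Matrix.zero_mul, Matrix.mul_zero]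
    · rintro (a | a) (b | b) hab
      · rw [fb_11, hT, fb_11, hDc, fb_11, Matrix.zero_apply, add_zero, hΦg a b hab, hy3 a b hab]
      · rw [fb_12, hT, fb_12, hDc, fb_12, add_zero]
      · rw [fb_21, hT, fb_21, hDc, fb_21, add_zero]
      · rw [fb_22, hT, fb_22, hDc, fb_22, Matrix.zero_apply, zero_add]
    · induction hB using Submodule.span_induction with
      | mem B hB =>
        obtain ⟨u, rfl⟩ := hB
        exact hst g₀ hgS u
      | zero => rw [Matrix.mul_zero, Matrix.zero_mul, sub_zero]; exact Submodule.zero_mem _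
      | add B B' _ _ h3 h4 =>
        have : T * (B + B') - (B + B') * T = (T * B - B * T) + (T * B' - B' * T) := by noncomm_ring
        rw [this]
        exact Submodule.add_mem _ h3 h4
      | smul c B _ h3 =>
        have : T * (c • B) - (c • B) * T = c • (T * B - B * T) := by rw [Matrix.mul_smul, Matrix.smul_mul, smul_sub]
        rw [this]
        exact Submodule.smul_mem _ _ h3
  have hback : ∀ g : Matrix (Ix n ⊕ J) (Ix n ⊕ J) ℂ, IsUnit g.det → (fun u => g⁻¹ * (g * A u * g⁻¹) * g) = A := by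
    intro g hg
    funext u
    exact conj_conj hg
  have hyM : PsiR J D y + Dc ∈ M₀ := by
    have h1 := span_conj g₀⁻¹ g₀ _ hTM
    have h2 : g₀⁻¹ * (T + Dc) * g₀ = PsiR J D y + Dc := by
      rw [PsiR_apply, hg₀i, hT, hDc, fb_add, fb_add, hg₀, fb_mul, fb_mul, add_zero, zero_add, add_zero, Matrix.one_mul, Matrix.mul_one,
        conj_conj hYu]
    rw [hback g₀ hg₀u, h2] at h1
    exact h1
  have hall := ideal_allR hDer hTr (B := BBx D) (fun a => (D a.1).B0 a.2) (y := y)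
    (fun a I hI1 hI2 => hGood (mu D a) (BBx D a) (y a) (hmu a) ((D a.1).hcl a.2) ((D a.1).hod a.2) (hy1 a) (hy2 a) I hI1 hI2)
    (PsiR J D) (fun X Y => by
      rw [PsiR_apply, PsiR_apply, PsiR_apply, Psi_br, fb_mul, fb_mul, fb_sub, Matrix.mul_zero, sub_zero]) (M := M₀)
    (fun κ hκ W hW => by
      set g : Matrix (Ix n ⊕ J) (Ix n ⊕ J) ℂ := fb (𝒴 * PsG D κ) 1 with hgd
      have hg : g ∈ S := ⟨κ, hκ, rfl⟩
      have hgu : IsUnit g.det := (Matrix.isUnit_iff_isUnit_det _).1 (hSu _ hg)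
      have hGu : IsUnit (PsG D κ).det := (Matrix.isUnit_iff_isUnit_det _).1 (PsG_unit D hκ)
      have hYGu : IsUnit (𝒴 * PsG D κ).det := by rw [Matrix.det_mul]; exact hYu.mul hGu
      have hTg' : g⁻¹ * T * g = PsiR J D (fun a => (κ a)⁻¹ * y a * κ a) := by
        have h2 := PsG_conj D (fun a => (by rw [(hκ a).1]; exact isUnit_one : IsUnit (κ a).det)) y
        have h3 : (𝒴 * PsG D κ)⁻¹ * (𝒴 * Psi D y * 𝒴⁻¹) * (𝒴 * PsG D κ) = Psi D (fun a => (κ a)⁻¹ * y a * κ a) := by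
          calc (𝒴 * PsG D κ)⁻¹ * (𝒴 * Psi D y * 𝒴⁻¹) * (𝒴 * PsG D κ) =
                (PsG D κ)⁻¹ * (𝒴⁻¹ * (𝒴 * Psi D y * 𝒴⁻¹) * 𝒴) * PsG D κ := by
                rw [Matrix.mul_inv_rev]
                simp only [Matrix.mul_assoc]
            _ = (PsG D κ)⁻¹ * (Psi D y * PsG D κ) := by rw [conj_conj hYu, Matrix.mul_assoc]
            _ = _ := by rw [h2, ← Matrix.mul_assoc, Matrix.nonsing_inv_mul _ hGu, Matrix.one_mul]
        rw [hgd, hT, fb_inv hYGu h1u, fb_mul, fb_mul, h3, PsiR_apply, Matrix.mul_zero, Matrix.zero_mul]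
      induction hW using Submodule.span_induction with
      | mem W hW =>
        obtain ⟨u, rfl⟩ := hW
        have h1 := span_conj g⁻¹ g _ (hst _ hg u)
        rw [hback _ hgu, conj_br hgu, hTg', conj_conj hgu] at h1
        exact h1
      | zero => rw [Matrix.mul_zero, Matrix.zero_mul, sub_zero]; exact Submodule.zero_mem _
      | add B B' _ _ h3 h4 =>
        have : ∀ Q : Matrix (Ix n ⊕ J) (Ix n ⊕ J) ℂ, Q * (B + B') - (B + B') * Q = (Q * B - B * Q) + (Q * B' - B' * Q) := by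
          intro Q
          noncomm_ring
        rw [this]
        exact Submodule.add_mem _ h3 h4
      | smul c B _ h3 =>
        have : ∀ Q : Matrix (Ix n ⊕ J) (Ix n ⊕ J) ℂ, Q * (c • B) - (c • B) * Q = c • (Q * B - B * Q) := by
          intro Q
          rw [Matrix.mul_smul, Matrix.smul_mul, smul_sub]
        rw [this]
        exact Submodule.smul_mem _ _ h3) (Q := Dc) (fun X => by
      rw [PsiR_apply, hDc, fb_mul, fb_mul, Matrix.mul_zero, Matrix.zero_mul, Matrix.zero_mul, Matrix.mul_zero]) hyM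
  intro W hW
  have h1 := span_conj Ch⁻¹ Ch _ (hall W hW)
  have h2 : (fun u => Ch⁻¹ * A u * Ch) = fun u => cmx ((b u : Matrix (Ix n ⊕ J) (Ix n ⊕ J) ℚ)) := by
    funext u
    exact conj_conj hChu
  have h3 : Ch⁻¹ * PsiR J D W * Ch = fb (C⁻¹ * Psi D W * C) 0 := by
    rw [hCh, PsiR_apply, fb_inv hC hCW, fb_mul, fb_mul, Matrix.mul_zero, Matrix.zero_mul]
  rw [h2, h3] at h1
  exact h1

end Q207.HG
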