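import Pool.Agent.Q207.HG.Mai
import Pool.Agent.Q207.HG.RTra
import Pool.Agent.Q207.HG.RAlg

/-!
# Project HG: the relative version, at a good tuple
-/

set_option autoImplicit false
set_option linter.all false

open Matrix Finset

namespace Q207.HG

open Q207.HM (lk Yx QA cls Lin Bil TP QuadT tpos QG_QA det_Yt cls_size cls_neg pkg3)
open Pool.Agent.Y123.GN (Clf)

section fb

variable {I J : Type} [Fintype I] [DecidableEq I] [Fintype J] [DecidableEq J]

/-- the block diagonal matrix with two blocks -/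
abbrev fb {R : Type} [Zero R] (A : Matrix I I R) (A' : Matrix J J R) : Matrix (I ⊕ J) (I ⊕ J) R := fromBlocks A 0 0 A'

lemma fb_11 {R : Type} [Zero R] (A : Matrix I I R) (A' : Matrix J J R) (a b : I) : fb A A' (Sum.inl a) (Sum.inl b) = A a b := rfl

lemma fb_12 {R : Type} [Zero R] (A : Matrix I I R) (A' : Matrix J J R) (a : I) (b : J) : fb A A' (Sum.inl a) (Sum.inr b) = 0 := rfl

lemma fb_21 {R : Type} [Zero R] (A : Matrix I I R) (A' : Matrix J J R) (a : J) (b : I) : fb A A' (Sum.inr a) (Sum.inl b) = 0 := rfl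

lemma fb_22 {R : Type} [Zero R] (A : Matrix I I R) (A' : Matrix J J R) (a b : J) : fb A A' (Sum.inr a) (Sum.inr b) = A' a b := rfl

lemma fb_mul (A B : Matrix I I ℂ) (A' B' : Matrix J J ℂ) : fb A A' * fb B B' = fb (A * B) (A' * B') := by
  rw [fromBlocks_multiply]
  simp

lemma fb_one : fb (1 : Matrix I I ℂ) (1 : Matrix J J ℂ) = 1 := fromBlocks_one

lemma fb_inv {A : Matrix I I ℂ} {A' : Matrix J J ℂ} (hA : IsUnit A.det) (hA' : IsUnit A'.det) : (fb A A')⁻¹ = fb A⁻¹ A'⁻¹ := by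
  refine Matrix.inv_eq_right_inv ?_
  rw [fb_mul, Matrix.mul_nonsing_inv _ hA, Matrix.mul_nonsing_inv _ hA', fb_one]

lemma fb_unit {A : Matrix I I ℂ} {A' : Matrix J J ℂ} (hA : IsUnit A.det) (hA' : IsUnit A'.det) : IsUnit (fb A A').det := by
  refine Matrix.isUnit_det_of_right_inverse (B := fb A⁻¹ A'⁻¹) ?_
  rw [fb_mul, Matrix.mul_nonsing_inv _ hA, Matrix.mul_nonsing_inv _ hA', fb_one]

lemma fb_sub (A B : Matrix I I ℂ) (A' B' : Matrix J J ℂ) : fb A A' - fb B B' = fb (A - B) (A' - B') := by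
  ext a b
  rcases a with a | a <;> rcases b with b | b <;> simp

lemma fb_add (A B : Matrix I I ℂ) (A' B' : Matrix J J ℂ) : fb A A' + fb B B' = fb (A + B) (A' + B') := by
  ext a b
  rcases a with a | a <;> rcases b with b | b <;> simp

lemma fb_smul (c : ℂ) (A : Matrix I I ℂ) (A' : Matrix J J ℂ) : c • fb A A' = fb (c • A) (c • A') := by
  ext a b
  rcases a with a | a <;> rcases b with b | b <;> simp

section exps

attribute [local instance] Matrix.linftyOpNormedRing Matrix.linftyOpNormedAlgebra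

/-- the ring homomorphism -/
noncomputable def fbH : Matrix I I ℂ × Matrix J J ℂ →+* Matrix (I ⊕ J) (I ⊕ J) ℂ where
  toFun x := fb x.1 x.2
  map_one' := fb_one
  map_mul' x y := (fb_mul _ _ _ _).symm
  map_zero' := fromBlocks_zero
  map_add' x y := (fb_add _ _ _ _).symm

lemma fb_pow (A : Matrix I I ℂ) (A' : Matrix J J ℂ) (m : ℕ) : (fb A A') ^ m = fb (A ^ m) (A' ^ m) := by
  induction m with
  | zero => rw [pow_zero, pow_zero, pow_zero, fb_one]
  | succ m ih => rw [pow_succ, pow_succ, pow_succ, ih, fb_mul]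

lemma fb_exp (A : Matrix I I ℂ) (A' : Matrix J J ℂ) : NormedSpace.exp (fb A A') = fb (NormedSpace.exp A) (NormedSpace.exp A') := by
  have h1 : HasSum (fun m : ℕ => ((m.factorial : ℂ)⁻¹) • A ^ m) (NormedSpace.exp A) := NormedSpace.exp_series_hasSum_exp' A
  have h2 : HasSum (fun m : ℕ => ((m.factorial : ℂ)⁻¹) • A' ^ m) (NormedSpace.exp A') := NormedSpace.exp_series_hasSum_exp' A'
  have h3 : HasSum (fun m : ℕ => ((m.factorial : ℂ)⁻¹) • (fb A A') ^ m) (NormedSpace.exp (fb A A')) :=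
    NormedSpace.exp_series_hasSum_exp' (fb A A')
  have hc : Continuous fun x : Matrix I I ℂ × Matrix J J ℂ => fb x.1 x.2 :=
    Continuous.matrix_fromBlocks continuous_fst continuous_const continuous_const continuous_snd
  have h4 := (h1.prodMk h2).map (fbH : Matrix I I ℂ × Matrix J J ℂ →+* Matrix (I ⊕ J) (I ⊕ J) ℂ).toAddMonoidHom hc
  refine h3.unique ?_
  have h5 : (fun m : ℕ => ((m.factorial : ℂ)⁻¹) • (fb A A') ^ m) =
      (fbH : Matrix I I ℂ × Matrix J J ℂ →+* Matrix (I ⊕ J) (I ⊕ J) ℂ).toAddMonoidHom ∘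
        fun m : ℕ => (((m.factorial : ℂ)⁻¹) • A ^ m, ((m.factorial : ℂ)⁻¹) • A' ^ m) := by
    funext m
    rw [fb_pow, fb_smul]
    rfl
  rw [h5]
  exact h4

end exps

lemma grd_fb {lv₁ : I → ℤ} {lv₂ : J → ℤ} {A : Matrix I I ℂ} {A' : Matrix J J ℂ} (h : Grd lv₁ A) (h' : Grd lv₂ A') :
    Grd (Sum.elim lv₁ lv₂) (fb A A') := by
  intro a b hab
  rcases a with a | a <;> rcases b with b | b
  · rw [fb_11, h a b hab]
    simp only [Sum.inl.injEq, Sum.elim_inl]
  · rw [fb_12, if_neg (by simp)]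
  · rw [fb_21, if_neg (by simp)]
  · rw [fb_22, h' a b hab]
    simp only [Sum.inr.injEq, Sum.elim_inr]

lemma grd_diag (l : J → ℤ) : Grd l (Matrix.diagonal fun a => (l a : ℂ)) := by
  intro a b _
  rw [Matrix.diagonal_apply]

lemma grd_zero : Grd (0 : J → ℤ) (0 : Matrix J J ℂ) := by
  intro a b _
  simp

end fb

section tot

variable {I J : Type} [Fintype I] [DecidableEq I] [Fintype J] [DecidableEq J]

/-- extension by zero -/
noncomputable def inlL : (I → ℂ) →ₗ[ℂ] (I ⊕ J → ℂ) where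
  toFun v := Sum.elim v 0
  map_add' v w := by
    funext x
    rcases x with x | x <;> simp
  map_smul' c v := by
    funext x
    rcases x with x | x <;> simp

noncomputable def inrL : (J → ℂ) →ₗ[ℂ] (I ⊕ J → ℂ) where
  toFun v := Sum.elim 0 v
  map_add' v w := by
    funext x
    rcases x with x | x <;> simp
  map_smul' c v := by
    funext x
    rcases x with x | x <;> simp

lemma inl_fb (v : I → ℂ) (A : Matrix I I ℂ) (A' : Matrix J J ℂ) : (inlL v : I ⊕ J → ℂ) ᵥ* fb A A' = inlL (v ᵥ* A) := by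
  funext x
  rcases x with x | x <;> simp [inlL, Matrix.vecMul, dotProduct, Fintype.sum_sum_type]

lemma inr_fb (v : J → ℂ) (A : Matrix I I ℂ) (A' : Matrix J J ℂ) : (inrL v : I ⊕ J → ℂ) ᵥ* fb A A' = inrL (v ᵥ* A') := by
  funext x
  rcases x with x | x <;> simp [inrL, Matrix.vecMul, dotProduct, Fintype.sum_sum_type]

/-- the trace in the relative situation -/
lemma trace_rel (hTrace : S_Trace) {H : ℤ → Submodule ℂ (I → ℂ)} (htop : (⨆ p, H p) = ⊤)
    (hconj : ∀ p, ∀ v ∈ H p, (fun a => (starRingEnd ℂ) (v a)) ∈ H (-p)) {Φ : Matrix I I ℂ}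
    (hΦ : ∀ p, ∀ v ∈ H p, v ᵥ* Φ = (p : ℂ) • v) {ΦW CW : Matrix J J ℂ} {levJ : J → ℤ} (hCW : IsUnit CW.det)
    (hCWΦ : CW * ΦW = Matrix.diagonal (fun a => (levJ a : ℂ)) * CW) (hWr : ΦW.map (starRingEnd ℂ) = -ΦW) {r : ℕ}
    {X : Fin r → Matrix (I ⊕ J) (I ⊕ J) ℚ} (hX : LinearIndependent ℚ X) {c : Matrix (Fin r) (Fin r) ℂ}
    (hc : ∀ s, (X s).map (algebraMap ℚ ℂ) * fb Φ ΦW - fb Φ ΦW * (X s).map (algebraMap ℚ ℂ) = ∑ t, c s t • (X t).map (algebraMap ℚ ℂ)) :
    c.trace = 0 := by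
  set HW : ℤ → Submodule ℂ (J → ℂ) := fun p => LinearMap.ker (Matrix.vecMulLinear ΦW - (p : ℂ) • LinearMap.id) with hHW
  have hHWm : ∀ p v, v ∈ HW p ↔ v ᵥ* ΦW = (p : ℂ) • v := by
    intro p v
    rw [hHW]
    simp only
    rw [LinearMap.mem_ker, LinearMap.sub_apply, sub_eq_zero]
    rfl
  have hrow : ∀ a, CW a ∈ HW (levJ a) := by
    intro a
    rw [hHWm]
    have h1 := congrFun hCWΦ a
    have h2 : (CW * ΦW) a = CW a ᵥ* ΦW := rfl
    rw [← h2, h1]
    funext b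
    rw [Matrix.diagonal_mul]
    rfl
  have hWtop : (⨆ p, HW p) = ⊤ := by
    rw [eq_top_iff]
    intro v _
    have h1 : v = ∑ a, (v ᵥ* CW⁻¹) a • CW a := by
      have h2 : v = (v ᵥ* CW⁻¹) ᵥ* CW := by
        rw [Matrix.vecMul_vecMul, Matrix.nonsing_inv_mul _ hCW, Matrix.vecMul_one]
      conv_lhs => rw [h2]
      funext b
      rw [Finset.sum_apply]
      rfl
    rw [h1]
    exact Submodule.sum_mem _ fun a _ => Submodule.smul_mem _ _ ((le_iSup HW (levJ a)) (hrow a))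
  refine hTrace (I ⊕ J) (fb Φ ΦW) (fun p => (H p).map inlL ⊔ (HW p).map inrL) ?_ ?_ ?_ r X hX c hc
  · rw [iSup_sup_eq, ← Submodule.map_iSup, ← Submodule.map_iSup, htop, hWtop, eq_top_iff]
    intro v _
    rw [Submodule.mem_sup]
    refine ⟨inlL fun a => v (Sum.inl a), Submodule.mem_map_of_mem trivial, inrL fun a => v (Sum.inr a),
      Submodule.mem_map_of_mem trivial, ?_⟩
    funext x
    rcases x with x | x <;> simp [inlL, inrL]
  · intro p v hv
    rw [Submodule.mem_sup] at hv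
    obtain ⟨_, ⟨v₁, hv₁, rfl⟩, _, ⟨v₂, hv₂, rfl⟩, rfl⟩ := hv
    have hv₂' := (hHWm p v₂).1 hv₂
    rw [Matrix.add_vecMul, inl_fb, inr_fb, hΦ p v₁ hv₁, hv₂', map_smul, map_smul, smul_add]
  · intro p v hv
    rw [Submodule.mem_sup] at hv ⊢
    obtain ⟨_, ⟨v₁, hv₁, rfl⟩, _, ⟨v₂, hv₂, rfl⟩, rfl⟩ := hv
    have hv₂' := (hHWm p v₂).1 hv₂
    refine ⟨inlL fun a => (starRingEnd ℂ) (v₁ a), Submodule.mem_map_of_mem (hconj p v₁ hv₁), inrL fun a => (starRingEnd ℂ) (v₂ a),
      Submodule.mem_map_of_mem ?_, ?_⟩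
    · rw [hHWm]
      funext b
      have h1 := congrArg (starRingEnd ℂ) (congrFun hv₂' b)
      have h2 : (starRingEnd ℂ) ((v₂ ᵥ* ΦW) b) = ((fun a => (starRingEnd ℂ) (v₂ a)) ᵥ* ΦW.map (starRingEnd ℂ)) b := by
        simp only [Matrix.vecMul, dotProduct, map_sum, map_mul, Matrix.map_apply]
      rw [h2, hWr, Matrix.vecMul_neg] at h1
      have h3 : (starRingEnd ℂ) (((p : ℂ) • v₂) b) = (p : ℂ) * (starRingEnd ℂ) (v₂ b) := by
        rw [Pi.smul_apply, smul_eq_mul, map_mul, map_intCast]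
      rw [h3, Pi.neg_apply] at h1
      rw [Pi.smul_apply, smul_eq_mul]
      push_cast
      linear_combination -h1
    · funext x
      rcases x with x | x <;> simp [inlL, inrL]

end tot

end Q207.HG
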