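import Pool.Agent.Q207.HM.Gou
import Pool.Agent.Q207.HM.Dua
import Pool.Agent.Y123.GN.E8

/-!
# Project HG: definitions and statements of the lemmas
-/

set_option autoImplicit false

open Matrix Finset

namespace Q207.HG

section plu

variable {K : Type} [Fintype K] [DecidableEq K] {r : ℕ}

/-- the minors of the matrix with the rows `A s` -/
noncomputable def Dt (A : Fin r → K → ℂ) (p : Fin r → K) : ℂ := (Matrix.of fun s l => A s (p l)).det

/-- the action of a matrix on the functions on `Fin r → K` as a derivation -/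
noncomputable def rho (M : Matrix K K ℂ) : Module.End ℂ ((Fin r → K) → ℂ) where
  toFun u := fun p => ∑ l, ∑ x, M (p l) x * u (Function.update p l x)
  map_add' u v := by
    funext p
    simp only [Pi.add_apply, mul_add, Finset.sum_add_distrib]
  map_smul' c u := by
    funext p
    simp only [Pi.smul_apply, smul_eq_mul, RingHom.id_apply, Finset.mul_sum]
    refine Finset.sum_congr rfl fun l _ => Finset.sum_congr rfl fun x _ => ?_
    ring

/-- a matrix which is triangular with the weights on the diagonal -/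
def Low (w : K → ℤ) (M : Matrix K K ℂ) : Prop := ∀ x y, w x ≤ w y → M x y = if x = y then (w x : ℂ) else 0

/-- the matrix of `A ↦ X A - A X` -/
def tau {I : Type} [DecidableEq I] (X : Matrix I I ℂ) : Matrix (I × I) (I × I) ℂ :=
  Matrix.of fun x y => (if x.2 = y.2 then X x.1 y.1 else 0) - (if x.1 = y.1 then X y.2 x.2 else 0)

end plu

/-- a matrix which is triangular with the levels on the diagonal -/
def Grd {I : Type} [DecidableEq I] (lev : I → ℤ) (T : Matrix I I ℂ) : Prop :=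
  ∀ a b, lev b ≤ lev a → T a b = if a = b then (lev a : ℂ) else 0

/-- the Lie algebra of the isometries of the form `B` of determinant one -/
def hB {n : ℕ} (B : Matrix (Fin n) (Fin n) ℂ) : Submodule ℂ (Matrix (Fin n) (Fin n) ℂ) where
  carrier := {X | X.trace = 0 ∧ Xᵀ * B + B * X = 0}
  zero_mem' := ⟨Matrix.trace_zero _ _, by simp⟩
  add_mem' := by
    rintro X Y ⟨h1, h2⟩ ⟨h3, h4⟩
    refine ⟨by rw [Matrix.trace_add, h1, h3, add_zero], ?_⟩
    rw [Matrix.transpose_add, Matrix.add_mul, Matrix.mul_add]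
    calc Xᵀ * B + Yᵀ * B + (B * X + B * Y) = (Xᵀ * B + B * X) + (Yᵀ * B + B * Y) := by abel
      _ = 0 := by rw [h2, h4, add_zero]
  smul_mem' := by
    rintro c X ⟨h1, h2⟩
    refine ⟨by rw [Matrix.trace_smul, h1, smul_zero], ?_⟩
    rw [Matrix.transpose_smul, Matrix.smul_mul, Matrix.mul_smul, ← smul_add, h2, smul_zero]

/-! ### Jobs -/

/-- HG1: `rho` is a Lie homomorphism -/
def S_Hom : Prop := ∀ (K : Type) [Fintype K] [DecidableEq K] (r : ℕ) (M M' : Matrix K K ℂ),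
  (rho (r := r) (M * M' - M' * M)) = rho M * rho M' - rho M' * rho M

/-- HG1: the derivative of the minors, when the span of the rows is stable -/
def S_Tr : Prop := ∀ (K : Type) [Fintype K] [DecidableEq K] (r : ℕ) (M : Matrix K K ℂ) (A : Fin r → K → ℂ)
  (c : Matrix (Fin r) (Fin r) ℂ), (∀ s, M *ᵥ A s = ∑ t, c s t • A t) → rho M (Dt A) = c.trace • Dt A

/-- HG1: the derivative of the minors along a curve -/
def S_Der : Prop := ∀ (K : Type) [Fintype K] [DecidableEq K] (r : ℕ) (M : Matrix K K ℂ) (B : ℂ → Fin r → K → ℂ),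
  (∀ s x, HasDerivAt (fun z => B z s x) ((M *ᵥ B 0 s) x) 0) → ∀ p, HasDerivAt (fun z => Dt (B z) p) (rho M (Dt (B 0)) p) 0

/-- HG2: if the derivative of the minors is a multiple of the minors, then the span of the rows is stable -/
def S_Span : Prop := ∀ (K : Type) [Fintype K] [DecidableEq K] (r : ℕ) (M : Matrix K K ℂ) (A : Fin r → K → ℂ) (z : ℂ),
  LinearIndependent ℂ A → rho M (Dt A) = z • Dt A → ∀ s, M *ᵥ A s ∈ Submodule.span ℂ (Set.range A)

/-- HG3: triangular matrices and functions in the kernel -/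
def S_Low : Prop := ∀ (K : Type) [Fintype K] [DecidableEq K] (r : ℕ) (w : K → ℤ) (M : Matrix K K ℂ), Low w M →
  ∀ u : (Fin r → K) → ℂ, rho M u = 0 → ∀ p, ∑ l, w (p l) < 0 → u p = 0

/-- HG3: functions of non-negative weight in a space stable under a matrix which is a sum of commutators -/
def S_Zero : Prop := ∀ (K : Type) [Fintype K] [DecidableEq K] (r : ℕ) (w : K → ℤ) (M : Matrix K K ℂ), Low w M →
  ∀ (U : Submodule ℂ ((Fin r → K) → ℂ)), (∀ u ∈ U, ∀ p, ∑ l, w (p l) < 0 → u p = 0) →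
  ∀ 𝓛 : Set (Matrix K K ℂ), (∀ X ∈ 𝓛, ∀ u ∈ U, rho X u ∈ U) →
    M ∈ Submodule.span ℂ {Z | ∃ X ∈ 𝓛, ∃ Y ∈ 𝓛, Z = X * Y - Y * X} → ∀ u ∈ U, rho M u = 0

/-- HG3: the part of weight zero -/
def S_Part : Prop := ∀ (K : Type) [Fintype K] [DecidableEq K] (w : K → ℤ) (M : Matrix K K ℂ), Low w M →
  ∀ (L : Submodule ℂ (K → ℂ)), (∀ f ∈ L, M *ᵥ f ∈ L) → ∀ f g : K → ℂ, M *ᵥ f = 0 → (∀ x, w x ≤ 0 → g x = 0) → f + g ∈ L → f ∈ L

/-- HG4: the trace of `ad Φ` on a rational subspace is zero, for the grading operator `Φ` of a real Hodge structure -/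
def S_Trace : Prop := ∀ (I : Type) [Fintype I] [DecidableEq I] (Φ : Matrix I I ℂ) (H : ℤ → Submodule ℂ (I → ℂ)),
  (⨆ p, H p) = ⊤ → (∀ p, ∀ v ∈ H p, v ᵥ* Φ = (p : ℂ) • v) → (∀ p, ∀ v ∈ H p, (fun a => (starRingEnd ℂ) (v a)) ∈ H (-p)) →
  ∀ (r : ℕ) (X : Fin r → Matrix I I ℚ), LinearIndependent ℚ X → ∀ c : Matrix (Fin r) (Fin r) ℂ,
    (∀ s, (X s).map (algebraMap ℚ ℂ) * Φ - Φ * (X s).map (algebraMap ℚ ℂ) = ∑ t, c s t • (X t).map (algebraMap ℚ ℂ)) → c.trace = 0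

/-- HG5: the grading operator in a basis adapted to the Hodge filtration -/
def S_Grd : Prop := ∀ (I : Type) [Fintype I] [DecidableEq I] (lev : I → ℤ) (Z Φ : Matrix I I ℂ) (H : ℤ → Submodule ℂ (I → ℂ)),
  IsUnit Z.det → (∀ p, (⨆ q : {q : ℤ // p ≤ q}, H q) = Submodule.span ℂ {v | ∃ a, p ≤ lev a ∧ v = Z a}) →
  (∀ p, ∀ v ∈ H p, v ᵥ* Φ = (p : ℂ) • v) → Grd lev (Z * Φ * Z⁻¹)

/-- HG6: the ideal generated by a regular element -/
def S_Good : Prop := ∀ (n : ℕ) (B y : Matrix (Fin n) (Fin n) ℂ), 2 ≤ n → Pool.Agent.Y123.GN.Clf B →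
  (IsUnit B → Bᵀ = B → Odd n) → y ∈ hB B →
  y.charpoly = ∏ a : Fin n, (Polynomial.X - Polynomial.C (((n : ℂ) - 1) - 2 * ((a : ℕ) : ℂ))) →
  ∀ I : Submodule ℂ (Matrix (Fin n) (Fin n) ℂ), (∀ X ∈ hB B, ∀ Y ∈ I, X * Y - Y * X ∈ I) →
    (∀ X ∈ hB B, X * y - y * X ∈ I) → hB B ≤ I

/-- HG6: the algebra is perfect -/
def S_Perf : Prop := ∀ (n : ℕ) (B : Matrix (Fin n) (Fin n) ℂ), 2 ≤ n → Pool.Agent.Y123.GN.Clf B →
  hB B ≤ Submodule.span ℂ {Z | ∃ X ∈ hB B, ∃ Y ∈ hB B, Z = X * Y - Y * X}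

/-- HG7: the invariant forms -/
def S_Form : Prop := ∀ (n : ℕ) (B C : Matrix (Fin n) (Fin n) ℂ), 2 ≤ n → Pool.Agent.Y123.GN.Clf B → IsUnit B →
  (∀ κ : Matrix (Fin n) (Fin n) ℂ, κ.det = 1 → κᵀ * B * κ = B → κᵀ * C * κ = C) → ∃ z : ℂ, C = z • B

/-- the matrix `N(z) = K₀ + z K₁` of the bilinear concomitant -/
noncomputable def K0 (n : ℕ) : Matrix (Fin n) (Fin n) ℂ := Matrix.of fun a b => if (a : ℕ) + b + 1 = n then (-1) ^ (b : ℕ) else 0

noncomputable def K1 (n : ℕ) (Q : Polynomial ℚ) : Matrix (Fin n) (Fin n) ℂ := Matrix.of fun a b =>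
  -∑ l ∈ Finset.range n, ((-1) ^ l * (l.choose b : ℂ) * (if (a : ℕ) + l + 1 ≤ n then ((Q.coeff ((a : ℕ) + l + 1) : ℚ) : ℂ) else 0))

/-- HG8: the bilinear concomitant of the equations with the exponents `α` and `1 - α` -/
def S_Conc : Prop := ∀ (n : ℕ) (α : Fin n → ℚ), 2 ≤ n → (∀ i, 0 < α i ∧ α i < 1) → ∀ x : ℝ, 0 < x → x < 1 →
  (Q207.HM.Yx n (Q207.HM.QA α) x)ᵀ * (K0 n + (x : ℂ) • K1 n (Q207.HM.QA α)) * Q207.HM.Yx n (Q207.HM.QA fun i => 1 - α i) x = K0 n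

end Q207.HG
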