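import Pool.Agent.Q207.HG.Pol

/-!
# Project HG: the minors at all points of the torsor
-/

set_option autoImplicit false

open Matrix Finset

namespace Q207.HG

open Q207.HM (Vb pb TP Yx QA)

variable {k : ℕ} {r : Fin k → ℕ} {n : ∀ i, Fin (r i) → ℕ}

/-- the index set of the sum -/
abbrev Ix {r : Fin k → ℕ} (n : ∀ i, Fin (r i) → ℕ) : Type := Σ x : (Σ i : Fin k, Fin (r i)), Fin (n x.1 x.2)

/-- the block matrix -/
noncomputable abbrev tot (X : ∀ i j, Matrix (Fin (n i j)) (Fin (n i j)) ℂ) : Matrix (Ix n) (Ix n) ℂ :=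
  blockDiagonal' fun x : (Σ i : Fin k, Fin (r i)) => X x.1 x.2

/-- the generic block matrix -/
noncomputable def Gx (n : ∀ i, Fin (r i) → ℕ) : Matrix (Ix n) (Ix n) (MvPolynomial (Vb n) ℂ) :=
  blockDiagonal' fun x : (Σ i : Fin k, Fin (r i)) => Matrix.of fun a b => MvPolynomial.X (⟨x.1, some ⟨x.2, (a, b)⟩⟩ : Vb n)

lemma Gx_eval (l : Fin k → ℂ) (g : ∀ i j, Matrix (Fin (n i j)) (Fin (n i j)) ℂ) :
    (MvPolynomial.aeval (pb l g) : MvPolynomial (Vb n) ℂ →ₐ[ℂ] ℂ).toRingHom.mapMatrix (Gx n) = tot g := by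
  unfold Gx
  rw [RingHom.mapMatrix_apply, blockDiagonal'_map _ _ (map_zero _)]
  refine congrArg blockDiagonal' (funext fun x => ?_)
  ext a b
  show MvPolynomial.aeval (pb l g) (MvPolynomial.X (⟨x.1, some ⟨x.2, (a, b)⟩⟩ : Vb n)) = _
  rw [MvPolynomial.aeval_X]
  rfl

lemma Gx_PQ (a b : Ix n) : PQ 1 1 (Gx n a b) := by
  unfold Gx
  rw [blockDiagonal'_apply]
  split_ifs with h
  · exact PQ.X _
  · exact PQ.zero

/-- the generic conjugate -/
noncomputable def Mx (C : Matrix (Ix n) (Ix n) ℂ) (X : Matrix (Ix n) (Ix n) ℚ) : Matrix (Ix n) (Ix n) (MvPolynomial (Vb n) ℂ) :=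
  Gx n * (C * X.map (algebraMap ℚ ℂ) * C⁻¹).map (MvPolynomial.C : ℂ →+* MvPolynomial (Vb n) ℂ) * (Gx n).adjugate

/-- the polynomial of a minor -/
noncomputable def Px (C : Matrix (Ix n) (Ix n) ℂ) {s : ℕ} (X : Fin s → Matrix (Ix n) (Ix n) ℚ) (p : Fin s → Ix n × Ix n) :
    MvPolynomial (Vb n) ℂ := (Matrix.of fun u l => Mx C (X u) (p l).1 (p l).2).det

lemma Px_PQ (C : Matrix (Ix n) (Ix n) ℂ) {s : ℕ} (X : Fin s → Matrix (Ix n) (Ix n) ℚ) (p : Fin s → Ix n × Ix n) :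
    PQ (W1 C ^ (2 * s)) (s * (1 + Fintype.card (Ix n))) (Px C X p) := by
  unfold Px
  have h1 : ∀ u l, PQ (W1 C ^ 2) (1 + Fintype.card (Ix n)) ((Matrix.of fun u l => Mx C (X u) (p l).1 (p l).2 :
      Matrix (Fin s) (Fin s) (MvPolynomial (Vb n) ℂ)) u l) := by
    intro u l
    have h2 := PQ.mulM (W := 1 * W1 C ^ 2) (W' := 1) (d := 1 + 0) (d' := Fintype.card (Ix n))
      (PQ.mulM (fun a b => Gx_PQ (n := n) a b) (M' := (C * (X u).map (algebraMap ℚ ℂ) * C⁻¹).map (MvPolynomial.C : ℂ →+* MvPolynomial (Vb n) ℂ)) (W' := W1 C ^ 2) (d' := 0)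
        fun a b => PQ.C (conj_mem C (X u) a b)) (fun a b => PQ.adj (fun a b => Gx_PQ (n := n) a b) a b) (p l).1 (p l).2
    rw [one_mul, mul_one, Nat.add_zero] at h2
    exact h2
  have h2 := PQ.det h1
  rw [Fintype.card_fin, ← pow_mul] at h2
  exact h2

lemma adj_eqI {I : Type} [Fintype I] [DecidableEq I] {X : Matrix I I ℂ} (hX : IsUnit X.det) : X.adjugate = X.det • X⁻¹ := by
  rw [Matrix.inv_def, smul_smul, Ring.mul_inverse_cancel _ hX, one_smul]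

lemma Px_eval (C : Matrix (Ix n) (Ix n) ℂ) {s : ℕ} (X : Fin s → Matrix (Ix n) (Ix n) ℚ) (p : Fin s → Ix n × Ix n) (l : Fin k → ℂ)
    {g : ∀ i j, Matrix (Fin (n i j)) (Fin (n i j)) ℂ} (hg : IsUnit (tot g).det) :
    MvPolynomial.aeval (pb l g) (Px C X p) =
      (tot g).det ^ s * Dt (fun u => un (tot g * (C * (X u).map (algebraMap ℚ ℂ) * C⁻¹) * (tot g)⁻¹)) p := by
  set φ : MvPolynomial (Vb n) ℂ →+* ℂ := (MvPolynomial.aeval (pb l g) : MvPolynomial (Vb n) ℂ →ₐ[ℂ] ℂ).toRingHom with hφ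
  have hmap : ∀ {a : Type} [Fintype a] [DecidableEq a] (M M' : Matrix a a (MvPolynomial (Vb n) ℂ)),
      (M * M').map φ = M.map φ * M'.map φ := fun M M' => Matrix.map_mul
  have hC : ∀ M : Matrix (Ix n) (Ix n) ℂ, (M.map (MvPolynomial.C : ℂ →+* MvPolynomial (Vb n) ℂ)).map φ = M := by
    intro M
    ext a b
    rw [Matrix.map_apply, Matrix.map_apply, hφ]
    simp
  have hG : (Gx n).map φ = tot g := Gx_eval l g
  have hA : ((Gx n).adjugate).map φ = (tot g).det • (tot g)⁻¹ := by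
    have h1 := RingHom.map_adjugate φ (Gx n)
    rw [RingHom.mapMatrix_apply, RingHom.mapMatrix_apply, hG, adj_eqI hg] at h1
    exact h1
  show φ (Px C X p) = _
  unfold Px
  rw [RingHom.map_det]
  have h1 : φ.mapMatrix (Matrix.of fun u l => Mx C (X u) (p l).1 (p l).2 : Matrix (Fin s) (Fin s) (MvPolynomial (Vb n) ℂ)) =
      (tot g).det • (Matrix.of fun u l => un (tot g * (C * (X u).map (algebraMap ℚ ℂ) * C⁻¹) * (tot g)⁻¹) (p l)) := by
    ext u l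
    rw [RingHom.mapMatrix_apply, Matrix.map_apply, Matrix.of_apply, Matrix.smul_apply, Matrix.of_apply, un_apply]
    have h2 : φ (Mx C (X u) (p l).1 (p l).2) = ((Mx C (X u)).map φ) (p l).1 (p l).2 := rfl
    rw [h2]
    unfold Mx
    rw [hmap, hmap, hC, hG, hA, Matrix.mul_smul, Matrix.smul_apply]
  rw [h1, Matrix.det_smul, Fintype.card_fin]
  rfl

/-- the relations of degree at most `δ` with coefficients in `V` are functional relations -/
def GoodP (δ : ℕ) (V : Submodule ℚ ℂ) (α : ∀ i j, Fin (n i j) → ℚ) (t : Fin k → ℕ) : Prop :=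
  ∀ P : MvPolynomial (Vb n) ℂ, PQ V δ P →
    MvPolynomial.aeval (pb (fun i => ((Real.log (t i) : ℝ) : ℂ)) fun i j => Yx (n i j) (QA (α i j)) (1 / (t i : ℝ))) P = 0 →
    ∀ g : ∀ i j, Matrix (Fin (n i j)) (Fin (n i j)) ℂ, (∀ i, g i ∈ TP (α i) (t i)) →
      MvPolynomial.aeval (pb (fun i => ((Real.log (t i) : ℝ) : ℂ)) g) P = 0

/-- the degree -/
def dl (n : ∀ i, Fin (r i) → ℕ) : ℕ := Fintype.card (Ix n) ^ 2 * (1 + Fintype.card (Ix n))

/-- the space -/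
noncomputable def Vs (C : Matrix (Ix n) (Ix n) ℂ) : Submodule ℚ ℂ := W1 C ^ (2 * Fintype.card (Ix n) ^ 2)

/-- **Transfer of the vanishing of minors.** -/
theorem transfer {α : ∀ i j, Fin (n i j) → ℚ} {t : Fin k → ℕ} {C : Matrix (Ix n) (Ix n) ℂ} (hG : GoodP (dl n) (Vs C) α t)
    (hY : ∀ i, (fun j => Yx (n i j) (QA (α i j)) (1 / (t i : ℝ))) ∈ TP (α i) (t i)) {s : ℕ} (hs : s ≤ Fintype.card (Ix n) ^ 2)
    (X : Fin s → Matrix (Ix n) (Ix n) ℚ) (p : Fin s → Ix n × Ix n)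
    (h0 : Dt (fun u => un (tot (fun i j => Yx (n i j) (QA (α i j)) (1 / (t i : ℝ))) * (C * (X u).map (algebraMap ℚ ℂ) * C⁻¹) *
      (tot fun i j => Yx (n i j) (QA (α i j)) (1 / (t i : ℝ)))⁻¹)) p = 0)
    {g : ∀ i j, Matrix (Fin (n i j)) (Fin (n i j)) ℂ} (hg : ∀ i, g i ∈ TP (α i) (t i)) :
    Dt (fun u => un (tot g * (C * (X u).map (algebraMap ℚ ℂ) * C⁻¹) * (tot g)⁻¹)) p = 0 := by
  have hu : ∀ g : ∀ i j, Matrix (Fin (n i j)) (Fin (n i j)) ℂ, (∀ i, g i ∈ TP (α i) (t i)) → IsUnit (tot g).det := by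
    intro g hg
    refine (Matrix.isUnit_iff_isUnit_det _).1 ⟨⟨tot g, tot fun i j => (g i j)⁻¹, ?_, ?_⟩, rfl⟩
    · rw [← blockDiagonal'_mul]
      refine Eq.trans (congrArg blockDiagonal' (funext fun x => ?_)) (blockDiagonal'_one)
      exact Matrix.mul_nonsing_inv _ (Ne.isUnit (by rw [(hg x.1).2 x.2]; exact Complex.exp_ne_zero _))
    · rw [← blockDiagonal'_mul]
      refine Eq.trans (congrArg blockDiagonal' (funext fun x => ?_)) (blockDiagonal'_one)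
      exact Matrix.nonsing_inv_mul _ (Ne.isUnit (by rw [(hg x.1).2 x.2]; exact Complex.exp_ne_zero _))
  have h1 := hG (Px C X p) ((Px_PQ C X p).mono (W1_pow_mono C (Nat.mul_le_mul_left 2 hs)) (Nat.mul_le_mul_right _ hs)) (by
    rw [Px_eval C X p _ (hu _ hY), h0, mul_zero]) g hg
  rw [Px_eval C X p _ (hu g hg)] at h1
  exact (mul_eq_zero.1 h1).resolve_left (pow_ne_zero _ (hu g hg).ne_zero)

end Q207.HG
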