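import Pool.Agent.Q207.HG.Idl

/-!
# Project HG: triangular matrices
-/

set_option autoImplicit false

open Matrix Finset

namespace Q207.HG

variable {n : ℕ}

/-- the levels -/
def lv (n : ℕ) (a : Fin n) : ℤ := (n : ℤ) - 1 - 2 * (a : ℤ)

lemma lv_le {a b : Fin n} : lv n b ≤ lv n a ↔ a ≤ b := by
  unfold lv
  rw [Fin.le_def]
  omega

lemma lv_rev (a : Fin n) : lv n a.rev = -lv n a := by
  unfold lv
  rw [Fin.val_rev]
  have := a.isLt
  omega

lemma lv_c (a : Fin n) : ((lv n a : ℤ) : ℂ) = ((n : ℂ) - 1) - 2 * ((a : ℕ) : ℂ) := by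
  unfold lv
  push_cast
  ring

/-- lower triangular with the levels on the diagonal -/
lemma grd_iff {T : Matrix (Fin n) (Fin n) ℂ} :
    Grd (lv n) T ↔ T.BlockTriangular OrderDual.toDual ∧ ∀ a, T a a = (lv n a : ℂ) := by
  constructor
  · intro h
    refine ⟨fun a b hab => ?_, fun a => ?_⟩
    · have hab' : a < b := hab
      rw [h a b (lv_le.2 hab'.le), if_neg hab'.ne]
    · rw [h a a le_rfl, if_pos rfl]
  · rintro ⟨h1, h2⟩ a b hab
    rw [lv_le] at hab
    split_ifs with h
    · subst h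
      exact h2 a
    · exact h1 (show OrderDual.toDual b < OrderDual.toDual a from lt_of_le_of_ne hab (Ne.symm h))

/-- the diagonal of a product of lower triangular matrices -/
lemma diag_mul {A B : Matrix (Fin n) (Fin n) ℂ} (hA : A.BlockTriangular OrderDual.toDual) (hB : B.BlockTriangular OrderDual.toDual)
    (a : Fin n) : (A * B) a a = A a a * B a a := by
  rw [Matrix.mul_apply, Finset.sum_eq_single a]
  · intro b _ hb
    rcases lt_or_gt_of_ne hb with h | h
    · rw [hB (show OrderDual.toDual a < OrderDual.toDual b from h), mul_zero]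
    · rw [hA (show OrderDual.toDual b < OrderDual.toDual a from h), zero_mul]
  · intro h
    exact absurd (Finset.mem_univ _) h

/-- **The dual of a triangular matrix.** -/
theorem tri {N T : Matrix (Fin n) (Fin n) ℂ} (hN : ∀ a b : Fin n, n < (a : ℕ) + b + 1 → N a b = 0)
    (hN' : ∀ a b : Fin n, (a : ℕ) + b + 1 = n → N a b ≠ 0) (hNu : IsUnit N.det) (hT : Grd (lv n) T) :
    Grd (lv n) (-(N⁻¹ * Tᵀ * N)) := by
  rw [grd_iff] at hT
  obtain ⟨hT1, hT2⟩ := hT
  set L : Matrix (Fin n) (Fin n) ℂ := N.submatrix Fin.revPerm (Equiv.refl _) with hL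
  set S : Matrix (Fin n) (Fin n) ℂ := -(Tᵀ.submatrix Fin.revPerm Fin.revPerm) with hS
  have hLt : L.BlockTriangular OrderDual.toDual := by
    intro a b hab
    have hab' : a < b := hab
    rw [hL, Matrix.submatrix_apply]
    refine hN _ _ ?_
    rw [Fin.revPerm_apply, Fin.val_rev, Equiv.refl_apply]
    have := a.isLt
    have := Fin.lt_def.1 hab'
    omega
  have hLd : ∀ a, L a a ≠ 0 := by
    intro a
    rw [hL, Matrix.submatrix_apply]
    refine hN' _ _ ?_
    rw [Fin.revPerm_apply, Fin.val_rev, Equiv.refl_apply]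
    have := a.isLt
    omega
  have hSt : S.BlockTriangular OrderDual.toDual := by
    intro a b hab
    have hab' : a < b := hab
    rw [hS, Matrix.neg_apply, Matrix.submatrix_apply, Matrix.transpose_apply, Fin.revPerm_apply, Fin.revPerm_apply,
      hT1 (show OrderDual.toDual a.rev < OrderDual.toDual b.rev from Fin.rev_lt_rev.2 hab'), neg_zero]
  have hSd : ∀ a, S a a = (lv n a : ℂ) := by
    intro a
    rw [hS, Matrix.neg_apply, Matrix.submatrix_apply, Matrix.transpose_apply, Fin.revPerm_apply, hT2, lv_rev]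
    push_cast
    ring
  set T' : Matrix (Fin n) (Fin n) ℂ := -(N⁻¹ * Tᵀ * N) with hT'
  have hNT : N * T' = -(Tᵀ * N) := by
    rw [hT', Matrix.mul_neg]
    congr 1
    calc N * (N⁻¹ * Tᵀ * N) = (N * N⁻¹) * (Tᵀ * N) := by simp only [Matrix.mul_assoc]
      _ = _ := by rw [Matrix.mul_nonsing_inv _ hNu, Matrix.one_mul]
  have hLT : L * T' = S * L := by
    have h1 : L * T' = (N * T').submatrix Fin.revPerm (Equiv.refl _) := by
      ext a b
      rw [Matrix.submatrix_apply, Matrix.mul_apply, Matrix.mul_apply]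
      rfl
    rw [h1, hNT]
    ext a b
    rw [Matrix.submatrix_apply, Matrix.neg_apply, Matrix.mul_apply, Matrix.mul_apply, hS, ← Finset.sum_neg_distrib]
    rw [← Equiv.sum_comp Fin.revPerm]
    refine Finset.sum_congr rfl fun c _ => ?_
    rw [Matrix.neg_apply, Matrix.submatrix_apply, hL, Matrix.submatrix_apply, neg_mul]
  have hLu : IsUnit L.det := by
    rw [← Matrix.isUnit_iff_isUnit_det]
    have h1 : L.det = ∏ a, L a a := Matrix.det_of_isLowerTriangular L hLt
    rw [Matrix.isUnit_iff_isUnit_det, h1]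
    exact Ne.isUnit (Finset.prod_ne_zero_iff.2 fun a _ => hLd a)
  have hT'e : T' = L⁻¹ * (S * L) := by
    rw [← hLT, ← Matrix.mul_assoc, Matrix.nonsing_inv_mul _ hLu, Matrix.one_mul]
  have hT't : T'.BlockTriangular OrderDual.toDual := by
    rw [hT'e]
    let := Matrix.invertibleOfIsUnitDet L hLu
    exact (Matrix.blockTriangular_inv_of_blockTriangular hLt).mul (hSt.mul hLt)
  rw [grd_iff]
  refine ⟨hT't, fun a => ?_⟩
  have h1 := congrFun (congrFun hLT a) a
  rw [diag_mul hLt hT't, diag_mul hSt hLt, hSd, mul_comm] at h1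
  exact mul_right_cancel₀ (hLd a) h1

/-- the characteristic polynomial -/
lemma grd_charpoly {T : Matrix (Fin n) (Fin n) ℂ} (hT : Grd (lv n) T) :
    T.charpoly = ∏ a : Fin n, (Polynomial.X - Polynomial.C (((n : ℂ) - 1) - 2 * ((a : ℕ) : ℂ))) := by
  rw [grd_iff] at hT
  rw [← Matrix.charpoly_transpose, Matrix.charpoly_of_isUpperTriangular]
  · refine Finset.prod_congr rfl fun a _ => ?_
    rw [Matrix.transpose_apply, hT.2, lv_c]
  · intro a b hab
    rw [Matrix.transpose_apply]
    exact hT.1 hab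

lemma grd_charpoly_neg {T : Matrix (Fin n) (Fin n) ℂ} (hT : Grd (lv n) T) :
    (-T).charpoly = ∏ a : Fin n, (Polynomial.X - Polynomial.C (((n : ℂ) - 1) - 2 * ((a : ℕ) : ℂ))) := by
  rw [grd_iff] at hT
  rw [← Matrix.charpoly_transpose, Matrix.charpoly_of_isUpperTriangular]
  · rw [← Equiv.prod_comp Fin.revPerm]
    refine Finset.prod_congr rfl fun a _ => ?_
    rw [Matrix.transpose_apply, Matrix.neg_apply, hT.2, Fin.revPerm_apply, lv_rev, ← lv_c]
    push_cast
    rw [neg_neg]
  · intro a b hab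
    rw [Matrix.transpose_apply, Matrix.neg_apply, hT.1 hab, neg_zero]

lemma grd_trace {T : Matrix (Fin n) (Fin n) ℂ} (hT : Grd (lv n) T) : T.trace = 0 := by
  rw [grd_iff] at hT
  have h1 : T.trace = ∑ a, (lv n a : ℂ) := Finset.sum_congr rfl fun a _ => hT.2 a
  have h2 : ∑ a, (lv n a : ℂ) = ∑ a : Fin n, (lv n a.rev : ℂ) := (Equiv.sum_comp Fin.revPerm fun a => (lv n a : ℂ)).symm
  have h3 : ∑ a, (lv n a : ℂ) = -∑ a : Fin n, (lv n a : ℂ) := by
    conv_lhs => rw [h2]
    rw [← Finset.sum_neg_distrib]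
    refine Finset.sum_congr rfl fun a _ => ?_
    rw [lv_rev]
    push_cast
    ring
  rw [h1]
  have h4 : (2 : ℂ) * ∑ a : Fin n, (lv n a : ℂ) = 0 := by linear_combination h3
  exact (mul_eq_zero.1 h4).resolve_left two_ne_zero

/-- the diagonal matrix of the levels -/
noncomputable def E0 (n : ℕ) : Matrix (Fin n) (Fin n) ℂ := Matrix.diagonal fun a => (lv n a : ℂ)

lemma E0_grd : Grd (lv n) (E0 n) := by
  rw [grd_iff]
  refine ⟨Matrix.blockTriangular_diagonal _, fun a => ?_⟩
  unfold E0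
  rw [Matrix.diagonal_apply_eq]

/-- half of the sum -/
lemma grd_half {T T' : Matrix (Fin n) (Fin n) ℂ} (hT : Grd (lv n) T) (hT' : Grd (lv n) T') : Grd (lv n) ((1 / 2 : ℂ) • (T + T')) := by
  intro a b hab
  rw [Matrix.smul_apply, Matrix.add_apply, hT a b hab, hT' a b hab]
  split_ifs
  · rw [smul_eq_mul]
    ring
  · rw [add_zero, smul_zero]

/-- the element compatible with a form -/
lemma form_el {N : Matrix (Fin n) (Fin n) ℂ} {e : ℂ} (hNu : IsUnit N.det) (hs : Nᵀ = e • N) (E : Matrix (Fin n) (Fin n) ℂ) :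
    ((1 / 2 : ℂ) • (E + -(N⁻¹ * Eᵀ * N)))ᵀ * N + N * ((1 / 2 : ℂ) • (E + -(N⁻¹ * Eᵀ * N))) = 0 := by
  have he : (e * e) • N = N := by
    calc (e * e) • N = e • (e • N) := by rw [smul_smul]
      _ = (Nᵀ)ᵀ := by rw [hs, Matrix.transpose_smul, hs]
      _ = N := Matrix.transpose_transpose _
  by_cases hn : IsEmpty (Fin n)
  · ext a
    exact hn.elim a
  rw [not_isEmpty_iff] at hn
  have hN0 : N ≠ 0 := by
    rintro rfl
    rw [Matrix.det_zero] at hNu
    exact not_isUnit_zero hNu
  have he1 : e * e = 1 := by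
    have h1 : (e * e - 1) • N = 0 := by rw [sub_smul, he, one_smul, sub_self]
    have h2 := (smul_eq_zero.1 h1).resolve_right hN0
    linear_combination h2
  have hi : (N⁻¹)ᵀ = e • N⁻¹ := by
    rw [Matrix.transpose_nonsing_inv, hs]
    refine Matrix.inv_eq_right_inv ?_
    rw [Matrix.smul_mul, Matrix.mul_smul, smul_smul, he1, one_smul, Matrix.mul_nonsing_inv _ hNu]
  have h1 : (N⁻¹ * Eᵀ * N)ᵀ * N = N * E := by
    rw [Matrix.transpose_mul, Matrix.transpose_mul, Matrix.transpose_transpose, hs, hi]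
    calc e • N * (E * e • N⁻¹) * N = (e * e) • (N * (E * (N⁻¹ * N))) := by
          simp only [Matrix.smul_mul, Matrix.mul_smul, smul_smul, Matrix.mul_assoc]
      _ = N * E := by rw [he1, one_smul, Matrix.nonsing_inv_mul _ hNu, Matrix.mul_one]
  have h2 : N * (N⁻¹ * Eᵀ * N) = Eᵀ * N := by
    calc N * (N⁻¹ * Eᵀ * N) = (N * N⁻¹) * (Eᵀ * N) := by simp only [Matrix.mul_assoc]
      _ = _ := by rw [Matrix.mul_nonsing_inv _ hNu, Matrix.one_mul]
  rw [Matrix.transpose_smul, Matrix.smul_mul, Matrix.mul_smul, ← smul_add, Matrix.transpose_add, Matrix.transpose_neg, Matrix.add_mul,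
    Matrix.neg_mul, h1, Matrix.mul_add, Matrix.mul_neg, h2]
  rw [show Eᵀ * N + -(N * E) + (N * E + -(Eᵀ * N)) = 0 by abel, smul_zero]

end Q207.HG
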