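import Pool.Agent.Q207.HG.Tri
import Pool.Agent.Q207.HG.Pk3

/-!
# Project HG: the grading element comes from the Lie algebra
-/

set_option autoImplicit false

open Matrix Finset

namespace Q207.HG

open Q207.HM (lk Yx QA cls QG_QA cls_size det_Yx_ne)
open Pool.Agent.Y123.GN (Clf)
open Pool.Agent.Y119.HZ (evq)

section exps

variable {I : Type} [Fintype I] [DecidableEq I]

attribute [local instance] Matrix.linftyOpNormedRing Matrix.linftyOpNormedAlgebra

lemma two_deriv0 (N X N' : Matrix I I ℂ) :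
    HasDerivAt (fun t : ℂ => NormedSpace.exp (t • N) * X * NormedSpace.exp (t • N')) (N * X + X * N') 0 := by
  have h1 := (deriv_expI N 0).mul_const X
  have h2 := deriv_expI N' 0
  have h3 := h1.mul h2
  simp only [zero_smul, NormedSpace.exp_zero, one_mul, mul_one] at h3
  exact h3

lemma two_deriv {N X N' : Matrix I I ℂ} (h : ∀ t : ℂ, NormedSpace.exp (t • N) * X * NormedSpace.exp (t • N') = X) :
    N * X + X * N' = 0 := by
  have h1 := two_deriv0 N X N'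
  have h2 : (fun t : ℂ => NormedSpace.exp (t • N) * X * NormedSpace.exp (t • N')) = fun _ => X := funext h
  rw [h2] at h1
  exact h1.unique (hasDerivAt_const _ _)

end exps

/-- the infinitesimal version of `lk` -/
noncomputable def lkL {m n : ℕ} (d : Bool) (P : Matrix (Fin n) (Fin m) ℂ) (P' : Matrix (Fin m) (Fin n) ℂ) (X : Matrix (Fin m) (Fin m) ℂ) :
    Matrix (Fin n) (Fin n) ℂ := P * (if d then -Xᵀ else X) * P'

lemma size_eq {m n : ℕ} {P : Matrix (Fin n) (Fin m) ℂ} {P' : Matrix (Fin m) (Fin n) ℂ} (h1 : P * P' = 1) (h2 : P' * P = 1) : m = n := by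
  have e1 : (P * P').trace = n := by rw [h1, Matrix.trace_one, Fintype.card_fin]
  have e2 : (P' * P).trace = m := by rw [h2, Matrix.trace_one, Fintype.card_fin]
  rw [Matrix.trace_mul_comm, e2] at e1
  exact_mod_cast e1

section

variable {m n : ℕ} {d : Bool} {P : Matrix (Fin n) (Fin m) ℂ} {P' : Matrix (Fin m) (Fin n) ℂ}

lemma lk_exp (h1 : P * P' = 1) (h2 : P' * P = 1) (X : Matrix (Fin m) (Fin m) ℂ) (z : ℂ) :
    lk d P P' (NormedSpace.exp (z • X)) = NormedSpace.exp (z • lkL d P P' X) := by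
  obtain rfl := size_eq h1 h2
  have hP : IsUnit P := ⟨⟨P, P', h1, h2⟩, rfl⟩
  have hi : P' = P⁻¹ := (Matrix.inv_eq_right_inv h1).symm
  unfold lk lkL
  rw [hi]
  have e1 : z • (P * (if d = true then -Xᵀ else X) * P⁻¹) = P * (z • (if d = true then -Xᵀ else X)) * P⁻¹ := by
    rw [Matrix.mul_smul, Matrix.smul_mul]
  rw [e1, Matrix.exp_conj _ _ hP]
  congr 2
  split_ifs
  · have h3 : (NormedSpace.exp (z • X))⁻¹ = NormedSpace.exp ((-z) • X) := Matrix.inv_eq_right_inv (exp_neg_mul X z)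
    rw [h3, ← Matrix.exp_transpose, Matrix.transpose_smul, neg_smul, smul_neg]
  · rfl

lemma lkL_add (X Y : Matrix (Fin m) (Fin m) ℂ) : lkL d P P' (X + Y) = lkL d P P' X + lkL d P P' Y := by
  unfold lkL
  split_ifs
  · rw [Matrix.transpose_add, neg_add, Matrix.mul_add, Matrix.add_mul]
  · rw [Matrix.mul_add, Matrix.add_mul]

lemma lkL_smul (c : ℂ) (X : Matrix (Fin m) (Fin m) ℂ) : lkL d P P' (c • X) = c • lkL d P P' X := by
  unfold lkL
  split_ifs
  · rw [Matrix.transpose_smul, ← smul_neg, Matrix.mul_smul, Matrix.smul_mul]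
  · rw [Matrix.mul_smul, Matrix.smul_mul]

lemma lkL_br (h2 : P' * P = 1) (X Y : Matrix (Fin m) (Fin m) ℂ) :
    lkL d P P' (X * Y - Y * X) = lkL d P P' X * lkL d P P' Y - lkL d P P' Y * lkL d P P' X := by
  have key : ∀ A B : Matrix (Fin m) (Fin m) ℂ, (P * A * P') * (P * B * P') = P * (A * B) * P' := by
    intro A B
    calc (P * A * P') * (P * B * P') = P * A * (P' * P) * B * P' := by simp only [Matrix.mul_assoc]
      _ = _ := by rw [h2, Matrix.mul_one]; simp only [Matrix.mul_assoc]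
  unfold lkL
  split_ifs
  · rw [key, key, ← Matrix.sub_mul, ← Matrix.mul_sub]
    congr 2
    rw [Matrix.transpose_sub, Matrix.transpose_mul, Matrix.transpose_mul]
    noncomm_ring
  · rw [key, key, ← Matrix.sub_mul, ← Matrix.mul_sub]

/-- the transport back -/
noncomputable def bk (d : Bool) (P : Matrix (Fin n) (Fin m) ℂ) (P' : Matrix (Fin m) (Fin n) ℂ) (X : Matrix (Fin n) (Fin n) ℂ) :
    Matrix (Fin m) (Fin m) ℂ := if d then -(P' * X * P)ᵀ else P' * X * P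

lemma lkL_bk (h1 : P * P' = 1) (X : Matrix (Fin n) (Fin n) ℂ) : lkL d P P' (bk d P P' X) = X := by
  unfold lkL bk
  have key : P * (P' * X * P) * P' = X := by
    calc P * (P' * X * P) * P' = (P * P') * X * (P * P') := by simp only [Matrix.mul_assoc]
      _ = X := by rw [h1, Matrix.one_mul, Matrix.mul_one]
  cases d
  · simp only [Bool.false_eq_true, if_false]
    exact key
  · simp only [if_true]
    rw [Matrix.transpose_neg, neg_neg, Matrix.transpose_transpose]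
    exact key

lemma bk_trace (h1 : P * P' = 1) (X : Matrix (Fin n) (Fin n) ℂ) (hX : X.trace = 0) : (bk d P P' X).trace = 0 := by
  have key : (P' * X * P).trace = 0 := by
    rw [Matrix.trace_mul_comm, ← Matrix.mul_assoc, h1, Matrix.one_mul, hX]
  unfold bk
  split_ifs
  · rw [Matrix.trace_neg, Matrix.trace_transpose, key, neg_zero]
  · exact key

/-- the isometry condition after the transport -/
lemma bk_form (hForm : S_Form) (hm : 2 ≤ m) (h1 : P * P' = 1) (h2 : P' * P = 1) {B : Matrix (Fin m) (Fin m) ℂ} (hBc : Clf B) (hBu : IsUnit B)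
    {K X : Matrix (Fin n) (Fin n) ℂ} (hKu : IsUnit K) (hinv : ∀ κ ∈ GBs B, (lk d P P' κ)ᵀ * K * lk d P P' κ = K)
    (hX : Xᵀ * K + K * X = 0) : (bk d P P' X)ᵀ * B + B * bk d P P' X = 0 := by
  obtain rfl := size_eq h1 h2
  set C : Matrix (Fin m) (Fin m) ℂ := Pᵀ * K * P with hC
  have hPd : IsUnit P := ⟨⟨P, P', h1, h2⟩, rfl⟩
  have hPd' : IsUnit P' := ⟨⟨P', P, h2, h1⟩, rfl⟩
  have hPt : P'ᵀ * Pᵀ = 1 := by rw [← Matrix.transpose_mul, h1, Matrix.transpose_one]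
  have hPt' : Pᵀ * P'ᵀ = 1 := by rw [← Matrix.transpose_mul, h2, Matrix.transpose_one]
  have hCu : IsUnit C := (((Matrix.isUnit_transpose P).2 hPd).mul hKu).mul hPd
  have hCd := (Matrix.isUnit_iff_isUnit_det _).1 hCu
  have hW : (P' * X * P)ᵀ * C + C * (P' * X * P) = 0 := by
    have e1 : (P' * X * P)ᵀ * C = Pᵀ * (Xᵀ * K) * P := by
      rw [hC, Matrix.transpose_mul, Matrix.transpose_mul]
      calc Pᵀ * (Xᵀ * P'ᵀ) * (Pᵀ * K * P) = Pᵀ * Xᵀ * (P'ᵀ * Pᵀ) * K * P := by simp only [Matrix.mul_assoc]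
        _ = _ := by rw [hPt, Matrix.mul_one]; simp only [Matrix.mul_assoc]
    have e2 : C * (P' * X * P) = Pᵀ * (K * X) * P := by
      rw [hC]
      calc Pᵀ * K * P * (P' * X * P) = Pᵀ * K * (P * P') * X * P := by simp only [Matrix.mul_assoc]
        _ = _ := by rw [h1, Matrix.mul_one]; simp only [Matrix.mul_assoc]
    rw [e1, e2, ← Matrix.add_mul, ← Matrix.mul_add, hX, Matrix.mul_zero, Matrix.zero_mul]
  have hB0 : B ≠ 0 := by
    rintro rfl
    have : Nonempty (Fin m) := ⟨⟨0, by omega⟩⟩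
    exact not_isUnit_zero hBu
  have hcan : ∀ κ : Matrix (Fin m) (Fin m) ℂ, κ ∈ GBs B → P'ᵀ * C * P' = K := by
    intro κ _
    rw [hC]
    calc P'ᵀ * (Pᵀ * K * P) * P' = (P'ᵀ * Pᵀ) * K * (P * P') := by simp only [Matrix.mul_assoc]
      _ = K := by rw [hPt, h1, Matrix.one_mul, Matrix.mul_one]
  cases hd : d
  · -- the direct case
    obtain ⟨z, hz⟩ := hForm m B C hm hBc hBu fun κ hκ1 hκ2 => by
      have e1 := hinv κ ⟨hκ1, hκ2⟩
      rw [hd] at e1
      unfold lk at e1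
      simp only [Bool.false_eq_true, if_false] at e1
      calc κᵀ * C * κ = (Pᵀ * P'ᵀ) * κᵀ * Pᵀ * K * P * κ * (P' * P) := by
            rw [hPt', h2, Matrix.one_mul, Matrix.mul_one, hC]
            simp only [Matrix.mul_assoc]
        _ = Pᵀ * ((P * κ * P')ᵀ * K * (P * κ * P')) * P := by
            rw [Matrix.transpose_mul, Matrix.transpose_mul]
            simp only [Matrix.mul_assoc]
        _ = C := by rw [e1]
    have hz0 : z ≠ 0 := by
      rintro rfl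
      rw [zero_smul] at hz
      rw [hz] at hCu
      have : Nonempty (Fin m) := ⟨⟨0, by omega⟩⟩
      exact not_isUnit_zero hCu
    unfold bk
    simp only [Bool.false_eq_true, if_false]
    rw [hz, Matrix.mul_smul, Matrix.smul_mul, ← smul_add] at hW
    exact (smul_eq_zero.1 hW).resolve_left hz0
  · obtain ⟨z, hz⟩ := hForm m B C⁻¹ hm hBc hBu fun κ hκ1 hκ2 => by
      have e1 := hinv κ ⟨hκ1, hκ2⟩
      rw [hd] at e1
      unfold lk at e1
      simp only [if_true] at e1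
      have hκu : IsUnit κ.det := by rw [hκ1]; exact isUnit_one
      have e2 : κ⁻¹ * C * (κ⁻¹)ᵀ = C := by
        calc κ⁻¹ * C * (κ⁻¹)ᵀ = (Pᵀ * P'ᵀ) * κ⁻¹ * Pᵀ * K * P * (κ⁻¹)ᵀ * (P' * P) := by
              rw [hPt', h2, Matrix.one_mul, Matrix.mul_one, hC]
              simp only [Matrix.mul_assoc]
          _ = Pᵀ * ((P * (κ⁻¹)ᵀ * P')ᵀ * K * (P * (κ⁻¹)ᵀ * P')) * P := by
              rw [Matrix.transpose_mul, Matrix.transpose_mul, Matrix.transpose_transpose]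
              simp only [Matrix.mul_assoc]
          _ = C := by rw [e1]
      have e3 : C = κ * C * κᵀ := by
        conv_rhs => rw [← e2]
        have e4 : (κ⁻¹)ᵀ * κᵀ = 1 := by rw [← Matrix.transpose_mul, Matrix.mul_nonsing_inv _ hκu, Matrix.transpose_one]
        calc C = (κ * κ⁻¹) * C * ((κ⁻¹)ᵀ * κᵀ) := by rw [e4, Matrix.mul_nonsing_inv _ hκu, Matrix.one_mul, Matrix.mul_one]
          _ = _ := by simp only [Matrix.mul_assoc]
      symm
      refine Matrix.inv_eq_left_inv ?_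
      have e5 : κᵀ * C⁻¹ * κ * C * κᵀ = κᵀ := by
        calc κᵀ * C⁻¹ * κ * C * κᵀ = κᵀ * (C⁻¹ * (κ * C * κᵀ)) := by simp only [Matrix.mul_assoc]
          _ = κᵀ := by rw [← e3, Matrix.nonsing_inv_mul _ hCd, Matrix.mul_one]
      have e6 : κᵀ * (κ⁻¹)ᵀ = 1 := by rw [← Matrix.transpose_mul, Matrix.nonsing_inv_mul _ hκu, Matrix.transpose_one]
      calc κᵀ * C⁻¹ * κ * C = κᵀ * C⁻¹ * κ * C * (κᵀ * (κ⁻¹)ᵀ) := by rw [e6, Matrix.mul_one]
        _ = (κᵀ * C⁻¹ * κ * C * κᵀ) * (κ⁻¹)ᵀ := by simp only [Matrix.mul_assoc]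
        _ = 1 := by rw [e5, e6]
    have hz0 : z ≠ 0 := by
      rintro rfl
      rw [zero_smul] at hz
      have : IsUnit C⁻¹ := (Matrix.isUnit_nonsing_inv_iff).2 hCu
      rw [hz] at this
      have h' : Nonempty (Fin m) := ⟨⟨0, by omega⟩⟩
      exact not_isUnit_zero this
    unfold bk
    simp only [if_true]
    set W : Matrix (Fin m) (Fin m) ℂ := P' * X * P with hWd
    have hW2 : C⁻¹ * Wᵀ + W * C⁻¹ = 0 := by
      have e1 : C⁻¹ * (Wᵀ * C + C * W) * C⁻¹ = 0 := by rw [hW, Matrix.mul_zero, Matrix.zero_mul]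
      rw [Matrix.mul_add, Matrix.add_mul] at e1
      have e2 : C⁻¹ * (Wᵀ * C) * C⁻¹ = C⁻¹ * Wᵀ := by
        calc C⁻¹ * (Wᵀ * C) * C⁻¹ = C⁻¹ * Wᵀ * (C * C⁻¹) := by simp only [Matrix.mul_assoc]
          _ = _ := by rw [Matrix.mul_nonsing_inv _ hCd, Matrix.mul_one]
      have e3 : C⁻¹ * (C * W) * C⁻¹ = W * C⁻¹ := by
        calc C⁻¹ * (C * W) * C⁻¹ = (C⁻¹ * C) * W * C⁻¹ := by simp only [Matrix.mul_assoc]
          _ = _ := by rw [Matrix.nonsing_inv_mul _ hCd, Matrix.one_mul]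
      rwa [e2, e3] at e1
    rw [hz, Matrix.mul_smul, Matrix.smul_mul, ← smul_add] at hW2
    have hW3 := (smul_eq_zero.1 hW2).resolve_left hz0
    rw [Matrix.transpose_neg, Matrix.transpose_transpose, Matrix.neg_mul, Matrix.mul_neg, ← neg_add, add_comm, hW3, neg_zero]

lemma bk_charpoly (h1 : P * P' = 1) (h2 : P' * P = 1) {X Y T : Matrix (Fin n) (Fin n) ℂ} (hY : IsUnit Y) (hX : X = Y⁻¹ * T * Y)
    (hT : Grd (lv n) T) :
    (bk d P P' X).charpoly = ∏ a : Fin m, (Polynomial.X - Polynomial.C (((m : ℂ) - 1) - 2 * ((a : ℕ) : ℂ))) := by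
  obtain rfl := size_eq h1 h2
  obtain ⟨u, rfl⟩ := hY
  set v : (Matrix (Fin m) (Fin m) ℂ)ˣ := ⟨P', P, h2, h1⟩ with hv
  have e1 : ((u : Matrix (Fin m) (Fin m) ℂ))⁻¹ = ((u⁻¹ : (Matrix (Fin m) (Fin m) ℂ)ˣ) : Matrix (Fin m) (Fin m) ℂ) :=
    (Matrix.coe_units_inv u).symm
  have key : ∀ S : Matrix (Fin m) (Fin m) ℂ, (P' * ((u : Matrix (Fin m) (Fin m) ℂ)⁻¹ * S * u) * P).charpoly = S.charpoly := by
    intro S
    have e2 := Matrix.charpoly_units_conj v ((u : Matrix (Fin m) (Fin m) ℂ)⁻¹ * S * u)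
    have e3 : ((v : Matrix (Fin m) (Fin m) ℂ))⁻¹ = P := by
      rw [← Matrix.coe_units_inv]
      rfl
    rw [e3] at e2
    have e4 : (v : Matrix (Fin m) (Fin m) ℂ) = P' := rfl
    rw [e4] at e2
    rw [e2]
    have e5 := Matrix.charpoly_units_conj' u S
    exact e5
  unfold bk
  rw [hX]
  split_ifs
  · rw [← Matrix.transpose_neg, Matrix.charpoly_transpose]
    have e2 : -(P' * ((u : Matrix (Fin m) (Fin m) ℂ)⁻¹ * T * u) * P) = P' * ((u : Matrix (Fin m) (Fin m) ℂ)⁻¹ * (-T) * u) * P := by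
      simp only [Matrix.mul_neg, Matrix.neg_mul]
    rw [e2, key]
    exact grd_charpoly_neg hT
  · rw [key]
    exact grd_charpoly hT

end

/-! ### The polynomials of the exponents -/

section exps2

lemma QA_ms {n : ℕ} {α : Fin n → ℚ} (h : ∀ i, 0 < α i ∧ α i < 1) :
    QA α = ((cls α).map fun a => Polynomial.X + Polynomial.C a).prod := by
  unfold QA cls
  rw [Multiset.map_map]
  refine Finset.prod_congr rfl fun i _ => ?_
  rw [Function.comp_apply, Int.fract_eq_self.2 ⟨(h i).1.le, (h i).2⟩]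

lemma QA_cls {m n : ℕ} {α : Fin m → ℚ} {α' : Fin n → ℚ} (h : ∀ i, 0 < α i ∧ α i < 1) (h' : ∀ i, 0 < α' i ∧ α' i < 1)
    (hc : cls α = cls α') : QA α = QA α' := by rw [QA_ms h, QA_ms h', hc]

lemma one_sub_mem {n : ℕ} {α : Fin n → ℚ} (h : ∀ i, 0 < α i ∧ α i < 1) (i : Fin n) : 0 < 1 - α i ∧ 1 - α i < 1 := by
  have := h i
  constructor <;> linarith

lemma cls_one_sub {n : ℕ} (α : Fin n → ℚ) : (cls fun i => -α i) = cls fun i => 1 - α i := by
  unfold cls
  congr 1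
  funext i
  exact Int.fract_eq_fract.2 ⟨-1, by push_cast; ring⟩

lemma QA_cls_neg {m n : ℕ} {α : Fin m → ℚ} {α' : Fin n → ℚ} (h : ∀ i, 0 < α i ∧ α i < 1) (h' : ∀ i, 0 < α' i ∧ α' i < 1)
    (hc : cls α = cls fun i => -α' i) : QA α = QA fun i => 1 - α' i := by
  rw [cls_one_sub] at hc
  exact QA_cls h (one_sub_mem h') hc

lemma ni_of {n : ℕ} {α : Fin n → ℚ} (h : ∀ i, 0 < α i ∧ α i < 1) (i : Fin n) (a : ℤ) : α i ≠ a := by
  intro h0
  have h1 := (h i).1
  have h2 := (h i).2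
  rw [h0] at h1 h2
  have h3 : (0 : ℤ) < a := by exact_mod_cast h1
  have h4 : a < (1 : ℤ) := by exact_mod_cast h2
  omega

lemma Yx_unit {n : ℕ} (hn : 2 ≤ n) {α : Fin n → ℚ} (h : ∀ i, 0 < α i ∧ α i < 1) {x : ℝ} (hx0 : 0 < x) (hx1 : x < 1) :
    IsUnit (Yx n (QA α) x) := by
  rw [Matrix.isUnit_iff_isUnit_det]
  exact Ne.isUnit (det_Yx_ne (QG_QA hn fun l a h0 => ni_of h l a h0.symm) hx0 hx1)

end exps2

/-! ### The concomitant -/

section conc

variable {n : ℕ}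

/-- rational version -/
def K0q (n : ℕ) : Matrix (Fin n) (Fin n) ℚ := Matrix.of fun a b => if (a : ℕ) + b + 1 = n then (-1) ^ (b : ℕ) else 0

/-- rational version -/
def K1q (n : ℕ) (Q : Polynomial ℚ) : Matrix (Fin n) (Fin n) ℚ := Matrix.of fun a b =>
  -∑ l ∈ Finset.range n, ((-1) ^ l * (l.choose b : ℚ) * (if (a : ℕ) + l + 1 ≤ n then Q.coeff ((a : ℕ) + l + 1) else 0))

lemma K0q_map : (K0q n).map (algebraMap ℚ ℂ) = K0 n := by
  ext a b
  rw [Matrix.map_apply]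
  unfold K0q K0
  rw [Matrix.of_apply, Matrix.of_apply]
  split_ifs
  · rw [map_pow, map_neg, map_one]
  · rw [map_zero]

lemma K1q_map (Q : Polynomial ℚ) : (K1q n Q).map (algebraMap ℚ ℂ) = K1 n Q := by
  ext a b
  rw [Matrix.map_apply]
  unfold K1q K1
  rw [Matrix.of_apply, Matrix.of_apply, map_neg, map_sum]
  congr 1
  refine Finset.sum_congr rfl fun l _ => ?_
  rw [map_mul, map_mul, map_pow, map_neg, map_one, map_natCast]
  split_ifs
  · rfl
  · rw [map_zero]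

/-- the polynomial matrix -/
noncomputable def Kp (n : ℕ) (Q : Polynomial ℚ) : Matrix (Fin n) (Fin n) (Polynomial ℚ) := Matrix.of fun a b =>
  Polynomial.C (K0q n a b) + Polynomial.X * Polynomial.C (K1q n Q a b)

lemma Kp_map (Q : Polynomial ℚ) (z : ℂ) : (Kp n Q).map (evq z) = K0 n + z • K1 n Q := by
  rw [← K0q_map, ← K1q_map]
  ext a b
  rw [Matrix.map_apply]
  unfold Kp evq
  rw [Matrix.of_apply, Matrix.add_apply, Matrix.smul_apply, Matrix.map_apply, Matrix.map_apply]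
  simp
  ring

/-- the matrix of the concomitant at `x` -/
noncomputable def Nn (n : ℕ) (Q : Polynomial ℚ) (z : ℂ) : Matrix (Fin n) (Fin n) ℂ := K0 n + z • K1 n Q

lemma Nn_low (Q : Polynomial ℚ) (z : ℂ) (a b : Fin n) (h : n < (a : ℕ) + b + 1) : Nn n Q z a b = 0 := by
  unfold Nn K0 K1
  rw [Matrix.add_apply, Matrix.smul_apply, Matrix.of_apply, Matrix.of_apply, if_neg (by omega), zero_add,
    Finset.sum_eq_zero, neg_zero, smul_zero]
  intro l _
  by_cases h1 : (a : ℕ) + l + 1 ≤ n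
  · have h2 : l < b := by omega
    rw [Nat.choose_eq_zero_of_lt h2]
    push_cast
    ring
  · rw [if_neg h1, mul_zero]

lemma Nn_anti {Q : Polynomial ℚ} (hQ : Q.coeff n = 1) (z : ℂ) (hz : z ≠ 1) (a b : Fin n) (h : (a : ℕ) + b + 1 = n) :
    Nn n Q z a b ≠ 0 := by
  have h1 : Nn n Q z a b = (-1) ^ (b : ℕ) * (1 - z) := by
    unfold Nn K0 K1
    rw [Matrix.add_apply, Matrix.smul_apply, Matrix.of_apply, Matrix.of_apply, if_pos h,
      Finset.sum_eq_single (b : ℕ)]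
    · rw [if_pos (by omega), h, hQ, Nat.choose_self, smul_eq_mul]
      push_cast
      ring
    · intro l _ hl
      by_cases h1 : (a : ℕ) + l + 1 ≤ n
      · have h2 : l < b := by omega
        rw [Nat.choose_eq_zero_of_lt h2]
        push_cast
        ring
      · rw [if_neg h1, mul_zero]
    · intro h'
      exact absurd (Finset.mem_range.2 b.isLt) h'
  rw [h1]
  exact mul_ne_zero (pow_ne_zero _ (by norm_num)) (sub_ne_zero.2 (Ne.symm hz))

lemma K0_unit : IsUnit (K0 n) := by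
  have h1 : K0 n * (K0 n)ᵀ = 1 := by
    ext a b
    rw [Matrix.mul_apply, Finset.sum_eq_single a.rev]
    · rw [Matrix.transpose_apply]
      unfold K0
      rw [Matrix.of_apply, Matrix.of_apply, Matrix.one_apply, Fin.val_rev]
      have := a.isLt
      rw [if_pos (by omega)]
      by_cases hab : a = b
      · subst hab
        rw [if_pos (by omega), if_pos rfl, ← mul_pow]
        norm_num
      · rw [if_neg hab, if_neg, mul_zero]
        intro h2
        apply hab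
        ext
        omega
    · intro c _ hc
      unfold K0
      rw [Matrix.of_apply, if_neg, zero_mul]
      intro h2
      apply hc
      ext
      rw [Fin.val_rev]
      omega
    · intro h
      exact absurd (Finset.mem_univ _) h
  exact (Matrix.isUnit_iff_isUnit_det _).2 (Matrix.isUnit_det_of_right_inverse h1)

lemma K0_tr : (K0 n)ᵀ = ((-1 : ℂ) ^ (n - 1)) • K0 n := by
  ext a b
  rw [Matrix.transpose_apply, Matrix.smul_apply]
  unfold K0
  rw [Matrix.of_apply, Matrix.of_apply]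
  by_cases h : (a : ℕ) + b + 1 = n
  · rw [if_pos h, if_pos (by omega), smul_eq_mul, ← pow_add, show n - 1 + (b : ℕ) = a + 2 * b by omega, pow_add, pow_mul]
    norm_num
  · rw [if_neg h, if_neg (by omega), smul_zero]

end conc

/-! ### The other members of the class -/

section mem

variable {p n : ℕ} {x : ℝ}

/-- equal exponents -/
lemma eq_case (hDer : S_Der) (hTr : S_Tr) (hx0 : 0 < x) (hx1 : x < 1) (hn : 2 ≤ n) {α α' : Fin n → ℚ} (h : ∀ i, 0 < α i ∧ α i < 1)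
    (hQ : QA α' = QA α) {d d' : Bool}
    {P R : Matrix (Fin n) (Fin p) ℂ} {P' R' : Matrix (Fin p) (Fin n) ℂ} (hP1 : P * P' = 1) (hP2 : P' * P = 1) (hR1 : R * R' = 1)
    (hR2 : R' * R = 1) {B : Matrix (Fin p) (Fin p) ℂ} (hB0 : B = 0 ∨ IsUnit B)
    (hrel : ∀ κ ∈ GBs B, LinX (QA α) (QA α') x (Yx n (QA α) x * lk d P P' κ) (Yx n (QA α') x * lk d' R R' κ))
    {X : Matrix (Fin p) (Fin p) ℂ} (hX : X ∈ hB B)
    (hG : Grd (lv n) (Yx n (QA α) x * lkL d P P' X * (Yx n (QA α) x)⁻¹)) :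
    Grd (lv n) (Yx n (QA α') x * lkL d' R R' X * (Yx n (QA α') x)⁻¹) := by
  have hYu := (Matrix.isUnit_iff_isUnit_det _).1 (Yx_unit hn h hx0 hx1)
  have h1 : ∀ κ ∈ GBs B, lk d' R R' κ = lk d P P' κ := by
    intro κ hκ
    have h2 := hrel κ hκ 1 1 1 fun x _ _ => by
      rw [map_one, one_smul, Matrix.map_one _ (map_zero _) (map_one _), Matrix.map_one _ (map_zero _) (map_one _), Matrix.mul_one,
        Matrix.one_mul, hQ]
    rw [map_one, one_smul, Matrix.map_one _ (map_zero _) (map_one _), Matrix.map_one _ (map_zero _) (map_one _), Matrix.mul_one,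
      Matrix.one_mul, hQ] at h2
    calc lk d' R R' κ = (Yx n (QA α) x)⁻¹ * (Yx n (QA α) x * lk d' R R' κ) := by
          rw [← Matrix.mul_assoc, Matrix.nonsing_inv_mul _ hYu, Matrix.one_mul]
      _ = _ := by rw [h2, ← Matrix.mul_assoc, Matrix.nonsing_inv_mul _ hYu, Matrix.one_mul]
  have h3 : lkL d' R R' X = lkL d P P' X := by
    have h4 := two_deriv (N := lkL d' R R' X) (X := 1) (N' := -lkL d P P' X) fun z => by
      rw [← lk_exp hR1 hR2, h1 _ (exp_GBs hDer hTr hB0 hX z), lk_exp hP1 hP2, Matrix.mul_one, smul_neg, ← neg_smul]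
      exact exp_neg_mul _ _
    rw [Matrix.mul_one, Matrix.one_mul] at h4
    exact eq_of_sub_eq_zero (by rw [sub_eq_add_neg]; exact h4)
  rw [h3, hQ]
  exact hG

/-- the concomitant -/
lemma conc_Y (hConc : S_Conc) (hx0 : 0 < x) (hx1 : x < 1) (hn : 2 ≤ n) {α α' : Fin n → ℚ} (h : ∀ i, 0 < α i ∧ α i < 1)
    (hQ : QA α' = QA fun i => 1 - α i) : (Yx n (QA α) x)ᵀ * Nn n (QA α) (x : ℂ) *
      Yx n (QA α') x = K0 n := by
  rw [hQ]
  exact hConc n α hn h _ hx0 hx1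

/-- the invariance of the form -/
lemma conc_inv (hConc : S_Conc) (hx0 : 0 < x) (hx1 : x < 1) (hn : 2 ≤ n) {α α' : Fin n → ℚ} (h : ∀ i, 0 < α i ∧ α i < 1)
    (hQ : QA α' = QA fun i => 1 - α i) {A A' : Matrix (Fin n) (Fin n) ℂ}
    (hrel : BilX (QA α) (QA α') x (Yx n (QA α) x * A) (Yx n (QA α') x * A')) :
    Aᵀ * K0 n * A' = K0 n := by
  have h1 := hrel (Kp n (QA α)) 1 (K0q n) fun x hx0 hx1 => by
    rw [Kp_map, map_one, one_smul, K0q_map, hQ]
    exact hConc n α hn h x hx0 hx1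
  rw [Kp_map, map_one, one_smul, K0q_map] at h1
  have h2 := conc_Y hConc hx0 hx1 hn h hQ
  unfold Nn at h2
  calc Aᵀ * K0 n * A' = Aᵀ * ((Yx n (QA α) x)ᵀ * (K0 n + (x : ℂ) • K1 n (QA α)) *
        Yx n (QA α') x) * A' := by rw [h2]
    _ = (Yx n (QA α) x * A)ᵀ * (K0 n + (x : ℂ) • K1 n (QA α)) * (Yx n (QA α') x * A') := by
        rw [Matrix.transpose_mul]
        simp only [Matrix.mul_assoc]
    _ = _ := h1

lemma dual_alg {I : Type} [Fintype I] [DecidableEq I] {Y Y' K N A : Matrix I I ℂ} (hYu : IsUnit Y.det) (hYu' : IsUnit Y'.det)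
    (hKu : IsUnit K.det) (hYN : Yᵀ * N * Y' = K) :
    IsUnit N.det ∧ Y' * (-(K⁻¹ * Aᵀ * K)) * Y'⁻¹ = -(N⁻¹ * (Y * A * Y⁻¹)ᵀ * N) := by
  have hYt : IsUnit (Yᵀ).det := by rw [Matrix.det_transpose]; exact hYu
  have hNe : N = (Yᵀ)⁻¹ * K * Y'⁻¹ := by
    rw [← hYN]
    calc N = ((Yᵀ)⁻¹ * Yᵀ) * N * (Y' * Y'⁻¹) := by
          rw [Matrix.nonsing_inv_mul _ hYt, Matrix.mul_nonsing_inv _ hYu', Matrix.one_mul, Matrix.mul_one]
      _ = _ := by simp only [Matrix.mul_assoc]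
  have hNu : IsUnit N.det := by
    rw [hNe, Matrix.det_mul, Matrix.det_mul]
    exact ((Matrix.isUnit_nonsing_inv_det _ hYt).mul hKu).mul (Matrix.isUnit_nonsing_inv_det _ hYu')
  have hNi : N⁻¹ = Y' * K⁻¹ * Yᵀ := by
    refine Matrix.inv_eq_right_inv ?_
    rw [hNe]
    calc (Yᵀ)⁻¹ * K * Y'⁻¹ * (Y' * K⁻¹ * Yᵀ) = (Yᵀ)⁻¹ * K * (Y'⁻¹ * Y') * K⁻¹ * Yᵀ := by simp only [Matrix.mul_assoc]
      _ = (Yᵀ)⁻¹ * (K * K⁻¹) * Yᵀ := by rw [Matrix.nonsing_inv_mul _ hYu', Matrix.mul_one]; simp only [Matrix.mul_assoc]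
      _ = 1 := by rw [Matrix.mul_nonsing_inv _ hKu, Matrix.mul_one, Matrix.nonsing_inv_mul _ hYt]
  refine ⟨hNu, ?_⟩
  have e1 : (Y⁻¹)ᵀ = (Yᵀ)⁻¹ := Matrix.transpose_nonsing_inv _
  rw [Matrix.transpose_mul, Matrix.transpose_mul, e1, hNi]
  have e2 : Y' * K⁻¹ * Yᵀ * ((Yᵀ)⁻¹ * (Aᵀ * Yᵀ)) * N = Y' * (K⁻¹ * Aᵀ * K) * Y'⁻¹ := by
    calc Y' * K⁻¹ * Yᵀ * ((Yᵀ)⁻¹ * (Aᵀ * Yᵀ)) * N = Y' * K⁻¹ * (Yᵀ * (Yᵀ)⁻¹) * Aᵀ * Yᵀ * N := by simp only [Matrix.mul_assoc]
      _ = Y' * K⁻¹ * Aᵀ * (Yᵀ * N) := by rw [Matrix.mul_nonsing_inv _ hYt, Matrix.mul_one]; simp only [Matrix.mul_assoc]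
      _ = Y' * K⁻¹ * Aᵀ * (Yᵀ * N * (Y' * Y'⁻¹)) := by rw [Matrix.mul_nonsing_inv _ hYu', Matrix.mul_one]
      _ = Y' * K⁻¹ * Aᵀ * ((Yᵀ * N * Y') * Y'⁻¹) := by simp only [Matrix.mul_assoc]
      _ = _ := by rw [hYN]; simp only [Matrix.mul_assoc]
  rw [e2, Matrix.mul_neg, Matrix.neg_mul]

/-- dual exponents -/
lemma dual_case (hDer : S_Der) (hTr : S_Tr) (hConc : S_Conc) (hx0 : 0 < x) (hx1 : x < 1) (hn : 2 ≤ n) {α α' : Fin n → ℚ} (h : ∀ i, 0 < α i ∧ α i < 1)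
    (h' : ∀ i, 0 < α' i ∧ α' i < 1) (hQ : QA α' = QA fun i => 1 - α i) {d d' : Bool}
    {P R : Matrix (Fin n) (Fin p) ℂ} {P' R' : Matrix (Fin p) (Fin n) ℂ} (hP1 : P * P' = 1) (hP2 : P' * P = 1) (hR1 : R * R' = 1)
    (hR2 : R' * R = 1) {B : Matrix (Fin p) (Fin p) ℂ} (hB0 : B = 0 ∨ IsUnit B)
    (hrel : ∀ κ ∈ GBs B, BilX (QA α) (QA α') x (Yx n (QA α) x * lk d P P' κ) (Yx n (QA α') x * lk d' R R' κ))
    {X : Matrix (Fin p) (Fin p) ℂ} (hX : X ∈ hB B)
    (hG : Grd (lv n) (Yx n (QA α) x * lkL d P P' X * (Yx n (QA α) x)⁻¹)) :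
    Grd (lv n) (Yx n (QA α') x * lkL d' R R' X * (Yx n (QA α') x)⁻¹) := by
  have hYu := (Matrix.isUnit_iff_isUnit_det _).1 (Yx_unit hn h hx0 hx1)
  have hYu' := (Matrix.isUnit_iff_isUnit_det _).1 (Yx_unit hn h' hx0 hx1)
  have hKu := (Matrix.isUnit_iff_isUnit_det _).1 (K0_unit (n := n))
  set Y := Yx n (QA α) x with hY
  set Y' := Yx n (QA α') x with hY'
  set N := Nn n (QA α) (x : ℂ) with hN
  have hYN : Yᵀ * N * Y' = K0 n := conc_Y hConc hx0 hx1 hn h hQ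
  have h3 : (lkL d P P' X)ᵀ * K0 n + K0 n * lkL d' R R' X = 0 := by
    refine two_deriv fun z => ?_
    have h4 := conc_inv hConc hx0 hx1 hn h hQ (hrel _ (exp_GBs hDer hTr hB0 hX z))
    rw [lk_exp hP1 hP2, lk_exp hR1 hR2, ← Matrix.exp_transpose, Matrix.transpose_smul] at h4
    exact h4
  set A := lkL d P P' X with hA
  set A' := lkL d' R R' X with hA'
  have h4 : A' = -((K0 n)⁻¹ * Aᵀ * K0 n) := by
    have h5 : K0 n * A' = -(Aᵀ * K0 n) := eq_neg_of_add_eq_zero_right h3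
    calc A' = (K0 n)⁻¹ * (K0 n * A') := by rw [← Matrix.mul_assoc, Matrix.nonsing_inv_mul _ hKu, Matrix.one_mul]
      _ = _ := by rw [h5, Matrix.mul_neg, Matrix.mul_assoc]
  obtain ⟨hNu, h5⟩ := dual_alg (A := A) hYu hYu' hKu hYN
  rw [← h4] at h5
  rw [h5]
  have hQm := QG_QA hn (α := α) fun l a h0 => ni_of h l a h0.symm
  refine tri (fun a b hab => Nn_low _ _ a b hab) (fun a b hab => Nn_anti ?_ _ ?_ a b hab) hNu hG
  · have h6 := hQm.monic
    have h7 := hQm.deg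
    rw [Polynomial.Monic, Polynomial.leadingCoeff, h7] at h6
    exact h6
  · rw [Ne, Complex.ofReal_eq_one]
    exact hx1.ne

end mem

end Q207.HG
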